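import Mathlib

/-!
# The lists of the minimal tiles and of the bad tile-free multisets
-/

namespace Pool.Agent.helper33.BE

/-- the minimal tiles -/
def Pl : List (List ℕ) :=
  [[3, 3, 3], [4, 4, 4, 4, 4, 4], [5, 5, 5, 4, 4, 4, 3], [5, 5, 4, 4, 4, 4, 4, 3],
  [5, 5, 5, 5, 4, 4, 4, 4], [5, 5, 5, 5, 5, 5, 3, 3], [5, 5, 5, 5, 5, 4, 4, 3, 3],
  [5, 5, 5, 5, 5, 5, 5, 4], [5, 5, 5, 5, 5, 5, 4, 4, 4],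
  [5, 5, 5, 5, 5, 5, 5, 5, 5, 5, 5, 5], [6, 6, 3], [6, 5, 4, 3, 3], [6, 5, 5, 4, 4],
  [6, 6, 4, 4, 4], [6, 6, 6, 6], [6, 5, 4, 4, 4, 4], [6, 5, 5, 5, 3, 3], [6, 6, 5, 5, 5],
  [6, 6, 6, 5, 4], [6, 5, 5, 5, 5, 4], [6, 5, 5, 5, 5, 5, 5], [7, 4, 4, 3, 3],
  [7, 5, 4, 4, 4], [7, 5, 5, 4, 3], [7, 6, 5, 3, 3], [7, 6, 6, 5], [7, 7, 5, 5],
  [7, 7, 6, 4], [7, 6, 5, 5, 4], [7, 6, 6, 4, 4], [7, 7, 5, 4, 4], [7, 7, 7, 3, 3],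
  [7, 7, 7, 6], [7, 4, 4, 4, 4, 4, 3], [7, 5, 5, 5, 4, 4], [7, 5, 5, 5, 5, 3],
  [7, 7, 4, 4, 4, 4], [7, 7, 7, 5, 4], [7, 6, 4, 4, 4, 4, 4], [7, 6, 5, 5, 5, 5],
  [7, 7, 7, 4, 4, 4], [7, 7, 7, 7, 5], [7, 5, 5, 5, 5, 5, 4], [7, 7, 7, 7, 4, 4],
  [7, 7, 7, 7, 7, 4], [7, 7, 7, 7, 7, 7], [8, 7, 3, 3], [8, 8, 5], [8, 4, 4, 4, 4],
  [8, 5, 5, 3, 3], [8, 6, 4, 3, 3], [8, 6, 5, 5], [8, 6, 6, 4], [8, 7, 5, 4], [8, 7, 6, 3],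
  [8, 8, 4, 4], [8, 8, 8], [8, 5, 4, 4, 3, 3], [8, 5, 5, 5, 4], [8, 6, 5, 4, 4],
  [8, 7, 4, 4, 4], [8, 7, 6, 6], [8, 7, 7, 5], [8, 8, 7, 4], [8, 5, 5, 4, 4, 4],
  [8, 7, 5, 5, 5], [8, 7, 7, 4, 4], [8, 8, 7, 7], [8, 7, 7, 7, 4], [8, 5, 5, 5, 5, 5, 3],
  [8, 7, 7, 7, 7], [9], [10, 5, 3, 3], [10, 6, 5], [10, 7, 4], [10, 4, 4, 3, 3],
  [10, 5, 5, 4], [10, 6, 4, 4], [10, 7, 7], [10, 8, 3, 3], [10, 8, 6], [10, 10, 4],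
  [10, 5, 4, 4, 4], [10, 7, 5, 5], [10, 8, 5, 4], [10, 10, 7], [10, 4, 4, 4, 4, 4],
  [10, 5, 5, 5, 5], [10, 8, 4, 4, 4], [10, 8, 7, 5], [10, 8, 8, 4], [10, 10, 5, 5],
  [10, 10, 10], [10, 8, 5, 5, 5], [10, 8, 8, 7], [10, 10, 8, 5], [10, 10, 8, 8],
  [11, 4, 3, 3], [11, 5, 5], [11, 10], [11, 5, 4, 4], [11, 6, 4, 3], [11, 7, 3, 3],
  [11, 7, 6], [11, 8, 5], [11, 4, 4, 4, 4], [11, 6, 6, 4], [11, 7, 5, 4], [11, 8, 4, 4],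
  [11, 8, 8], [11, 11, 5], [11, 7, 4, 4, 4], [11, 7, 7, 5], [11, 8, 7, 4], [11, 11, 4, 4],
  [11, 11, 8], [11, 7, 7, 4, 4], [11, 8, 7, 7], [11, 11, 7, 4], [11, 11, 11],
  [11, 7, 7, 7, 4], [11, 11, 7, 7], [11, 7, 7, 7, 7], [12, 3], [12, 5, 4], [12, 4, 4, 4],
  [12, 6, 6], [12, 7, 5], [12, 8, 4], [12, 12], [12, 5, 5, 5], [12, 7, 4, 4], [12, 8, 7],
  [12, 10, 5], [12, 11, 4], [12, 7, 7, 4], [12, 8, 5, 5], [12, 10, 4, 4], [12, 10, 8],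
  [12, 11, 7], [12, 7, 7, 7], [13, 4, 4], [13, 8], [13, 5, 3, 3], [13, 6, 5], [13, 7, 4],
  [13, 11], [13, 5, 5, 4], [13, 7, 7], [13, 10, 4], [13, 7, 5, 5], [13, 10, 7],
  [13, 12, 5], [13, 13, 4], [13, 5, 5, 5, 5], [13, 10, 5, 5], [13, 10, 10], [13, 13, 7],
  [13, 13, 5, 5], [13, 13, 10], [13, 13, 13], [14, 7], [14, 4, 3, 3], [14, 5, 5],
  [14, 6, 4], [14, 10], [14, 5, 4, 4], [14, 8, 5], [14, 13], [14, 4, 4, 4, 4],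
  [14, 8, 4, 4], [14, 8, 8], [14, 11, 5], [14, 12, 4], [14, 11, 4, 4], [14, 11, 8],
  [14, 14, 5], [14, 11, 11], [14, 14, 4, 4], [14, 14, 8], [14, 14, 11], [14, 14, 14],
  [15, 3, 3], [15, 6], [15, 5, 4], [15, 4, 4, 4], [15, 7, 5], [15, 8, 4], [15, 12],
  [15, 5, 5, 5], [15, 7, 4, 4], [15, 8, 7], [15, 10, 5], [15, 11, 4], [15, 15],
  [15, 7, 7, 4], [15, 8, 5, 5], [15, 10, 4, 4], [15, 10, 8], [15, 11, 7], [15, 13, 5],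
  [15, 14, 4], [15, 7, 7, 7], [16, 5], [16, 4, 4], [16, 8], [16, 7, 4], [16, 11],
  [16, 7, 7], [16, 10, 4], [16, 14], [16, 10, 7], [16, 13, 4], [16, 10, 10], [16, 13, 7],
  [16, 16, 4], [16, 13, 10], [16, 16, 7], [16, 13, 13], [16, 16, 10], [16, 16, 13],
  [16, 16, 16], [17, 4], [17, 7], [17, 5, 5], [17, 10], [17, 8, 5], [17, 13], [17, 8, 8],
  [17, 11, 5], [17, 16], [17, 11, 8], [17, 14, 5], [17, 11, 11], [17, 14, 8], [17, 17, 5],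
  [17, 14, 11], [17, 17, 8], [17, 14, 14], [17, 17, 11], [17, 17, 14], [17, 17, 17]]

/-- the tile-free multisets without end filling -/
def badL : List (List ℕ) :=
  [[4], [5], [6], [4, 3], [5, 3], [4, 4], [8], [6, 3], [5, 4], [4, 3, 3], [7, 3], [6, 4],
  [5, 5], [10], [5, 3, 3], [4, 4, 3], [7, 4], [6, 5], [11], [4, 4, 4], [8, 4], [7, 5],
  [6, 6], [12], [5, 4, 4], [4, 4, 3, 3], [7, 4, 3], [6, 5, 3], [5, 5, 4], [5, 4, 3, 3],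
  [6, 4, 4, 3], [5, 5, 4, 3], [10, 4, 3], [7, 7, 3], [5, 4, 4, 4], [7, 6, 4], [7, 5, 5],
  [4, 4, 4, 3, 3], [5, 5, 5, 3], [8, 7, 3], [6, 4, 4, 4], [5, 5, 5, 4], [7, 7, 3, 3],
  [4, 4, 4, 4, 3, 3], [5, 5, 5, 5, 3], [4, 4, 4, 4, 4, 3, 3], [5, 5, 5, 5, 3, 3],
  [6, 4, 4, 4, 4, 4], [5, 5, 5, 5, 5, 4], [5, 5, 5, 5, 5, 5, 3], [5, 5, 5, 5, 5, 5, 5, 3],
  [5, 5, 5, 5, 5, 5, 5, 5, 5], [5, 5, 5, 5, 5, 5, 5, 5, 5, 5],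
  [5, 5, 5, 5, 5, 5, 5, 5, 5, 5, 3]]

end Pool.Agent.helper33.BE
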