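import Pool.Agent.helper33.BE.Endgame
import Pool.Agent.helper9.BE.CovF

/-!
# Every 2-regular graph of odd order with the three exceptions: all multisets are good
-/

namespace Pool.Agent.helper33.BE

open Pool.Agent.helper9.SV

/-- the sum of a list of tiles -/
noncomputable def sumL (L : List (List ℕ)) : Multiset ℕ :=
  (L.map (fun p : List ℕ => (p : Multiset ℕ))).sum

theorem sumL_cons (p : List ℕ) (L : List (List ℕ)) :
    sumL (p :: L) = (p : Multiset ℕ) + sumL L := by
  simp [sumL]

theorem SG_add_sumL {T : Multiset ℕ} {L : List (List ℕ)} (hL : ∀ p ∈ L, p ∈ Pl) (hT : SG T) :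
    SG (T + sumL L) := by
  induction L generalizing T with
  | nil => simpa [sumL] using hT
  | cons p L ih =>
    obtain ⟨k, hk⟩ := Pl_tile p (hL p List.mem_cons_self)
    rw [sumL_cons, ← add_assoc]
    exact ih (fun q hq => hL q (List.mem_cons_of_mem _ hq)) (SG_add_tile hT hk)

theorem Pl_len {p : List ℕ} (hp : p ∈ Pl) : p.length < 64 := by
  have h := List.all_eq_true.1 Pl_ok p hp
  rw [Bool.and_eq_true] at h
  simpa using h.1

theorem encT3 : encL [3, 3, 3] = 6291456 := by decide +kernel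
theorem encT4 : encL [4, 4, 4, 4, 4, 4] = 1610612736 := by decide +kernel
theorem encT9 : encL [9] = 9223372036854775808 := by decide +kernel

theorem ex_form {r : List ℕ} (hr : r ∈ badL) {L : List (List ℕ)} (hL : ∀ p ∈ L, p ∈ Pl)
    (hx : ∀ p ∈ L, encL p ∈ exN r) : ∃ a b c : ℕ, sumL L = a • T3 + b • T4 + c • T9 ∧
      (a = 0 ∨ 6291456 ∈ exN r) ∧ (b = 0 ∨ 1610612736 ∈ exN r) ∧
      (c = 0 ∨ 9223372036854775808 ∈ exN r) := by
  induction L with
  | nil => exact ⟨0, 0, 0, by simp [sumL], Or.inl rfl, Or.inl rfl, Or.inl rfl⟩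
  | cons p L ih =>
    obtain ⟨a, b, c, h, ha, hb, hc⟩ := ih (fun q hq => hL q (List.mem_cons_of_mem _ hq))
      (fun q hq => hx q (List.mem_cons_of_mem _ hq))
    have hp := hL p List.mem_cons_self
    have hk := hx p List.mem_cons_self
    have hl := Pl_len hp
    rcases exN_sub r hr _ hk with h1 | h1 | h1
    · refine ⟨a + 1, b, c, ?_, Or.inr (h1 ▸ hk), hb, hc⟩
      have : (p : Multiset ℕ) = T3 := Multiset.coe_eq_coe.2
        (encL_inj (h1.trans encT3.symm) (by omega) (by decide))
      rw [sumL_cons, this, h, add_nsmul, one_nsmul]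
      abel
    · refine ⟨a, b + 1, c, ?_, ha, Or.inr (h1 ▸ hk), hc⟩
      have : (p : Multiset ℕ) = T4 := Multiset.coe_eq_coe.2
        (encL_inj (h1.trans encT4.symm) (by omega) (by decide))
      rw [sumL_cons, this, h, add_nsmul, one_nsmul]
      abel
    · refine ⟨a, b, c + 1, ?_, ha, hb, Or.inr (h1 ▸ hk)⟩
      have : (p : Multiset ℕ) = T9 := Multiset.coe_eq_coe.2
        (encL_inj (h1.trans encT9.symm) (by omega) (by decide))
      rw [sumL_cons, this, h, add_nsmul, one_nsmul]
      abel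

theorem sumL_perm {L L' : List (List ℕ)} (h : L.Perm L') : sumL L = sumL L' :=
  (h.map _).sum_eq

/-- small parts only -/
theorem good_small (S : Multiset ℕ) (hS : ∀ x ∈ S, 3 ≤ x ∧ x ≤ 17) (hodd : S.sum % 2 = 1)
    (h1 : S ≠ {3, 4}) (h2 : S ≠ {3, 3, 3, 4}) (h3 : S ≠ {3, 3, 5}) : Good S := by
  obtain ⟨r, L, hL, hsum, hlen, -, hsg⟩ := cov S hS
  change (r : Multiset ℕ) + sumL L = S at hsum
  rcases sgB_spec hsg hlen with h | ⟨r', hr', he⟩
  · rw [← hsum] at hodd ⊢
    exact SG_good (SG_add_sumL hL h) hodd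
  · rw [← he] at hsum
    by_cases hx : ∀ p ∈ L, encL p ∈ exN r'
    · obtain ⟨a, b, c, hf, ha, hb, hc⟩ := ex_form hr' hL hx
      rw [hf] at hsum
      have ho : (r'.sum + 9 * a + 24 * b + 9 * c) % 2 = 1 := by
        rw [← sum_form, hsum]; exact hodd
      rw [← hsum] at h1 h2 h3 ⊢
      exact endgame r' hr' a b c ha hb hc ho h1 h2 h3
    · push Not at hx
      obtain ⟨p, hp, hpx⟩ := hx
      have hpl := hL p hp
      have hlr : r'.length < 64 := by
        have := List.all_eq_true.1 bad_len r' hr'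
        simpa using this
      have hSG := SG_of_HG ((bad_row r' hr' p hpl).resolve_left hpx)
        (by have := Pl_len hpl; omega)
      have hperm := List.perm_cons_erase hp
      have e : S = ((r' : Multiset ℕ) + (p : Multiset ℕ)) + sumL (L.erase p) := by
        rw [← hsum, sumL_perm hperm, sumL_cons, add_assoc]
      rw [e] at hodd ⊢
      exact SG_good (SG_add_sumL (fun q hq => hL q (List.mem_of_mem_erase hq)) hSG) hodd

theorem all_good (mu : Multiset ℕ) (hmu : ∀ k ∈ mu, 3 ≤ k) (hodd : Odd mu.sum)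
    (h1 : mu ≠ {3, 4}) (h2 : mu ≠ {3, 3, 3, 4}) (h3 : mu ≠ {3, 3, 5}) : Good mu := by
  have ho : mu.sum % 2 = 1 := Nat.odd_iff.1 hodd
  by_cases hbig : ∃ x ∈ mu, 18 ≤ x
  · have hsplit := Multiset.filter_add_not (fun x => x ≤ 17) mu
    obtain ⟨r, L, hL, hsum, hlen, hop, -⟩ := cov (mu.filter (fun x => x ≤ 17)) (by
      intro x hx
      rw [Multiset.mem_filter] at hx
      exact ⟨hmu x hx.1, hx.2⟩)
    change (r : Multiset ℕ) + sumL L = _ at hsum
    have hLG := node_LG hop hlen
    have hne : mu.filter (fun x => ¬ x ≤ 17) ≠ 0 := by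
      obtain ⟨x, hx, hx18⟩ := hbig
      intro h0
      have : x ∈ mu.filter (fun x => ¬ x ≤ 17) := Multiset.mem_filter.2 ⟨hx, by omega⟩
      rw [h0] at this
      exact absurd this (Multiset.notMem_zero x)
    have hSG := SG_add_sumL hL (hLG _ hne (by
      intro x hx
      rw [Multiset.mem_filter] at hx
      omega))
    have e : (r : Multiset ℕ) + mu.filter (fun x => ¬ x ≤ 17) + sumL L = mu := by
      rw [add_right_comm, hsum, hsplit]
    rw [e] at hSG
    exact SG_good hSG ho
  · push Not at hbig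
    exact good_small mu (fun x hx => ⟨hmu x hx, by have := hbig x hx; omega⟩) ho h1 h2 h3

end Pool.Agent.helper33.BE
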