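import Pool.Agent.helper33.BE.EndC

/-!
# Moves (data)
-/

namespace Pool.Agent.helper33.BE

theorem pump_3 : Pump 3 :=
  chkPump_spec (U := [2596, 42, 2595, 939, 2594, 938, 41]) (V := [554, 426]) (by decide +kernel)

theorem pump_4 : Pump 4 :=
  chkPump_spec (U := [938, 2595, 939, 41, 2596, 42]) (V := [555, 2593, 554, 427, 2594, 426]) (by decide +kernel)

theorem pump_5 : Pump 5 :=
  chkPump_spec (U := [938, 2593, 940, 2592, 43, 939, 2595, 41, 2596, 42]) (V := [555, 426, 554, 2594, 427]) (by decide +kernel)

theorem exch_7 : Exch 7 8 5 :=
  chkExch_spec (Z := [554, 2594, 43, 2592, 939, 2593, 940]) (W := [427, 555, 426, 2595, 41, 938, 2596, 42]) (by decide +kernel)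

theorem exch_8 : Exch 8 7 5 :=
  chkExch_spec (Z := [554, 426, 2595, 43, 2594, 41, 938, 2596]) (W := [427, 555, 2593, 940, 2592, 939, 42]) (by decide +kernel)

theorem exch_9 : Exch 9 6 5 :=
  chkExch_spec (Z := [554, 426, 2595, 41, 940, 2592, 43, 2594, 939]) (W := [427, 555, 2593, 938, 2596, 42]) (by decide +kernel)

theorem exch_10 : Exch 10 8 6 :=
  chkExch_spec (Z := [556, 2591, 555, 428, 2592, 940, 42, 2596, 41, 938]) (W := [43, 2593, 426, 2595, 939, 2594, 554, 427]) (by decide +kernel)

theorem exch_11 : Exch 11 7 6 :=
  chkExch_spec (Z := [555, 428, 2591, 556, 426, 2595, 41, 939, 42, 2596, 938]) (W := [43, 2594, 554, 2592, 940, 2593, 427]) (by decide +kernel)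

theorem exch_12 : Exch 12 6 6 :=
  chkExch_spec (Z := [556, 2591, 555, 2593, 426, 2595, 939, 2594, 42, 2596, 41, 938]) (W := [43, 940, 2592, 428, 554, 427]) (by decide +kernel)

theorem exch_13 : Exch 13 5 6 :=
  chkExch_spec (Z := [556, 2591, 555, 428, 554, 2594, 426, 2595, 939, 42, 2596, 41, 938]) (W := [43, 2593, 940, 2592, 427]) (by decide +kernel)

theorem exch_14 : Exch 14 4 6 :=
  chkExch_spec (Z := [555, 2591, 428, 2592, 556, 426, 554, 2593, 939, 42, 2596, 41, 2595, 938]) (W := [43, 940, 2594, 427]) (by decide +kernel)

theorem exch_15 : Exch 15 3 6 :=
  chkExch_spec (Z := [556, 2591, 428, 555, 426, 2595, 939, 2594, 554, 2592, 940, 42, 2596, 41, 938]) (W := [43, 2593, 427]) (by decide +kernel)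

theorem close_0_10 : Close 10 (([] : List ℕ) : Multiset ℕ) :=
  chkClose_spec (D := 746657320174324970259701808902442244) (by decide +kernel)

theorem close_0_11 : Close 11 (([] : List ℕ) : Multiset ℕ) :=
  chkClose_spec (D := 4429069725257737128339024925689662949628) (by decide +kernel)

theorem close_0_12 : Close 12 (([] : List ℕ) : Multiset ℕ) :=
  chkClose_spec (D := 12524077313042362304153310285794642410573072) (by decide +kernel)

theorem close_0_13 : Close 13 (([] : List ℕ) : Multiset ℕ) :=
  chkClose_spec (D := 74502586865911445212051051591150813961654339836) (by decide +kernel)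

theorem close_0_14 : Close 14 (([] : List ℕ) : Multiset ℕ) :=
  chkClose_spec (D := 209753869713042034393154442060680285388346357697800) (by decide +kernel)

theorem close_0_15 : Close 15 (([] : List ℕ) : Multiset ℕ) :=
  chkClose_spec (D := 1251442569995604989744733427372853310351051176312523004) (by decide +kernel)

theorem close_0_16 : Close 16 (([] : List ℕ) : Multiset ℕ) :=
  chkClose_spec (D := 3519084482799168214734691651591637040924676423943151635728) (by decide +kernel)

theorem close_0_17 : Close 17 (([] : List ℕ) : Multiset ℕ) :=
  chkClose_spec (D := 20965901107743525768137133531088431048847255705624785431005432) (by decide +kernel)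

theorem close_0_18 : Close 18 (([] : List ℕ) : Multiset ℕ) :=
  chkClose_spec (D := 59040415387891474163383184080249471079650434066825092682639985936) (by decide +kernel)

theorem close_5_10 : Close 10 (([5] : List ℕ) : Multiset ℕ) :=
  chkClose_spec (D := 1251442569995604989740676311617095967789737688012195064) (by decide +kernel)

theorem close_5_11 : Close 11 (([5] : List ℕ) : Multiset ℕ) :=
  chkClose_spec (D := 3519084482799168256920071978504697182071720546488468701428) (by decide +kernel)

theorem close_5_12 : Close 12 (([5] : List ℕ) : Multiset ℕ) :=
  chkClose_spec (D := 20917259310354392138630385033983998730128514896994798803058932) (by decide +kernel)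

theorem close_5_13 : Close 13 (([5] : List ℕ) : Multiset ℕ) :=
  chkClose_spec (D := 59040415376019217333268670010983428712873050499140313935598568696) (by decide +kernel)

theorem close_5_14 : Close 14 (([5] : List ℕ) : Multiset ℕ) :=
  chkClose_spec (D := 352170597866994077544034611995023666501809914130487453381168597026040) (by decide +kernel)

theorem close_5_15 : Close 15 (([5] : List ℕ) : Multiset ℕ) :=
  chkClose_spec (D := 988808786354874780926519791660851247861846596961203145994400346259080444) (by decide +kernel)

theorem close_5_16 : Close 16 (([5] : List ℕ) : Multiset ℕ) :=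
  chkClose_spec (D := 5894750847895177716355125663798305074555057674613029277010307643633879287028) (by decide +kernel)

theorem close_5_17 : Close 17 (([5] : List ℕ) : Multiset ℕ) :=
  chkClose_spec (D := 16589451525710316240685230708818088494814169033696272014154746061524607603605752) (by decide +kernel)

theorem close_5_18 : Close 18 (([5] : List ℕ) : Multiset ℕ) :=
  chkClose_spec (D := 99253192625881886893927811407178170260248550467233304927203762607572164589718078716) (by decide +kernel)

theorem close_55_10 : Close 10 (([5, 5] : List ℕ) : Multiset ℕ) :=
  chkClose_spec (D := 988808786354873187898809268026203598655170631212478555463724173584466164) (by decide +kernel)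

theorem close_55_11 : Close 11 (([5, 5] : List ℕ) : Multiset ℕ) :=
  chkClose_spec (D := 5923905224722572753185743324521562617355268288429911644385270728047633334508) (by decide +kernel)

theorem close_55_12 : Close 12 (([5, 5] : List ℕ) : Multiset ℕ) :=
  chkClose_spec (D := 16589451525710316343554367433731998278891761612433571870109693085633677680935152) (by decide +kernel)

theorem close_55_13 : Close 13 (([5, 5] : List ℕ) : Multiset ℕ) :=
  chkClose_spec (D := 99371763718195232854333038322089971475912585631226430710916342948354820385834746096) (by decide +kernel)

theorem close_55_14 : Close 14 (([5, 5] : List ℕ) : Multiset ℕ) :=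
  chkClose_spec (D := 278324693026213105125329313396978521989519395591946638720894264734854471471445696282860) (by decide +kernel)

theorem close_55_15 : Close 15 (([5, 5] : List ℕ) : Multiset ℕ) :=
  chkClose_spec (D := 1665317006097244992960475535263372039462985101044681899652410385954457171517386553943965944) (by decide +kernel)

theorem close_55_16 : Close 16 (([5, 5] : List ℕ) : Multiset ℕ) :=
  chkClose_spec (D := 4661367338422204773347232676770286309649787776475922653248969035766059025472815477600293961968) (by decide +kernel)

theorem close_55_17 : Close 17 (([5, 5] : List ℕ) : Multiset ℕ) :=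
  chkClose_spec (D := 28001937462539729828757316805240505112903578559266529177911692051795165494523123080752793524339952) (by decide +kernel)

theorem close_55_18 : Close 18 (([5, 5] : List ℕ) : Multiset ℕ) :=
  chkClose_spec (D := 78204733325403019357790027967262452353202016739700915199789689507844027904204475840156249258508402936) (by decide +kernel)


end Pool.Agent.helper33.BE
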