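import Pool.Agent.helper33.BE.Trees

/-!
# Looking up certificates
-/

namespace Pool.Agent.helper33.BE

open Pool.Agent.helper9.SV

theorem perm_of_can {l : List ℕ} (h : Can (encL l)) (hl : l.length < 96) :
    (muD (encL l)).Perm l :=
  encL_inj h.1 (by have := h.2; omega) (by omega)

theorem SG_of_get {l : List ℕ} {D : ℕ} (h : eT.get (encL l) = some D) (hl : l.length < 96) :
    SG (l : Multiset ℕ) := by
  obtain ⟨h1, h2⟩ := fEnd_spec (Tr.get_spec eT_ok h)
  rw [← Multiset.coe_eq_coe.2 (perm_of_can h1 hl)]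
  exact h2

theorem OT_of_get {l : List ℕ} {D : ℕ} (h : oT.get (encL l) = some D) (hl : l.length < 96) :
    OT (l : Multiset ℕ) (D % 16) ((l.sum + D % 16) / 3 - 4) := by
  obtain ⟨h1, h2⟩ := fOpen_spec (Tr.get_spec oT_ok h)
  have hp := perm_of_can h1 hl
  rw [Multiset.coe_eq_coe.2 hp, hp.sum_eq] at h2
  exact h2

theorem Tile_of_get {l : List ℕ} {D : ℕ} (h : tT.get (encL l) = some D) (hl : l.length < 96) :
    Tile (l : Multiset ℕ) (l.sum / 3) := by
  obtain ⟨h1, h2⟩ := fTile_spec (Tr.get_spec tT_ok h)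
  have hp := perm_of_can h1 hl
  rw [Multiset.coe_eq_coe.2 hp, hp.sum_eq] at h2
  exact h2

end Pool.Agent.helper33.BE
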