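import Pool.Agent.helper33.BE.BR0
import Pool.Agent.helper33.BE.BR1
import Pool.Agent.helper33.BE.BR2
import Pool.Agent.helper33.BE.BR3
import Pool.Agent.helper33.BE.BR4
import Pool.Agent.helper33.BE.BR5

/-!
# All rows
-/

namespace Pool.Agent.helper33.BE

/-- codes of the exceptional tiles of a bad multiset -/
def exN (r : List ℕ) : List ℕ :=
  if r = [4] then [6291456] else
  if r = [5] then [6291456] else
  if r = [6] then [6291456] else
  if r = [4, 3] then [6291456, 1610612736] else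
  if r = [5, 3] then [6291456, 9223372036854775808] else
  if r = [4, 4] then [6291456, 1610612736] else
  if r = [8] then [6291456] else
  if r = [4, 3, 3] then [6291456] else
  if r = [5, 3, 3] then [6291456] else
  if r = [4, 4, 3] then [6291456] else
  if r = [7, 4] then [6291456] else
  if r = [7, 5] then [6291456] else
  if r = [4, 4, 3, 3] then [6291456, 1610612736] else
  if r = [5, 4, 3, 3] then [6291456] else
  if r = [7, 7, 3] then [6291456] else
  if r = [6, 4, 4, 4, 4, 4] then [1610612736] else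
  []

theorem bad_row : ∀ r ∈ badL, ∀ p ∈ Pl, encL p ∈ exN r ∨ HG 4 (encL r + encL p) := by
  intro r hr
  simp only [badL, List.mem_cons, List.not_mem_nil, or_false] at hr
  rcases hr with rfl | rfl | rfl | rfl | rfl | rfl | rfl | rfl | rfl | rfl | rfl | rfl | rfl | rfl | rfl | rfl | rfl | rfl | rfl | rfl | rfl | rfl | rfl | rfl | rfl | rfl | rfl | rfl | rfl | rfl | rfl | rfl | rfl | rfl | rfl | rfl | rfl | rfl | rfl | rfl | rfl | rfl | rfl | rfl | rfl | rfl | rfl | rfl | rfl | rfl | rfl | rfl | rfl | rfl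
  · exact rowB_spec iT _ _ Pl _ row0_ok
  · exact rowB_spec iT _ _ Pl _ row1_ok
  · exact rowB_spec iT _ _ Pl _ row2_ok
  · exact rowB_spec iT _ _ Pl _ row3_ok
  · exact rowB_spec iT _ _ Pl _ row4_ok
  · exact rowB_spec iT _ _ Pl _ row5_ok
  · exact rowB_spec iT _ _ Pl _ row6_ok
  · exact rowB_spec iT _ _ Pl _ row7_ok
  · exact rowB_spec iT _ _ Pl _ row8_ok
  · exact rowB_spec iT _ _ Pl _ row9_ok
  · exact rowB_spec iT _ _ Pl _ row10_ok
  · exact rowB_spec iT _ _ Pl _ row11_ok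
  · exact rowB_spec iT _ _ Pl _ row12_ok
  · exact rowB_spec iT _ _ Pl _ row13_ok
  · exact rowB_spec iT _ _ Pl _ row14_ok
  · exact rowB_spec iT _ _ Pl _ row15_ok
  · exact rowB_spec iT _ _ Pl _ row16_ok
  · exact rowB_spec iT _ _ Pl _ row17_ok
  · exact rowB_spec iT _ _ Pl _ row18_ok
  · exact rowB_spec iT _ _ Pl _ row19_ok
  · exact rowB_spec iT _ _ Pl _ row20_ok
  · exact rowB_spec iT _ _ Pl _ row21_ok
  · exact rowB_spec iT _ _ Pl _ row22_ok
  · exact rowB_spec iT _ _ Pl _ row23_ok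
  · exact rowB_spec iT _ _ Pl _ row24_ok
  · exact rowB_spec iT _ _ Pl _ row25_ok
  · exact rowB_spec iT _ _ Pl _ row26_ok
  · exact rowB_spec iT _ _ Pl _ row27_ok
  · exact rowB_spec iT _ _ Pl _ row28_ok
  · exact rowB_spec iT _ _ Pl _ row29_ok
  · exact rowB_spec iT _ _ Pl _ row30_ok
  · exact rowB_spec iT _ _ Pl _ row31_ok
  · exact rowB_spec iT _ _ Pl _ row32_ok
  · exact rowB_spec iT _ _ Pl _ row33_ok
  · exact rowB_spec iT _ _ Pl _ row34_ok
  · exact rowB_spec iT _ _ Pl _ row35_ok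
  · exact rowB_spec iT _ _ Pl _ row36_ok
  · exact rowB_spec iT _ _ Pl _ row37_ok
  · exact rowB_spec iT _ _ Pl _ row38_ok
  · exact rowB_spec iT _ _ Pl _ row39_ok
  · exact rowB_spec iT _ _ Pl _ row40_ok
  · exact rowB_spec iT _ _ Pl _ row41_ok
  · exact rowB_spec iT _ _ Pl _ row42_ok
  · exact rowB_spec iT _ _ Pl _ row43_ok
  · exact rowB_spec iT _ _ Pl _ row44_ok
  · exact rowB_spec iT _ _ Pl _ row45_ok
  · exact rowB_spec iT _ _ Pl _ row46_ok
  · exact rowB_spec iT _ _ Pl _ row47_ok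
  · exact rowB_spec iT _ _ Pl _ row48_ok
  · exact rowB_spec iT _ _ Pl _ row49_ok
  · exact rowB_spec iT _ _ Pl _ row50_ok
  · exact rowB_spec iT _ _ Pl _ row51_ok
  · exact rowB_spec iT _ _ Pl _ row52_ok
  · exact rowB_spec iT _ _ Pl _ row53_ok

end Pool.Agent.helper33.BE
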