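import Pool.Agent.helper33.BE.Chk

/-!
# Checkers for the bulk pieces
-/

namespace Pool.Agent.helper33.BE

open Pool.Agent.helper9.SV

/-- label codes of the bulk region -/
def labC (k : ℕ) : List ℕ :=
  List.range' 40 (k / 2 - k % 2) ++ List.range' (7 * 128 + 41) (k / 2 - k % 2) ++
    List.range' (3 * 128 + 39) (k / 2 + 2 * (k % 2)) ++
    List.range' (4 * 128 + 39) (k / 2 + 2 * (k % 2)) ++ List.range' (20 * 128 + 41 - k) k

/-- sum codes of the bulk region -/
def sumC (k : ℕ) : List ℕ :=
  List.range' (7 * 128 + 79) k ++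
    List.range' (20 * 128 + 79 + k % 2 - k / 2) (k / 2 - k % 2) ++
    List.range' (27 * 128 + 80 + k % 2 - k / 2) (k / 2 - k % 2) ++
    List.range' (23 * 128 + 81 - k / 2 - 2 * (k % 2)) (k / 2 + 2 * (k % 2)) ++
    List.range' (24 * 128 + 81 - k / 2 - 2 * (k % 2)) (k / 2 + 2 * (k % 2))

/-- label codes of the open hub number `j` -/
def omLC (j : ℕ) : List ℕ :=
  if j % 2 = 0 then
    List.range' (40 + j / 2) 1 ++ List.range' (7 * 128 + 41 + j / 2) 1 ++
      List.range' (3 * 128 + 39 + j / 2) 3 ++ List.range' (4 * 128 + 39 + j / 2) 3 ++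
      List.range' (20 * 128 + 37 - j) 4
  else
    List.range' (3 * 128 + 41 + j / 2) 1 ++ List.range' (4 * 128 + 41 + j / 2) 1 ++
      List.range' (39 + j / 2) 3 ++ List.range' (7 * 128 + 40 + j / 2) 3 ++
      List.range' (20 * 128 + 37 - j) 4

/-- sum codes of the open hub number `j` -/
def omSC (j : ℕ) : List ℕ :=
  if j % 2 = 0 then
    List.range' (7 * 128 + 79 + j) 3 ++ List.range' (27 * 128 + 79 + j / 2 - j) 1 ++
      List.range' (23 * 128 + 78 + j / 2 - j) 3 ++ List.range' (24 * 128 + 77 + j / 2 - j) 4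
  else
    List.range' (7 * 128 + 79 + j) 3 ++ List.range' (24 * 128 + 79 + j / 2 - j) 1 ++
      List.range' (20 * 128 + 78 + j / 2 - j) 3 ++ List.range' (27 * 128 + 78 + j / 2 - j) 4

/-- code of the first end of the open hub number `j` -/
def uC (j : ℕ) : ℕ := if j % 2 = 0 then 40 + j / 2 else 3 * 128 + 41 + j / 2

/-- code of the second end of the open hub number `j` -/
def vC (j : ℕ) : ℕ := if j % 2 = 0 then 3 * 128 + 40 + j / 2 else 40 + j / 2

/-- admissible label codes -/
def okL (x : ℕ) : Bool :=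
  decide (x % 128 < 64) && (x / 128 == 0 || x / 128 == 7 || x / 128 == 3 || x / 128 == 4 ||
    x / 128 == 20)

/-- admissible sum codes -/
def okS (x : ℕ) : Bool :=
  x / 128 == 7 || x / 128 == 20 || x / 128 == 27 || x / 128 == 23 || x / 128 == 24

/-- base of a label block -/
def baseL (p : Par) (g : ℕ) : ℤ :=
  if g = 0 then p.a1 else if g = 7 then p.b1 else if g = 3 then p.a2 else
  if g = 4 then p.b2 + 1 else if g = 20 then p.c else 0

/-- base of a sum block -/
def baseS (p : Par) (g : ℕ) : ℤ :=
  if g = 7 then p.a1 + p.b1 else if g = 20 then p.a1 + p.c else if g = 27 then p.b1 + p.c else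
  if g = 23 then p.a2 + p.c else if g = 24 then p.b2 + 1 + p.c else 0

/-- value of a label code -/
def decL (p : Par) (x : ℕ) : ℤ := baseL p (x / 128) + ((x % 128 : ℕ) : ℤ) - 40

/-- value of a sum code -/
def decS (p : Par) (x : ℕ) : ℤ := baseS p (x / 128) + ((x % 128 : ℕ) : ℤ) - 80

theorem dec_add {p : Par} (hp : p.Rel) (x y : ℕ) (hx : okL x = true) (hy : okL y = true)
    (hs : okS (x + y) = true) : decL p x + decL p y = decS p (x + y) := by
  unfold Par.Rel at hp
  simp only [okL, okS, Bool.and_eq_true, Bool.or_eq_true, beq_iff_eq, decide_eq_true_eq] at hx hy hs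
  have h1 : (x + y) / 128 = x / 128 + y / 128 := by omega
  have h2 : (x + y) % 128 = x % 128 + y % 128 := by omega
  unfold decL decS
  rw [h1] at hs ⊢
  rw [h2]
  push_cast
  obtain ⟨-, hx⟩ := hx
  obtain ⟨-, hy⟩ := hy
  rcases hx with (((hx | hx) | hx) | hx) | hx <;>
    rcases hy with (((hy | hy) | hy) | hy) | hy <;>
    rw [hx, hy] at hs ⊢ <;>
    simp [baseL, baseS] at hs ⊢ <;> linarith

/-! ## The code lists decode to the regions -/

theorem decL_map (p : Par) (g s n : ℕ) (h : s + n ≤ 128) :
    (((List.range' (g * 128 + s) n).map (decL p) : List ℤ) : Multiset ℤ) =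
      I (baseL p g + s - 40) (baseL p g + s - 40 + n) := by
  apply map_range'_eq_I
  intro i hi
  unfold decL
  have h1 : (g * 128 + s + i) / 128 = g := by omega
  have h2 : (g * 128 + s + i) % 128 = s + i := by omega
  rw [h1, h2]
  push_cast
  ring

theorem decS_map (p : Par) (g s n : ℕ) (h : s + n ≤ 128) :
    (((List.range' (g * 128 + s) n).map (decS p) : List ℤ) : Multiset ℤ) =
      I (baseS p g + s - 80) (baseS p g + s - 80 + n) := by
  apply map_range'_eq_I
  intro i hi
  unfold decS
  have h1 : (g * 128 + s + i) / 128 = g := by omega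
  have h2 : (g * 128 + s + i) % 128 = s + i := by omega
  rw [h1, h2]
  push_cast
  ring

theorem decL_map' (p : Par) (a g s n : ℕ) (x y : ℤ) (ha : a = g * 128 + s) (h : s + n ≤ 128)
    (hx : baseL p g + s - 40 = x) (hy : x + n = y) :
    (((List.range' a n).map (decL p) : List ℤ) : Multiset ℤ) = I x y := by
  subst ha hx hy
  exact decL_map p g s n h

theorem decS_map' (p : Par) (a g s n : ℕ) (x y : ℤ) (ha : a = g * 128 + s) (h : s + n ≤ 128)
    (hx : baseS p g + s - 80 = x) (hy : x + n = y) :
    (((List.range' a n).map (decS p) : List ℤ) : Multiset ℤ) = I x y := by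
  subst ha hx hy
  exact decS_map p g s n h

theorem labC_dec (p : Par) {k : ℕ} (h1 : k ≠ 1) (h2 : k ≤ 38) :
    (((labC k).map (decL p) : List ℤ) : Multiset ℤ) = labM p k := by
  unfold labC labM
  simp only [List.map_append, ← Multiset.coe_add]
  have hq : k % 2 ≤ k / 2 := by omega
  have e1 : ((k / 2 - k % 2 : ℕ) : ℤ) = hf k - od k := by
    unfold hf od; omega
  have e2 : ((k / 2 + 2 * (k % 2) : ℕ) : ℤ) = hf k + 2 * od k := by
    unfold hf od; omega
  rw [decL_map' p _ 0 40 _ p.a1 (p.a1 + hf k - od k) (by omega) (by omega) (by simp [baseL])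
      (by rw [e1]; ring),
    decL_map' p _ 7 41 _ (p.b1 + 1) (p.b1 + 1 + hf k - od k) (by omega) (by omega)
      (by simp [baseL]; ring) (by rw [e1]; ring),
    decL_map' p _ 3 39 _ (p.a2 - 1) (p.a2 - 1 + hf k + 2 * od k) (by omega) (by omega)
      (by simp [baseL]; ring) (by rw [e2]; ring),
    decL_map' p _ 4 39 _ p.b2 (p.b2 + hf k + 2 * od k) (by omega) (by omega)
      (by simp [baseL]; ring) (by rw [e2]; ring),
    decL_map' p _ 20 (41 - k) _ (p.c - k + 1) (p.c + 1) (by omega) (by omega)
      (by simp only [baseL]; norm_num; push_cast [Nat.cast_sub (show k ≤ 41 by omega)]; ring)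
      (by ring)]

theorem sumC_dec (p : Par) {k : ℕ} (h1 : k ≠ 1) (h2 : k ≤ 38) :
    (((sumC k).map (decS p) : List ℤ) : Multiset ℤ) = sumM p k := by
  unfold sumC sumM
  simp only [List.map_append, ← Multiset.coe_add]
  have hq : k % 2 ≤ k / 2 := by omega
  have e1 : ((k / 2 - k % 2 : ℕ) : ℤ) = hf k - od k := by
    unfold hf od; omega
  have e2 : ((k / 2 + 2 * (k % 2) : ℕ) : ℤ) = hf k + 2 * od k := by
    unfold hf od; omega
  have e3 : ((79 + k % 2 - k / 2 : ℕ) : ℤ) = 79 + od k - hf k := by
    unfold hf od; omega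
  have e4 : ((80 + k % 2 - k / 2 : ℕ) : ℤ) = 80 + od k - hf k := by
    unfold hf od; omega
  have e5 : ((81 - k / 2 - 2 * (k % 2) : ℕ) : ℤ) = 81 - hf k - 2 * od k := by
    unfold hf od; omega
  rw [decS_map' p _ 7 79 _ (p.a1 + p.b1 - 1) (p.a1 + p.b1 - 1 + k) (by omega) (by omega)
      (by simp [baseS]; ring) rfl,
    decS_map' p _ 20 (79 + k % 2 - k / 2) _ (p.a1 + p.c - 1 - hf k + od k) (p.a1 + p.c - 1)
      (by omega) (by omega) (by rw [e3]; simp [baseS]; ring) (by rw [e1]; ring),
    decS_map' p _ 27 (80 + k % 2 - k / 2) _ (p.b1 + p.c - hf k + od k) (p.b1 + p.c)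
      (by omega) (by omega) (by rw [e4]; simp [baseS]; ring) (by rw [e1]; ring),
    decS_map' p _ 23 (81 - k / 2 - 2 * (k % 2)) _ (p.a2 + p.c + 1 - hf k - 2 * od k)
      (p.a2 + p.c + 1)
      (by omega) (by omega) (by rw [e5]; simp [baseS]; ring) (by rw [e2]; ring),
    decS_map' p _ 24 (81 - k / 2 - 2 * (k % 2)) _ (p.b2 + p.c + 2 - hf k - 2 * od k)
      (p.b2 + p.c + 2)
      (by omega) (by omega) (by rw [e5]; simp [baseS]; ring) (by rw [e2]; ring)]

theorem uC_dec (p : Par) {j : ℕ} (h : j ≤ 34) : decL p (uC j) = (adv p j).a1 := by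
  unfold uC adv decL
  by_cases hj : j % 2 = 0
  · rw [if_pos hj, if_pos hj]
    have e1 : (40 + j / 2) / 128 = 0 := by omega
    have e2 : (40 + j / 2) % 128 = 40 + j / 2 := by omega
    rw [e1, e2]
    simp only [baseL, hf]
    push_cast
    ring
  · rw [if_neg hj, if_neg hj]
    have e1 : (3 * 128 + 41 + j / 2) / 128 = 3 := by omega
    have e2 : (3 * 128 + 41 + j / 2) % 128 = 41 + j / 2 := by omega
    rw [e1, e2]
    simp only [baseL, hf]
    norm_num
    ring

theorem vC_dec (p : Par) {j : ℕ} (h : j ≤ 34) : decL p (vC j) = (adv p j).a2 := by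
  unfold vC adv decL
  by_cases hj : j % 2 = 0
  · rw [if_pos hj, if_pos hj]
    have e1 : (3 * 128 + 40 + j / 2) / 128 = 3 := by omega
    have e2 : (3 * 128 + 40 + j / 2) % 128 = 40 + j / 2 := by omega
    rw [e1, e2]
    simp only [baseL, hf]
    norm_num
    ring
  · rw [if_neg hj, if_neg hj]
    have e1 : (40 + j / 2) / 128 = 0 := by omega
    have e2 : (40 + j / 2) % 128 = 40 + j / 2 := by omega
    rw [e1, e2]
    simp only [baseL, hf]
    norm_num
    ring

theorem omLC_dec (p : Par) {j : ℕ} (h : j ≤ 34) :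
    (((omLC j).map (decL p) : List ℤ) : Multiset ℤ) = OmL (adv p j) := by
  unfold omLC OmL adv
  by_cases hj : j % 2 = 0
  · rw [if_pos hj, if_pos hj]
    simp only [List.map_append, ← Multiset.coe_add]
    have e : ((j / 2 : ℕ) : ℤ) = hf j := rfl
    rw [decL_map' p _ 0 (40 + j / 2) _ (p.a1 + hf j) (p.a1 + hf j + 1) (by omega) (by omega)
        (by simp only [baseL]; push_cast [← e]; ring) (by push_cast; ring),
      decL_map' p _ 7 (41 + j / 2) _ (p.b1 + hf j + 1) (p.b1 + hf j + 2) (by omega) (by omega)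
        (by simp only [baseL]; norm_num; push_cast [← e]; ring) (by push_cast; ring),
      decL_map' p _ 3 (39 + j / 2) _ (p.a2 + hf j - 1) (p.a2 + hf j + 2) (by omega) (by omega)
        (by simp only [baseL]; norm_num; push_cast [← e]; ring) (by push_cast; ring),
      decL_map' p _ 4 (39 + j / 2) _ (p.b2 + hf j) (p.b2 + hf j + 3) (by omega) (by omega)
        (by simp only [baseL]; norm_num; push_cast [← e]; ring) (by push_cast; ring),
      decL_map' p _ 20 (37 - j) _ (p.c - j - 3) (p.c - j + 1) (by omega) (by omega)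
        (by simp only [baseL]; norm_num; push_cast [Nat.cast_sub (show j ≤ 37 by omega)]; ring)
        (by push_cast; ring)]
  · rw [if_neg hj, if_neg hj]
    simp only [List.map_append, ← Multiset.coe_add]
    have e : ((j / 2 : ℕ) : ℤ) = hf j := rfl
    rw [decL_map' p _ 3 (41 + j / 2) _ (p.a2 + hf j + 1) (p.a2 + hf j + 1 + 1) (by omega)
        (by omega)
        (by simp only [baseL]; norm_num; push_cast [← e]; ring) (by push_cast; ring),
      decL_map' p _ 4 (41 + j / 2) _ (p.b2 + hf j + 1 + 1) (p.b2 + hf j + 1 + 2) (by omega)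
        (by omega)
        (by simp only [baseL]; norm_num; push_cast [← e]; ring) (by push_cast; ring),
      decL_map' p _ 0 (39 + j / 2) _ (p.a1 + hf j - 1) (p.a1 + hf j + 2) (by omega) (by omega)
        (by simp only [baseL]; norm_num; push_cast [← e]; ring) (by push_cast; ring),
      decL_map' p _ 7 (40 + j / 2) _ (p.b1 + hf j) (p.b1 + hf j + 3) (by omega) (by omega)
        (by simp only [baseL]; norm_num; push_cast [← e]; ring) (by push_cast; ring),
      decL_map' p _ 20 (37 - j) _ (p.c - j - 3) (p.c - j + 1) (by omega) (by omega)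
        (by simp only [baseL]; norm_num; push_cast [Nat.cast_sub (show j ≤ 37 by omega)]; ring)
        (by push_cast; ring)]

theorem omSC_dec {p : Par} (hp : p.Rel) {j : ℕ} (h : j ≤ 34) :
    (((omSC j).map (decS p) : List ℤ) : Multiset ℤ) = OmS (adv p j) := by
  unfold Par.Rel at hp
  have hb : p.b2 = p.a1 + p.b1 - p.a2 - 1 := by linarith
  unfold omSC OmS adv
  have ej : (j : ℤ) = 2 * hf j + od j := by
    unfold hf od; omega
  have e : ((j / 2 : ℕ) : ℤ) = hf j := rfl
  by_cases hj : j % 2 = 0
  · have eo : od j = 0 := by unfold od; omega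
    rw [eo] at ej
    have e7 : ((79 + j / 2 - j : ℕ) : ℤ) = 79 - hf j := by unfold hf; omega
    have e8 : ((78 + j / 2 - j : ℕ) : ℤ) = 78 - hf j := by unfold hf; omega
    have e9 : ((77 + j / 2 - j : ℕ) : ℤ) = 77 - hf j := by unfold hf; omega
    rw [if_pos hj, if_pos hj]
    simp only [List.map_append, ← Multiset.coe_add]
    rw [decS_map' p _ 7 (79 + j) _ (p.a1 + hf j + (p.b1 + hf j) - 1)
        (p.a1 + hf j + (p.b1 + hf j) + 2) (by omega) (by omega)
        (by simp only [baseS]; norm_num; rw [ej]; ring) (by push_cast; ring),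
      decS_map' p _ 27 (79 + j / 2 - j) _ (p.b1 + hf j + (p.c - j) - 1)
        (p.b1 + hf j + (p.c - j)) (by omega) (by omega)
        (by rw [e7]; simp only [baseS]; norm_num; rw [ej]; ring) (by push_cast; ring),
      decS_map' p _ 23 (78 + j / 2 - j) _ (p.a2 + hf j + (p.c - j) - 2)
        (p.a2 + hf j + (p.c - j) + 1) (by omega) (by omega)
        (by rw [e8]; simp only [baseS]; norm_num; rw [ej]; ring) (by push_cast; ring),
      decS_map' p _ 24 (77 + j / 2 - j) _ (p.b2 + hf j + (p.c - j) - 2)
        (p.b2 + hf j + (p.c - j) + 2) (by omega) (by omega)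
        (by rw [e9]; simp only [baseS]; norm_num; rw [ej]; ring) (by push_cast; ring)]
  · have eo : od j = 1 := by unfold od; omega
    rw [eo] at ej
    have e7 : ((79 + j / 2 - j : ℕ) : ℤ) = 78 - hf j := by unfold hf; omega
    have e8 : ((78 + j / 2 - j : ℕ) : ℤ) = 77 - hf j := by unfold hf; omega
    rw [if_neg hj, if_neg hj]
    simp only [List.map_append, ← Multiset.coe_add]
    rw [decS_map' p _ 7 (79 + j) _ (p.a2 + hf j + 1 + (p.b2 + hf j + 1) - 1)
        (p.a2 + hf j + 1 + (p.b2 + hf j + 1) + 2) (by omega) (by omega)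
        (by simp only [baseS]; norm_num; rw [ej, hb]; ring) (by push_cast; ring),
      decS_map' p _ 24 (79 + j / 2 - j) _ (p.b2 + hf j + 1 + (p.c - j) - 1)
        (p.b2 + hf j + 1 + (p.c - j)) (by omega) (by omega)
        (by rw [e7]; simp only [baseS]; norm_num; rw [ej]; ring) (by push_cast; ring),
      decS_map' p _ 20 (78 + j / 2 - j) _ (p.a1 + hf j + (p.c - j) - 2)
        (p.a1 + hf j + (p.c - j) + 1) (by omega) (by omega)
        (by rw [e8]; simp only [baseS]; norm_num; rw [ej]; ring) (by push_cast; ring),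
      decS_map' p _ 27 (78 + j / 2 - j) _ (p.b1 + hf j + (p.c - j) - 2)
        (p.b1 + hf j + (p.c - j) + 2) (by omega) (by omega)
        (by rw [e8]; simp only [baseS]; norm_num; rw [ej]; ring) (by push_cast; ring)]

/-! ## Fast codes of the code lists -/

/-- `encL (labC k)` -/
def labN (k : ℕ) : ℕ :=
  Nat.add (encI 40 (Nat.sub (Nat.div k 2) (Nat.mod k 2)))
    (Nat.add (encI 937 (Nat.sub (Nat.div k 2) (Nat.mod k 2)))
      (Nat.add (encI 423 (Nat.add (Nat.div k 2) (Nat.mul 2 (Nat.mod k 2))))
        (Nat.add (encI 551 (Nat.add (Nat.div k 2) (Nat.mul 2 (Nat.mod k 2))))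
          (encI (Nat.sub 2601 k) k))))

theorem labN_eq (k : ℕ) : encL (labC k) = labN k := by
  unfold labC labN
  simp only [encL_append, encL_range', Nat.reduceMul, Nat.reduceAdd, add_assoc]
  rfl

/-- `encL (sumC k)` -/
def sumN (k : ℕ) : ℕ :=
  Nat.add (encI 975 k)
    (Nat.add (encI (Nat.sub (Nat.add 2639 (Nat.mod k 2)) (Nat.div k 2))
        (Nat.sub (Nat.div k 2) (Nat.mod k 2)))
      (Nat.add (encI (Nat.sub (Nat.add 3536 (Nat.mod k 2)) (Nat.div k 2))
          (Nat.sub (Nat.div k 2) (Nat.mod k 2)))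
        (Nat.add (encI (Nat.sub (Nat.sub 3025 (Nat.div k 2)) (Nat.mul 2 (Nat.mod k 2)))
            (Nat.add (Nat.div k 2) (Nat.mul 2 (Nat.mod k 2))))
          (encI (Nat.sub (Nat.sub 3153 (Nat.div k 2)) (Nat.mul 2 (Nat.mod k 2)))
            (Nat.add (Nat.div k 2) (Nat.mul 2 (Nat.mod k 2)))))))

theorem sumN_eq (k : ℕ) : encL (sumC k) = sumN k := by
  unfold sumC sumN
  simp only [encL_append, encL_range', Nat.reduceMul, Nat.reduceAdd, add_assoc]
  rfl

theorem labC_length {k : ℕ} (h : k ≠ 1) : (labC k).length = 3 * k := by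
  unfold labC
  simp only [List.length_append, List.length_range']
  omega

theorem sumC_length {k : ℕ} (h : k ≠ 1) : (sumC k).length = 3 * k := by
  unfold sumC
  simp only [List.length_append, List.length_range']
  omega

theorem omLC_length (j : ℕ) : (omLC j).length = 12 := by
  unfold omLC
  split_ifs <;> simp

theorem omSC_length (j : ℕ) : (omSC j).length = 11 := by
  unfold omSC
  split_ifs <;> simp

theorem labC_ok {k : ℕ} (h2 : k ≤ 38) : ∀ x ∈ labC k, okL x = true := by
  intro x hx
  unfold labC at hx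
  simp only [List.mem_append, List.mem_range'_1] at hx
  simp only [okL, Bool.and_eq_true, Bool.or_eq_true, beq_iff_eq, decide_eq_true_eq]
  omega

theorem sumC_ok {k : ℕ} (h2 : k ≤ 38) : ∀ x ∈ sumC k, okS x = true := by
  intro x hx
  unfold sumC at hx
  simp only [List.mem_append, List.mem_range'_1] at hx
  simp only [okS, Bool.or_eq_true, beq_iff_eq]
  omega

theorem omLC_ok {j : ℕ} (h : j ≤ 34) : ∀ x ∈ omLC j, okL x = true := by
  intro x hx
  unfold omLC at hx
  simp only [okL, Bool.and_eq_true, Bool.or_eq_true, beq_iff_eq, decide_eq_true_eq]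
  split_ifs at hx
  · simp only [List.mem_append, List.mem_range'_1] at hx
    omega
  · simp only [List.mem_append, List.mem_range'_1] at hx
    omega

theorem omSC_ok {j : ℕ} (h : j ≤ 34) : ∀ x ∈ omSC j, okS x = true := by
  intro x hx
  unfold omSC at hx
  simp only [okS, Bool.or_eq_true, beq_iff_eq]
  split_ifs at hx
  · simp only [List.mem_append, List.mem_range'_1] at hx
    omega
  · simp only [List.mem_append, List.mem_range'_1] at hx
    omega

theorem uC_ok {j : ℕ} (h : j ≤ 34) : okL (uC j) = true := by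
  unfold uC
  split_ifs <;>
    (simp only [okL, Bool.and_eq_true, Bool.or_eq_true, beq_iff_eq, decide_eq_true_eq]; omega)

theorem vC_ok {j : ℕ} (h : j ≤ 34) : okL (vC j) = true := by
  unfold vC
  split_ifs <;>
    (simp only [okL, Bool.and_eq_true, Bool.or_eq_true, beq_iff_eq, decide_eq_true_eq]; omega)

/-! ## The checkers -/

/-- the check for a closed bulk piece: `D` contains the label codes in base 4096 -/
noncomputable def chkTile (mu : List ℕ) (D : ℕ) : Bool :=
  Bool.and (Nat.beq (Nat.mul 3 (Nat.div (sumR mu) 3)) (sumR mu))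
    (Bool.and (Nat.ble 2 (Nat.div (sumR mu) 3)) (Bool.and (Nat.ble (Nat.div (sumR mu) 3) 38)
      (Bool.and (Nat.beq (goL mu D) (labN (Nat.div (sumR mu) 3)))
        (Nat.beq (goS mu D) (sumN (Nat.div (sumR mu) 3))))))

theorem chkTile_spec {mu : List ℕ} {D : ℕ} (h : chkTile mu D = true) :
    Tile (mu : Multiset ℕ) (mu.sum / 3) := by
  simp only [chkTile, Bool.and_eq_true, Nat.beq_eq, Nat.ble_eq, sumR_eq, goL_spec, goS_spec] at h
  have h' : 3 * (mu.sum / 3) = mu.sum ∧ 2 ≤ mu.sum / 3 ∧ mu.sum / 3 ≤ 38 ∧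
    encL (dgs mu D).flatten = labN (mu.sum / 3) ∧
    encL ((dgs mu D).map cycN).flatten = sumN (mu.sum / 3) := h
  obtain ⟨h1, h2, h3, h4, h5⟩ := h'
  rw [← labN_eq] at h4
  rw [← sumN_eq] at h5
  have p1 := encL_inj h4 (by rw [flatten_length_dgs]; omega)
    (by rw [labC_length (by omega)]; omega)
  have p2 := encL_inj h5 (by rw [sums_length_dgs]; omega)
    (by rw [sumC_length (by omega)]; omega)
  refine ⟨h2, by rw [Multiset.sum_coe]; exact h1.symm, fun p hp => ?_⟩
  refine ⟨(dgs mu D).map (List.map (decL p)), ?_, ?_, ?_⟩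
  · rw [length_map_map, dgs_lengths]
  · rw [flatten_map_map, ← labC_dec p (by omega) h3, ← Multiset.map_coe, ← Multiset.map_coe,
      Multiset.coe_eq_coe.2 p1]
  · rw [cyc_map_flat (decL p) (decS p) okL okS (dec_add hp) _ (all_of_perm p1 (labC_ok h3))
      (all_of_perm p2 (sumC_ok h3)),
      ← sumC_dec p (by omega) h3, ← Multiset.map_coe, ← Multiset.map_coe,
      Multiset.coe_eq_coe.2 p2]

/-- the check for an open piece: `D = b + 16 * codes` -/
noncomputable def chkOpen (mu : List ℕ) (D : ℕ) : Bool :=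
  let b := D % 16
  let n := sumR mu
  let k := (n + b) / 3
  let q := k - 4
  let w := dg b (Nat.shiftRight (D / 16) (Nat.mul 12 n))
  (3 * k == n + b) && (decide (4 ≤ k) && ((k != 5) && (decide (k ≤ 38) &&
    (decide (1 ≤ b) && ((w.head? == some (uC q)) && ((w.getLast? == some (vC q)) &&
    ((goL mu (D / 16) + encL w == labN q + encL (omLC q)) &&
      (goS mu (D / 16) + paE w == sumN q + encL (omSC q)))))))))

theorem chkOpen_spec {mu : List ℕ} {D : ℕ} (h : chkOpen mu D = true) :
    OT (mu : Multiset ℕ) (D % 16) ((mu.sum + D % 16) / 3 - 4) := by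
  simp only [chkOpen, Bool.and_eq_true, beq_iff_eq, decide_eq_true_eq, bne_iff_ne, sumR_eq,
    goL_spec, goS_spec, paE_spec] at h
  set b := D % 16 with hb
  set q := (mu.sum + b) / 3 - 4 with hq
  set cs := dgs mu (D / 16) with hcs
  set w := dg b (Nat.shiftRight (D / 16) (Nat.mul 12 mu.sum)) with hw
  obtain ⟨h1, h2, h3, h4, h5, h8, h9, h12, h13⟩ := h
  rw [← labN_eq, ← encL_append, ← encL_append] at h12
  rw [← sumN_eq, ← encL_append, ← encL_append] at h13
  have hwl : w.length = b := dg_length _ _
  have p1 := encL_inj h12 (by rw [List.length_append, flatten_length_dgs, hwl]; omega)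
    (by rw [List.length_append, labC_length (by omega), omLC_length]; omega)
  have p2 := encL_inj h13
    (by rw [List.length_append, sums_length_dgs, pathN_length, hwl]; omega)
    (by rw [List.length_append, sumC_length (by omega), omSC_length]; omega)
  have a1 := all_of_perm p1 (fun x hx => (List.mem_append.1 hx).elim
    (labC_ok (by omega) x) (omLC_ok (by omega) x))
  have a2 := all_of_perm p2 (fun x hx => (List.mem_append.1 hx).elim
    (sumC_ok (by omega) x) (omSC_ok (by omega) x))
  rw [List.all_append, Bool.and_eq_true] at a1 a2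
  refine ⟨by omega, h5, by rw [Multiset.sum_coe]; omega, fun p hp => ?_⟩
  refine ⟨cs.map (List.map (decL p)), w.map (decL p), ?_, ?_, ?_, ?_, ?_, ?_⟩
  · rw [length_map_map, dgs_lengths]
  · rw [List.length_map, hwl]
  · rw [List.head?_map, h8, Option.map_some, uC_dec p (by omega)]
  · rw [List.getLast?_map, h9, Option.map_some, vC_dec p (by omega)]
  · rw [flatten_map_map, Multiset.coe_add, ← List.map_append, ← labC_dec p (by omega) (by omega),
      ← omLC_dec p (by omega), Multiset.coe_add, ← List.map_append, ← Multiset.map_coe,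
      ← Multiset.map_coe, Multiset.coe_eq_coe.2 p1]
  · rw [cyc_map_flat (decL p) (decS p) okL okS (dec_add hp) cs a1.1 a2.1,
      path_map (decL p) (decS p) okL okS (dec_add hp) w a1.2 a2.2, Multiset.coe_add,
      ← List.map_append, ← sumC_dec p (by omega) (by omega), ← omSC_dec hp (by omega),
      Multiset.coe_add, ← List.map_append, ← Multiset.map_coe, ← Multiset.map_coe,
      Multiset.coe_eq_coe.2 p2]

/-- check of a pump -/
noncomputable def chkPump (j : ℕ) (U V : List ℕ) : Bool :=
  decide (2 ≤ j) && (decide (j ≤ 34) && ((U.length + V.length == 3 * j) &&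
    ((encL (omLC 0 ++ (U ++ V)) == encL (labC j ++ omLC j)) &&
    ((encL (omSC 0 ++ (pathN (uC 0 :: U) ++ pathN (vC 0 :: V))) == encL (sumC j ++ omSC j)) &&
    (((uC 0 :: U).getLast? == some (uC j) && (vC 0 :: V).getLast? == some (vC j)) ||
      ((uC 0 :: U).getLast? == some (vC j) && (vC 0 :: V).getLast? == some (uC j)))))))

theorem adv_zero' (p : Par) : adv p 0 = p := by
  unfold adv hf
  simp

theorem chkPump_spec {j : ℕ} {U V : List ℕ} (h : chkPump j U V = true) : Pump j := by
  simp only [chkPump, Bool.and_eq_true, beq_iff_eq, decide_eq_true_eq, Bool.or_eq_true] at h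
  obtain ⟨h1, h2, h3, h7, h8, h9⟩ := h
  have p1 : (omLC 0 ++ (U ++ V)).Perm (labC j ++ omLC j) := encL_inj h7
    (by simp only [List.length_append, omLC_length]; omega)
    (by rw [List.length_append, labC_length (by omega), omLC_length]; omega)
  have p2 : (omSC 0 ++ (pathN (uC 0 :: U) ++ pathN (vC 0 :: V))).Perm (sumC j ++ omSC j) :=
    encL_inj h8
    (by simp only [List.length_append, omSC_length, pathN_length, List.length_cons]; omega)
    (by rw [List.length_append, sumC_length (by omega), omSC_length]; omega)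
  have a1 := all_of_perm p1 (fun x hx => (List.mem_append.1 hx).elim
    (labC_ok (by omega) x) (omLC_ok (by omega) x))
  have a2 := all_of_perm p2 (fun x hx => (List.mem_append.1 hx).elim
    (sumC_ok (by omega) x) (omSC_ok (by omega) x))
  simp only [List.all_append, Bool.and_eq_true] at a1 a2
  have h4 : (uC 0 :: U).all okL = true := by
    rw [List.all_cons, Bool.and_eq_true]; exact ⟨uC_ok (by omega), a1.2.1⟩
  have h5 : (vC 0 :: V).all okL = true := by
    rw [List.all_cons, Bool.and_eq_true]; exact ⟨vC_ok (by omega), a1.2.2⟩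
  refine ⟨h1, fun p hp => ⟨U.map (decL p), V.map (decL p), by simpa using h3, ?_, ?_, ?_⟩⟩
  · have e := congrArg (Multiset.map (decL p)) (Multiset.coe_eq_coe.2 p1)
    simp only [← Multiset.coe_add, Multiset.map_add, Multiset.map_coe] at e
    rw [omLC_dec p (by omega), adv_zero', labC_dec p (by omega) (by omega),
      omLC_dec p h2] at e
    exact e
  · have hu : p.a1 :: U.map (decL p) = (uC 0 :: U).map (decL p) := by
      rw [List.map_cons, uC_dec p (by omega), adv_zero']
    have hv : p.a2 :: V.map (decL p) = (vC 0 :: V).map (decL p) := by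
      rw [List.map_cons, vC_dec p (by omega), adv_zero']
    have e := congrArg (Multiset.map (decS p)) (Multiset.coe_eq_coe.2 p2)
    simp only [← Multiset.coe_add, Multiset.map_add, Multiset.map_coe] at e
    rw [omSC_dec hp (by omega), adv_zero', sumC_dec p (by omega) (by omega),
      omSC_dec hp h2] at e
    rw [hu, hv, path_map (decL p) (decS p) okL okS (dec_add hp) _ h4 a2.2.1,
      path_map (decL p) (decS p) okL okS (dec_add hp) _ h5 a2.2.2]
    exact e
  · have hu : p.a1 :: U.map (decL p) = (uC 0 :: U).map (decL p) := by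
      rw [List.map_cons, uC_dec p (by omega), adv_zero']
    have hv : p.a2 :: V.map (decL p) = (vC 0 :: V).map (decL p) := by
      rw [List.map_cons, vC_dec p (by omega), adv_zero']
    rw [hu, hv, List.getLast?_map, List.getLast?_map]
    rcases h9 with ⟨h9, h10⟩ | ⟨h9, h10⟩
    · left
      rw [h9, h10, Option.map_some, Option.map_some, uC_dec p h2, vC_dec p h2]
      exact ⟨rfl, rfl⟩
    · right
      rw [h9, h10, Option.map_some, Option.map_some, uC_dec p h2, vC_dec p h2]
      exact ⟨rfl, rfl⟩

/-- check of an exchange -/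
noncomputable def chkExch (a b : ℕ) (Z W : List ℕ) : Bool :=
  (3 * ((a + b) / 3) == a + b) && (decide (2 ≤ (a + b) / 3) && (decide ((a + b) / 3 ≤ 34) &&
    (decide (1 ≤ b) && ((Z.length == a) && ((W.length == b) &&
    ((W.head? == some (uC ((a + b) / 3))) && ((W.getLast? == some (vC ((a + b) / 3))) &&
    ((encL (omLC 0 ++ (Z ++ W)) == encL (labC ((a + b) / 3) ++ omLC ((a + b) / 3))) &&
    (encL (omSC 0 ++ (pathN (vC 0 :: Z ++ [uC 0]) ++ pathN W)) ==
      encL (sumC ((a + b) / 3) ++ omSC ((a + b) / 3)))))))))))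

theorem chkExch_spec {a b : ℕ} {Z W : List ℕ} (h : chkExch a b Z W = true) :
    Exch a b ((a + b) / 3) := by
  simp only [chkExch, Bool.and_eq_true, beq_iff_eq, decide_eq_true_eq] at h
  obtain ⟨h1, h2, h3, h4, h5, h6, h7, h8, h12, h13⟩ := h
  set k := (a + b) / 3 with hk
  have p1 : (omLC 0 ++ (Z ++ W)).Perm (labC k ++ omLC k) := encL_inj h12
    (by simp only [List.length_append, omLC_length]; omega)
    (by rw [List.length_append, labC_length (by omega), omLC_length]; omega)
  have p2 : (omSC 0 ++ (pathN (vC 0 :: Z ++ [uC 0]) ++ pathN W)).Perm (sumC k ++ omSC k) :=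
    encL_inj h13
    (by simp only [List.length_append, omSC_length, pathN_length, List.length_cons,
          List.length_nil]; omega)
    (by rw [List.length_append, sumC_length (by omega), omSC_length]; omega)
  have a1 := all_of_perm p1 (fun x hx => (List.mem_append.1 hx).elim
    (labC_ok (by omega) x) (omLC_ok (by omega) x))
  have a2 := all_of_perm p2 (fun x hx => (List.mem_append.1 hx).elim
    (sumC_ok (by omega) x) (omSC_ok (by omega) x))
  rw [List.all_append, List.all_append, Bool.and_eq_true, Bool.and_eq_true] at a1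
  rw [List.all_append, List.all_append, Bool.and_eq_true, Bool.and_eq_true] at a2
  have h9 : (vC 0 :: Z ++ [uC 0]).all okL = true := by
    rw [List.all_append, List.all_cons, Bool.and_eq_true, Bool.and_eq_true, List.all_cons,
      List.all_nil, Bool.and_true]
    exact ⟨⟨vC_ok (by omega), a1.2.1⟩, uC_ok (by omega)⟩
  refine ⟨h2, h4, h1.symm, fun p hp => ⟨Z.map (decL p), W.map (decL p), by simpa using h5,
    by simpa using h6, ?_, ?_, ?_, ?_⟩⟩
  · rw [List.head?_map, h7, Option.map_some, uC_dec p (by omega)]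
  · rw [List.getLast?_map, h8, Option.map_some, vC_dec p (by omega)]
  · have e := congrArg (Multiset.map (decL p)) (Multiset.coe_eq_coe.2 p1)
    simp only [← Multiset.coe_add, Multiset.map_add, Multiset.map_coe] at e
    rw [omLC_dec p (by omega), adv_zero', labC_dec p (by omega) (by omega),
      omLC_dec p (by omega)] at e
    exact e
  · have hz : p.a2 :: Z.map (decL p) ++ [p.a1] = (vC 0 :: Z ++ [uC 0]).map (decL p) := by
      rw [List.map_append, List.map_cons, vC_dec p (by omega), adv_zero', List.map_singleton,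
        uC_dec p (by omega), adv_zero']
    have e := congrArg (Multiset.map (decS p)) (Multiset.coe_eq_coe.2 p2)
    simp only [← Multiset.coe_add, Multiset.map_add, Multiset.map_coe] at e
    rw [omSC_dec hp (by omega), adv_zero', sumC_dec p (by omega) (by omega),
      omSC_dec hp (by omega)] at e
    rw [hz, path_map (decL p) (decS p) okL okS (dec_add hp) _ h9 a2.2.1,
      path_map (decL p) (decS p) okL okS (dec_add hp) _ a1.2.2 a2.2.2]
    exact e

end Pool.Agent.helper33.BE
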