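import Pool.Agent.helper33.BE.Defs

/-!
# Kernel-checkable certificates: generic part

The functions evaluated by the kernel are written with recursors and the primitive operations
on natural numbers.
-/

namespace Pool.Agent.helper33.BE

open Pool.Agent.helper9.SV

/-! ## Multisets of naturals as numbers: `encL l = ∑ 128 ^ x` -/

/-- `128 ^ x` -/
def pw (x : ℕ) : ℕ := Nat.shiftLeft 1 (Nat.mul 7 x)

theorem pw_eq (x : ℕ) : pw x = 128 ^ x := by
  unfold pw
  change 1 <<< (7 * x) = 128 ^ x
  rw [Nat.one_shiftLeft, pow_mul]
  norm_num

/-- the code of a multiset -/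
noncomputable def encL (l : List ℕ) : ℕ := List.rec 0 (fun x _ ih => Nat.add (pw x) ih) l

theorem encL_nil : encL [] = 0 := rfl

theorem encL_cons (x : ℕ) (l : List ℕ) : encL (x :: l) = 128 ^ x + encL l := by
  rw [← pw_eq]; rfl

theorem encL_append (l l' : List ℕ) : encL (l ++ l') = encL l + encL l' := by
  induction l with
  | nil => simp [encL_nil]
  | cons x l ih => rw [List.cons_append, encL_cons, encL_cons, ih, add_assoc]

theorem encL_eq_sum (n : ℕ) : ∀ l : List ℕ, (∀ x ∈ l, x < n) →
    encL l = ∑ i ∈ Finset.range n, l.count i * 128 ^ i := by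
  intro l
  induction l with
  | nil => intro _; simp [encL_nil]
  | cons x l ih =>
    intro h
    rw [encL_cons, ih (fun y hy => h y (List.mem_cons_of_mem _ hy))]
    have hx : x < n := h x List.mem_cons_self
    have : ∀ i ∈ Finset.range n, (x :: l).count i * 128 ^ i =
        (if i = x then 128 ^ x else 0) + l.count i * 128 ^ i := by
      intro i _
      rw [List.count_cons]
      by_cases hi : i = x
      · subst hi; simp; ring
      · have : (x == i) = false := by simpa using fun h => hi h.symm
        simp [hi, this]
    rw [Finset.sum_congr rfl this, Finset.sum_add_distrib, Finset.sum_ite_eq' (Finset.range n) x,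
      if_pos (Finset.mem_range.2 hx)]

theorem digits_unique : ∀ (n : ℕ) (f g : ℕ → ℕ), (∀ i, f i < 128) → (∀ i, g i < 128) →
    ∑ i ∈ Finset.range n, f i * 128 ^ i = ∑ i ∈ Finset.range n, g i * 128 ^ i →
    ∀ i < n, f i = g i := by
  intro n
  induction n with
  | zero => intro f g _ _ _ i hi; exact absurd hi (by omega)
  | succ n ih =>
    intro f g hf hg h i hi
    rw [Finset.sum_range_succ', Finset.sum_range_succ'] at h
    have e : ∀ u : ℕ → ℕ, ∑ i ∈ Finset.range n, u (i + 1) * 128 ^ (i + 1) =
        128 * ∑ i ∈ Finset.range n, u (i + 1) * 128 ^ i := by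
      intro u
      rw [Finset.mul_sum]
      refine Finset.sum_congr rfl fun j _ => ?_
      rw [pow_succ]; ring
    rw [e, e, pow_zero, mul_one, mul_one] at h
    have h0 := hf 0
    have h0' := hg 0
    have h00 : f 0 = g 0 := by omega
    have hs : ∑ i ∈ Finset.range n, f (i + 1) * 128 ^ i =
        ∑ i ∈ Finset.range n, g (i + 1) * 128 ^ i := by omega
    cases i with
    | zero => exact h00
    | succ i =>
      exact ih (fun i => f (i + 1)) (fun i => g (i + 1)) (fun i => hf _) (fun i => hg _) hs i
        (by omega)

theorem encL_inj {l l' : List ℕ} (h : encL l = encL l') (h1 : l.length < 128)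
    (h2 : l'.length < 128) : l.Perm l' := by
  obtain ⟨n, hn⟩ : ∃ n, ∀ x ∈ l ++ l', x < n := by
    refine ⟨(l ++ l').sum + 1, fun x hx => ?_⟩
    have := List.single_le_sum (l := l ++ l') (fun _ _ => Nat.zero_le _) x hx
    omega
  rw [encL_eq_sum n l (fun x hx => hn x (List.mem_append_left _ hx)),
    encL_eq_sum n l' (fun x hx => hn x (List.mem_append_right _ hx))] at h
  rw [List.perm_iff_count]
  intro a
  by_cases ha : a < n
  · exact digits_unique n (fun i => l.count i) (fun i => l'.count i)
      (fun i => lt_of_le_of_lt List.count_le_length h1)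
      (fun i => lt_of_le_of_lt List.count_le_length h2) h a ha
  · rw [List.count_eq_zero_of_not_mem (fun hh => ha (hn a (List.mem_append_left _ hh))),
      List.count_eq_zero_of_not_mem (fun hh => ha (hn a (List.mem_append_right _ hh)))]

/-- the code of an interval -/
def encI (a n : ℕ) : ℕ := Nat.div (Nat.sub (pw (Nat.add a n)) (pw a)) 127

theorem encL_range' (a n : ℕ) : encL (List.range' a n) = encI a n := by
  have key : ∀ n a : ℕ, 127 * encL (List.range' a n) + 128 ^ a = 128 ^ (a + n) := by
    intro n
    induction n with
    | zero => intro a; simp [encL_nil]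
    | succ n ih =>
      intro a
      rw [List.range'_succ, encL_cons, ← Nat.add_assoc, Nat.add_right_comm, ← ih (a + 1),
        pow_succ]
      ring
  have := key n a
  unfold encI
  rw [pw_eq, pw_eq]
  change _ = (128 ^ (a + n) - 128 ^ a) / 127
  omega

/-! ## Decoding -/

/-- the `n` lowest digits in base 4096 -/
noncomputable def dg (n : ℕ) : ℕ → List ℕ :=
  Nat.rec (fun _ => []) (fun _ ih D => List.cons (Nat.mod D 4096) (ih (Nat.div D 4096))) n

theorem dg_zero (D : ℕ) : dg 0 D = [] := rfl

theorem dg_succ (n D : ℕ) : dg (n + 1) D = (D % 4096) :: dg n (D / 4096) := rfl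

theorem dg_length (n : ℕ) : ∀ D, (dg n D).length = n := by
  induction n with
  | zero => intro D; rfl
  | succ n ih => intro D; rw [dg_succ, List.length_cons, ih]

/-- split the digits of `D` into pieces with given lengths -/
noncomputable def dgs (mu : List ℕ) : ℕ → List (List ℕ) :=
  List.rec (fun _ => []) (fun n _ ih D => List.cons (dg n D) (ih (Nat.shiftRight D (Nat.mul 12 n))))
    mu

theorem dgs_cons (n : ℕ) (mu : List ℕ) (D : ℕ) :
    dgs (n :: mu) D = dg n D :: dgs mu (Nat.shiftRight D (Nat.mul 12 n)) := rfl

theorem dgs_lengths (mu : List ℕ) : ∀ D, (dgs mu D).map List.length = mu := by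
  induction mu with
  | nil => intro D; rfl
  | cons n mu ih => intro D; rw [dgs_cons, List.map_cons, dg_length, ih]

/-- cyclic sums -/
def cycN : List ℕ → List ℕ
  | [] => []
  | x :: l => List.zipWith (· + ·) (x :: l) (l ++ [x])

/-- path sums -/
def pathN : List ℕ → List ℕ
  | [] => []
  | [_] => []
  | x :: y :: l => (x + y) :: pathN (y :: l)

/-- code of the path sums and the last sum of a cycle -/
noncomputable def encC (f : ℕ) (l : List ℕ) : ℕ → ℕ :=
  List.rec (fun x => pw (Nat.add x f)) (fun y _ ih x => Nat.add (pw (Nat.add x y)) (ih y)) l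

theorem encC_spec (f : ℕ) (l : List ℕ) : ∀ x,
    encC f l x = encL (List.zipWith (· + ·) (x :: l) (l ++ [f])) := by
  induction l with
  | nil => intro x; change pw (x + f) = encL [x + f]; rw [encL_cons, pw_eq, encL_nil, add_zero]
  | cons y l ih =>
    intro x
    have e : List.zipWith (· + ·) (x :: y :: l) (y :: l ++ [f]) =
        (x + y) :: List.zipWith (· + ·) (y :: l) (l ++ [f]) := rfl
    rw [e, encL_cons, ← pw_eq, ← ih y]
    rfl

/-- code of the sums of a cycle -/
noncomputable def cyE (l : List ℕ) : ℕ := List.rec 0 (fun x l _ => encC x l x) l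

theorem cyE_spec (l : List ℕ) : cyE l = encL (cycN l) := by
  cases l with
  | nil => rfl
  | cons x l => exact encC_spec x l x

/-- code of the path sums of a path -/
noncomputable def encP (l : List ℕ) : ℕ → ℕ :=
  List.rec (fun _ => 0) (fun y _ ih x => Nat.add (pw (Nat.add x y)) (ih y)) l

theorem encP_spec (l : List ℕ) : ∀ x, encP l x = encL (pathN (x :: l)) := by
  induction l with
  | nil => intro x; rfl
  | cons y l ih =>
    intro x
    have e : pathN (x :: y :: l) = (x + y) :: pathN (y :: l) := rfl
    rw [e, encL_cons, ← pw_eq, ← ih y]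
    rfl

/-- code of the path sums of a path -/
noncomputable def paE (l : List ℕ) : ℕ := List.rec 0 (fun x l _ => encP l x) l

theorem paE_spec (l : List ℕ) : paE l = encL (pathN l) := by
  cases l with
  | nil => rfl
  | cons x l => exact encP_spec l x

/-- code of the labels of all cycles -/
noncomputable def goL (mu : List ℕ) : ℕ → ℕ :=
  List.rec (fun _ => 0)
    (fun n _ ih D => Nat.add (encL (dg n D)) (ih (Nat.shiftRight D (Nat.mul 12 n)))) mu

theorem goL_spec (mu : List ℕ) : ∀ D, goL mu D = encL (dgs mu D).flatten := by
  induction mu with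
  | nil => intro D; rfl
  | cons n mu ih => intro D; rw [dgs_cons, List.flatten_cons, encL_append, ← ih]; rfl

/-- code of the sums of all cycles -/
noncomputable def goS (mu : List ℕ) : ℕ → ℕ :=
  List.rec (fun _ => 0)
    (fun n _ ih D => Nat.add (cyE (dg n D)) (ih (Nat.shiftRight D (Nat.mul 12 n)))) mu

theorem goS_spec (mu : List ℕ) : ∀ D, goS mu D = encL ((dgs mu D).map cycN).flatten := by
  induction mu with
  | nil => intro D; rfl
  | cons n mu ih =>
    intro D
    rw [dgs_cons, List.map_cons, List.flatten_cons, encL_append, ← ih, ← cyE_spec]; rfl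

/-- sum of a list -/
noncomputable def sumR (l : List ℕ) : ℕ := List.rec 0 (fun x _ ih => Nat.add x ih) l

theorem sumR_eq (l : List ℕ) : sumR l = l.sum := by
  induction l with
  | nil => rfl
  | cons x l ih => rw [List.sum_cons, ← ih]; rfl

theorem flatten_length_dgs (mu : List ℕ) (D : ℕ) : (dgs mu D).flatten.length = mu.sum := by
  rw [List.length_flatten, dgs_lengths]

theorem cycN_length (l : List ℕ) : (cycN l).length = l.length := by
  cases l with
  | nil => rfl
  | cons x l => simp [cycN]

theorem sums_length_dgs (mu : List ℕ) (D : ℕ) :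
    ((dgs mu D).map cycN).flatten.length = mu.sum := by
  rw [List.length_flatten, List.map_map]
  have : List.length ∘ cycN = List.length := by
    funext l; exact cycN_length l
  rw [this, dgs_lengths]

theorem pathN_length : ∀ l : List ℕ, (pathN l).length = l.length - 1
  | [] => rfl
  | [_] => rfl
  | x :: y :: l => by
    have := pathN_length (y :: l)
    simp only [pathN, List.length_cons] at this ⊢
    omega

theorem all_of_perm {f : ℕ → Bool} {l E : List ℕ} (h : l.Perm E) (hE : ∀ x ∈ E, f x = true) :
    l.all f = true := by
  rw [List.all_eq_true]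
  intro x hx
  exact hE x (h.mem_iff.1 hx)

/-! ## Transfer to integer labels -/

section transfer

variable (f g : ℕ → ℤ) (okL okS : ℕ → Bool)
  (hadd : ∀ x y, okL x = true → okL y = true → okS (x + y) = true → f x + f y = g (x + y))

include hadd in
theorem zip_map : ∀ (l l' : List ℕ), l.all okL = true → l'.all okL = true →
    (List.zipWith (· + ·) l l').all okS = true →
    List.zipWith (· + ·) (l.map f) (l'.map f) = (List.zipWith (· + ·) l l').map g := by
  intro l
  induction l with
  | nil => intro l' _ _ _; simp
  | cons a l ih =>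
    intro l' h1 h2 h3
    cases l' with
    | nil => simp
    | cons b l' =>
      simp only [List.zipWith_cons_cons, List.all_cons, Bool.and_eq_true] at h1 h2 h3
      simp only [List.map_cons, List.zipWith_cons_cons]
      rw [ih l' h1.2 h2.2 h3.2, hadd a b h1.1 h2.1 h3.1]

include hadd in
theorem cyc_map (l : List ℕ) (h1 : l.all okL = true) (h2 : (cycN l).all okS = true) :
    cycSums (l.map f) = (cycN l).map g := by
  cases l with
  | nil => rfl
  | cons a l =>
    have h1' := h1
    simp only [List.all_cons, Bool.and_eq_true] at h1'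
    have := zip_map f g okL okS hadd (a :: l) (l ++ [a]) h1
      (by rw [List.all_append]; simp [h1'.1, h1'.2]) h2
    simpa [cycSums, cycN] using this

include hadd in
theorem cyc_map_flat (cs : List (List ℕ)) (h1 : cs.flatten.all okL = true)
    (h2 : ((cs.map cycN).flatten).all okS = true) :
    ((cs.map (List.map f)).map cycSums).flatten = ((cs.map cycN).flatten).map g := by
  induction cs with
  | nil => rfl
  | cons c cs ih =>
    simp only [List.map_cons, List.flatten_cons, List.all_append, Bool.and_eq_true,
      List.map_append] at h1 h2 ⊢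
    rw [ih h1.2 h2.2, cyc_map f g okL okS hadd c h1.1 h2.1]

include hadd in
theorem path_map : ∀ (l : List ℕ), l.all okL = true → (pathN l).all okS = true →
    pathSums (l.map f) = (pathN l).map g
  | [], _, _ => rfl
  | [_], _, _ => rfl
  | x :: y :: l, h1, h2 => by
    simp only [pathN, List.all_cons, Bool.and_eq_true] at h1 h2
    have := path_map (y :: l) (by simp [h1.2]) h2.2
    simp only [List.map_cons] at this ⊢
    simp only [pathSums, pathN, List.map_cons]
    rw [this, hadd x y h1.1 h1.2.1 h2.1]

end transfer

theorem flatten_map_map (f : ℕ → ℤ) (cs : List (List ℕ)) :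
    (cs.map (List.map f)).flatten = cs.flatten.map f := by
  rw [List.map_flatten]

theorem length_map_map (f : ℕ → ℤ) (cs : List (List ℕ)) :
    (cs.map (List.map f)).map List.length = cs.map List.length := by
  rw [List.map_map]
  congr 1
  funext l
  simp

/-! ## Intervals -/

theorem map_range'_eq_I (f : ℕ → ℤ) : ∀ (n a : ℕ) (c : ℤ), (∀ i < n, f (a + i) = c + i) →
    (((List.range' a n).map f : List ℤ) : Multiset ℤ) = I c (c + n) := by
  intro n
  induction n with
  | zero => intro a c _; simp [I]
  | succ n ih =>
    intro a c h
    rw [List.range'_succ, List.map_cons, ← Multiset.cons_coe]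
    have h0 : f a = c := by simpa using h 0 (Nat.succ_pos n)
    rw [ih (a + 1) (c + 1) (fun i hi => by
      have := h (i + 1) (by omega)
      rw [show a + 1 + i = a + (i + 1) by omega, this]
      push_cast
      ring), h0]
    unfold I
    have : Finset.Ico c (c + ((n + 1 : ℕ) : ℤ)) = insert c (Finset.Ico (c + 1) (c + 1 + n)) := by
      ext y
      simp only [Finset.mem_insert, Finset.mem_Ico]
      push_cast
      omega
    rw [this, Finset.insert_val_of_notMem (by simp)]

end Pool.Agent.helper33.BE
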