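import Pool.Agent.helper9.SV.Defs

/-!
# Strip geometry for the labellings of 2-regular graphs (MP_be123d)

Definitions only.  A strip position is given by five integers `p` with `p.Rel`.
`labM p k`, `sumM p k`: the labels and sums of the bulk region between the hub at `p` and the hub
at `adv p k`.  `labE h m j`, `sumE h m j`: what is left of `-h..h` behind the hub number `j` of the
strip starting at `p0 h m`.  `OmL`, `OmS`: the region between a hub and the open hub.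
-/

namespace Pool.Agent.helper33.BE

open Pool.Agent.helper9.SV

noncomputable section

/-- the integer interval `[x, y)` -/
def I (x y : ℤ) : Multiset ℤ := (Finset.Ico x y).val

/-- a strip position -/
structure Par where
  a1 : ℤ
  b1 : ℤ
  a2 : ℤ
  b2 : ℤ
  c : ℤ

/-- the relation satisfied by all positions -/
def Par.Rel (p : Par) : Prop := p.a2 + p.b2 + 1 = p.a1 + p.b1

/-- half -/
def hf (k : ℕ) : ℤ := ((k / 2 : ℕ) : ℤ)

/-- parity -/
def od (k : ℕ) : ℤ := ((k % 2 : ℕ) : ℤ)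

/-- the position after `j` steps -/
def adv (p : Par) (j : ℕ) : Par :=
  if j % 2 = 0 then ⟨p.a1 + hf j, p.b1 + hf j, p.a2 + hf j, p.b2 + hf j, p.c - j⟩
  else ⟨p.a2 + hf j + 1, p.b2 + hf j + 1, p.a1 + hf j, p.b1 + hf j, p.c - j⟩

/-- labels between hub `0` and hub `k` (`k ≠ 1`) -/
def labM (p : Par) (k : ℕ) : Multiset ℤ :=
  I p.a1 (p.a1 + hf k - od k) + I (p.b1 + 1) (p.b1 + 1 + hf k - od k) +
    I (p.a2 - 1) (p.a2 - 1 + hf k + 2 * od k) + I p.b2 (p.b2 + hf k + 2 * od k) +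
    I (p.c - k + 1) (p.c + 1)

/-- sums between hub `0` and hub `k` (`k ≠ 1`) -/
def sumM (p : Par) (k : ℕ) : Multiset ℤ :=
  I (p.a1 + p.b1 - 1) (p.a1 + p.b1 - 1 + k) +
    I (p.a1 + p.c - 1 - hf k + od k) (p.a1 + p.c - 1) +
    I (p.b1 + p.c - hf k + od k) (p.b1 + p.c) +
    I (p.a2 + p.c + 1 - hf k - 2 * od k) (p.a2 + p.c + 1) +
    I (p.b2 + p.c + 2 - hf k - 2 * od k) (p.b2 + p.c + 2)

/-- labels between a hub and its open hub -/
def OmL (p : Par) : Multiset ℤ :=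
  I p.a1 (p.a1 + 1) + I (p.b1 + 1) (p.b1 + 2) + I (p.a2 - 1) (p.a2 + 2) + I p.b2 (p.b2 + 3) +
    I (p.c - 3) (p.c + 1)

/-- sums between a hub and its open hub -/
def OmS (p : Par) : Multiset ℤ :=
  I (p.a1 + p.b1 - 1) (p.a1 + p.b1 + 2) + I (p.b1 + p.c - 1) (p.b1 + p.c) +
    I (p.a2 + p.c - 2) (p.a2 + p.c + 1) + I (p.b2 + p.c - 2) (p.b2 + p.c + 2)

/-- the start position of the strip for the labels `-h..h`, with middle parameter `m` -/
def p0 (h m : ℤ) : Par := ⟨-h, 1, -h + m, -m, h⟩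

/-- labels behind hub `j` -/
def labE (h m : ℤ) (j : ℕ) : Multiset ℤ :=
  I (-h + hf j - od j) (-h + m - 1) + I (-h + m - 1 + hf j + 2 * od j) (-m) +
    I (-m + hf j + 2 * od j) 2 + I (2 + hf j - od j) (h - j + 1)

/-- sums behind hub `j` -/
def sumE (h m : ℤ) (j : ℕ) : Multiset ℤ :=
  I (-h + j) (-1 - hf j + od j) + I (-1) (m + 1 - hf j - 2 * od j) +
    I (m + 1) (h - m + 2 - hf j - 2 * od j) + I (h - m + 2) (h + 1 - hf j + od j)

/-- the regions behind hub `j` have non-negative lengths -/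
def VE (h m : ℤ) (j : ℕ) : Prop :=
  hf j - od j ≤ m - 1 ∧ -h + m - 1 + hf j + 2 * od j ≤ -m ∧ -m + hf j + 2 * od j ≤ 2 ∧
    2 + hf j - od j ≤ h - j + 1 ∧ -h + j ≤ -1 - hf j + od j ∧ -1 ≤ m + 1 - hf j - 2 * od j ∧
    m + 1 ≤ h - m + 2 - hf j - 2 * od j ∧ h - m + 2 ≤ h + 1 - hf j + od j

/-- `nu` fills the bulk region of width `k` -/
def Tile (nu : Multiset ℕ) (k : ℕ) : Prop :=
  2 ≤ k ∧ nu.sum = 3 * k ∧ ∀ p : Par, p.Rel → Fill (labM p k) (sumM p k) nu

/-- `S` fills the end of every strip of the right length -/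
def SG (S : Multiset ℕ) : Prop :=
  ∃ δ : ℤ, (3 : ℤ) ∣ (S.sum : ℤ) - 2 * δ - 1 ∧ ∀ (m h : ℤ) (j : ℕ), j ≠ 1 → h = 3 * m + δ →
    2 * h + 1 = 3 * j + S.sum → VE h m j ∧ Fill (labE h m j) (sumE h m j) S

/-- consecutive sums of a path -/
def pathSums : List ℤ → List ℤ
  | [] => []
  | [_] => []
  | x :: y :: l => (x + y) :: pathSums (y :: l)

/-- cycles with lengths `T` and one path with `b` labels from `u` to `v` -/
def OFill (A S : Multiset ℤ) (T : Multiset ℕ) (u v : ℤ) (b : ℕ) : Prop :=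
  ∃ (cs : List (List ℤ)) (w : List ℤ), ((cs.map List.length : List ℕ) : Multiset ℕ) = T ∧
    w.length = b ∧ w.head? = some u ∧ w.getLast? = some v ∧
    ((cs.flatten : List ℤ) : Multiset ℤ) + (w : Multiset ℤ) = A ∧
    (((cs.map cycSums).flatten : List ℤ) : Multiset ℤ) + (pathSums w : Multiset ℤ) = S

/-- cycles with lengths `T` and a path with `b` labels fill everything from the hub `0` to the open
hub number `q` -/
def OT (T : Multiset ℕ) (b q : ℕ) : Prop :=
  q ≠ 1 ∧ 1 ≤ b ∧ T.sum + b = 3 * q + 12 ∧ ∀ p : Par, p.Rel →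
    OFill (labM p q + OmL (adv p q)) (sumM p q + OmS (adv p q)) T (adv p q).a1 (adv p q).a2 b

/-- the path can be lengthened while going `j` hubs further -/
def Pump (j : ℕ) : Prop :=
  2 ≤ j ∧ ∀ p : Par, p.Rel → ∃ U V : List ℤ, U.length + V.length = 3 * j ∧
    OmL p + ((U : Multiset ℤ) + (V : Multiset ℤ)) = labM p j + OmL (adv p j) ∧
    OmS p + ((pathSums (p.a1 :: U) : Multiset ℤ) + (pathSums (p.a2 :: V) : Multiset ℤ)) =
      sumM p j + OmS (adv p j) ∧
    (((p.a1 :: U).getLast? = some (adv p j).a1 ∧ (p.a2 :: V).getLast? = some (adv p j).a2) ∨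
      ((p.a1 :: U).getLast? = some (adv p j).a2 ∧ (p.a2 :: V).getLast? = some (adv p j).a1))

/-- the path is closed with `a` more labels, and a new path with `b` labels is started -/
def Exch (a b k : ℕ) : Prop :=
  2 ≤ k ∧ 1 ≤ b ∧ a + b = 3 * k ∧ ∀ p : Par, p.Rel → ∃ Z W : List ℤ, Z.length = a ∧
    W.length = b ∧ W.head? = some (adv p k).a1 ∧ W.getLast? = some (adv p k).a2 ∧
    OmL p + ((Z : Multiset ℤ) + (W : Multiset ℤ)) = labM p k + OmL (adv p k) ∧
    OmS p + ((pathSums (p.a2 :: Z ++ [p.a1]) : Multiset ℤ) + (pathSums W : Multiset ℤ)) =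
      sumM p k + OmS (adv p k)

/-- the path is closed with `a` more labels, and the rest of the strip is filled by cycles with
lengths `R` -/
def Close (a : ℕ) (R : Multiset ℕ) : Prop :=
  ∃ δ : ℤ, (3 : ℤ) ∣ (12 + a + R.sum : ℤ) - 2 * δ - 1 ∧ ∀ (m h : ℤ) (q : ℕ), q ≠ 1 →
    h = 3 * m + δ → 2 * h + 1 = 3 * q + (12 + a + R.sum) → VE h m q ∧
    ∃ (cs : List (List ℤ)) (Z : List ℤ), ((cs.map List.length : List ℕ) : Multiset ℕ) = R ∧
      Z.length = a ∧
      OmL (adv (p0 h m) q) + (((cs.flatten : List ℤ) : Multiset ℤ) + (Z : Multiset ℤ)) =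
        labE h m q ∧
      OmS (adv (p0 h m) q) + ((((cs.map cycSums).flatten : List ℤ) : Multiset ℤ) +
        (pathSums ((adv (p0 h m) q).a2 :: Z ++ [(adv (p0 h m) q).a1]) : Multiset ℤ)) =
        sumE h m q

end

end Pool.Agent.helper33.BE
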