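import Pool.Agent.helper33.BE.Bulk

/-!
# Checkers for the end pieces
-/

namespace Pool.Agent.helper33.BE

open Pool.Agent.helper9.SV

/-- value of a label code -/
def decEL (m : ℤ) (x : ℕ) : ℤ := (((x / 256 : ℕ) : ℤ) - 2) * m + ((x % 256 : ℕ) : ℤ) - 64

/-- value of a sum code -/
def decES (m : ℤ) (x : ℕ) : ℤ := (((x / 256 : ℕ) : ℤ) - 4) * m + ((x % 256 : ℕ) : ℤ) - 128

/-- admissible label codes -/
def okE (x : ℕ) : Bool := decide (x % 256 < 128)

/-- no condition -/
def okT (_ : ℕ) : Bool := true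

theorem all_okT (l : List ℕ) : l.all okT = true := by
  simp [okT]

theorem decE_add (m : ℤ) (x y : ℕ) (hx : okE x = true) (hy : okE y = true)
    (_ : okT (x + y) = true) : decEL m x + decEL m y = decES m (x + y) := by
  simp only [okE, decide_eq_true_eq] at hx hy
  have h1 : (x + y) / 256 = x / 256 + y / 256 := by omega
  have h2 : (x + y) % 256 = x % 256 + y % 256 := by omega
  unfold decEL decES
  rw [h1, h2]
  push_cast
  ring

/-- the codes of one interval -/
def segE (off : ℕ) (t : ℕ × ℤ × ℤ) : List ℕ :=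
  List.range' (t.1 * 256 + (t.2.1 + off).toNat) (t.2.2 - t.2.1).toNat

/-- the interval fits into its block -/
def segOK (off : ℕ) (t : ℕ × ℤ × ℤ) : Bool :=
  decide (0 ≤ t.2.1 + off) && decide (t.2.1 ≤ t.2.2) && decide (t.2.2 + off ≤ 2 * off)

/-- code of a list of intervals -/
noncomputable def encT (off : ℕ) (T : List (ℕ × ℤ × ℤ)) : ℕ :=
  List.rec 0 (fun t _ ih => Nat.add (encI (Nat.add (Nat.mul t.1 256) (t.2.1 + off).toNat)
    (t.2.2 - t.2.1).toNat) ih) T

/-- number of codes of a list of intervals -/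
noncomputable def lenT (T : List (ℕ × ℤ × ℤ)) : ℕ :=
  List.rec 0 (fun t _ ih => Nat.add (t.2.2 - t.2.1).toNat ih) T

theorem encT_spec (off : ℕ) (T : List (ℕ × ℤ × ℤ)) :
    encT off T = encL (T.flatMap (segE off)) := by
  induction T with
  | nil => rfl
  | cons t T ih =>
    rw [List.flatMap_cons, encL_append, ← ih]
    unfold segE
    rw [encL_range']
    rfl

theorem lenT_spec (off : ℕ) (T : List (ℕ × ℤ × ℤ)) :
    lenT T = (T.flatMap (segE off)).length := by
  induction T with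
  | nil => rfl
  | cons t T ih =>
    rw [List.flatMap_cons, List.length_append, ← ih]
    unfold segE
    rw [List.length_range']
    rfl

theorem okE_flatMap {T : List (ℕ × ℤ × ℤ)} (h : T.all (segOK 64) = true) :
    ∀ x ∈ T.flatMap (segE 64), okE x = true := by
  intro x hx
  rw [List.mem_flatMap] at hx
  obtain ⟨⟨g, lo, hi⟩, ht, hx⟩ := hx
  have h1 := List.all_eq_true.1 h _ ht
  simp only [segOK, Bool.and_eq_true, decide_eq_true_eq] at h1
  obtain ⟨⟨h1, h2⟩, h3⟩ := h1
  simp only [segE, List.mem_range'_1] at hx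
  simp only [okE, decide_eq_true_eq]
  push_cast at h1 h3 hx
  omega

theorem segE_L (m : ℤ) (t : ℕ × ℤ × ℤ) (h : segOK 64 t = true) :
    (((segE 64 t).map (decEL m) : List ℤ) : Multiset ℤ) =
      I (((t.1 : ℤ) - 2) * m + t.2.1) (((t.1 : ℤ) - 2) * m + t.2.2) := by
  obtain ⟨g, lo, hi⟩ := t
  simp only [segOK, Bool.and_eq_true, decide_eq_true_eq] at h
  obtain ⟨⟨h1, h2⟩, h3⟩ := h
  have e : (((g : ℤ) - 2) * m + hi) = (((g : ℤ) - 2) * m + lo) + ((hi - lo).toNat : ℤ) := by
    rw [Int.toNat_of_nonneg (by omega)]; ring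
  simp only [segE]
  rw [e]
  apply map_range'_eq_I
  intro i hi'
  push_cast at h1 h3
  have e1 : (g * 256 + (lo + ((64 : ℕ) : ℤ)).toNat + i) / 256 = g := by omega
  have e2 : (((g * 256 + (lo + ((64 : ℕ) : ℤ)).toNat + i) % 256 : ℕ) : ℤ) = lo + 64 + i := by
    omega
  unfold decEL
  rw [e1, e2]
  ring

theorem segE_S (m : ℤ) (t : ℕ × ℤ × ℤ) (h : segOK 128 t = true) :
    (((segE 128 t).map (decES m) : List ℤ) : Multiset ℤ) =
      I (((t.1 : ℤ) - 4) * m + t.2.1) (((t.1 : ℤ) - 4) * m + t.2.2) := by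
  obtain ⟨g, lo, hi⟩ := t
  simp only [segOK, Bool.and_eq_true, decide_eq_true_eq] at h
  obtain ⟨⟨h1, h2⟩, h3⟩ := h
  have e : (((g : ℤ) - 4) * m + hi) = (((g : ℤ) - 4) * m + lo) + ((hi - lo).toNat : ℤ) := by
    rw [Int.toNat_of_nonneg (by omega)]; ring
  simp only [segE]
  rw [e]
  apply map_range'_eq_I
  intro i hi'
  push_cast at h1 h3
  have e1 : (g * 256 + (lo + ((128 : ℕ) : ℤ)).toNat + i) / 256 = g := by omega
  have e2 : (((g * 256 + (lo + ((128 : ℕ) : ℤ)).toNat + i) % 256 : ℕ) : ℤ) = lo + 128 + i := by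
    omega
  unfold decES
  rw [e1, e2]
  ring

theorem segE_L_all (m : ℤ) (T : List (ℕ × ℤ × ℤ)) (h : T.all (segOK 64) = true) :
    (((T.flatMap (segE 64)).map (decEL m) : List ℤ) : Multiset ℤ) =
      (T.map (fun t => I (((t.1 : ℤ) - 2) * m + t.2.1) (((t.1 : ℤ) - 2) * m + t.2.2))).sum := by
  induction T with
  | nil => rfl
  | cons t T ih =>
    simp only [List.all_cons, Bool.and_eq_true] at h
    rw [List.flatMap_cons, List.map_append, ← Multiset.coe_add, ih h.2, segE_L m t h.1,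
      List.map_cons, List.sum_cons]

theorem segE_S_all (m : ℤ) (T : List (ℕ × ℤ × ℤ)) (h : T.all (segOK 128) = true) :
    (((T.flatMap (segE 128)).map (decES m) : List ℤ) : Multiset ℤ) =
      (T.map (fun t => I (((t.1 : ℤ) - 4) * m + t.2.1) (((t.1 : ℤ) - 4) * m + t.2.2))).sum := by
  induction T with
  | nil => rfl
  | cons t T ih =>
    simp only [List.all_cons, Bool.and_eq_true] at h
    rw [List.flatMap_cons, List.map_append, ← Multiset.coe_add, ih h.2, segE_S m t h.1,
      List.map_cons, List.sum_cons]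

/-- label intervals of the end region -/
def eLab (par c d : ℤ) : List (ℕ × ℤ × ℤ) :=
  [(0, c - par - d, -d - 1), (1, c + 2 * par - d - 1, 0), (2, c + 2 * par, 2),
    (3, 2 + c - par, d - 2 * c - par + 1)]

/-- sum intervals of the end region -/
def eSum (par c d : ℤ) : List (ℕ × ℤ × ℤ) :=
  [(3, 2 * c + par - d, -1 - c + par), (4, -1, 1 - c - 2 * par), (5, 1, d + 2 - c - 2 * par),
    (6, d + 2, d + 1 - c + par)]

/-- validity of the end region -/
def eOK (par c d : ℤ) : Bool :=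
  decide (c - par ≤ -1) && decide (-d + c + 2 * par - 1 ≤ 0) && decide (c + 2 * par ≤ 2) &&
    decide (2 + c - par ≤ d - 2 * c - par + 1) && decide (2 * c + par - d ≤ -1 - c + par) &&
    decide (-1 ≤ 1 - c - 2 * par) && decide (1 ≤ d + 2 - c - 2 * par) &&
    decide (d + 2 ≤ d + 1 - c + par) && (eLab par c d).all (segOK 64) &&
    (eSum par c d).all (segOK 128)

theorem eOK_VE {m h par c d : ℤ} {j : ℕ} (hok : eOK par c d = true) (hh : h = 3 * m + d)
    (hf1 : hf j = m + c) (ho : od j = par) (hj : (j : ℤ) = 2 * (m + c) + par) : VE h m j := by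
  simp only [eOK, Bool.and_eq_true, decide_eq_true_eq] at hok
  obtain ⟨⟨⟨⟨⟨⟨⟨⟨⟨h1, h2⟩, h3⟩, h4⟩, h5⟩, h6⟩, h7⟩, h8⟩, -⟩, -⟩ := hok
  unfold VE
  rw [hf1, ho, hj, hh]
  refine ⟨?_, ?_, ?_, ?_, ?_, ?_, ?_, ?_⟩ <;> linarith

theorem eLab_dec {m h par c d : ℤ} {j : ℕ} (hok : eOK par c d = true) (hh : h = 3 * m + d)
    (hf1 : hf j = m + c) (ho : od j = par) (hj : (j : ℤ) = 2 * (m + c) + par) :
    ((((eLab par c d).flatMap (segE 64)).map (decEL m) : List ℤ) : Multiset ℤ) =
      labE h m j := by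
  simp only [eOK, Bool.and_eq_true] at hok
  obtain ⟨⟨-, h9⟩, -⟩ := hok
  rw [segE_L_all m _ h9]
  unfold labE eLab
  rw [hf1, ho, hj, hh]
  simp only [List.map_cons, List.map_nil, List.sum_cons, List.sum_nil, add_zero, ← add_assoc]
  congr 1
  · congr 1
    · congr 1
      · congr 1 <;> push_cast <;> ring
      · congr 1 <;> push_cast <;> ring
    · congr 1 <;> push_cast <;> ring
  · congr 1 <;> push_cast <;> ring

theorem eSum_dec {m h par c d : ℤ} {j : ℕ} (hok : eOK par c d = true) (hh : h = 3 * m + d)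
    (hf1 : hf j = m + c) (ho : od j = par) (hj : (j : ℤ) = 2 * (m + c) + par) :
    ((((eSum par c d).flatMap (segE 128)).map (decES m) : List ℤ) : Multiset ℤ) =
      sumE h m j := by
  simp only [eOK, Bool.and_eq_true] at hok
  obtain ⟨-, h9⟩ := hok
  rw [segE_S_all m _ h9]
  unfold sumE eSum
  rw [hf1, ho, hj, hh]
  simp only [List.map_cons, List.map_nil, List.sum_cons, List.sum_nil, add_zero, ← add_assoc]
  congr 1
  · congr 1
    · congr 1
      · congr 1 <;> push_cast <;> ring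
      · congr 1 <;> push_cast <;> ring
    · congr 1 <;> push_cast <;> ring
  · congr 1 <;> push_cast <;> ring

/-- the offset `δ` -/
def dlt (R t : ℕ) : ℤ := (if R % 3 = 0 then 1 else if R % 3 = 1 then 0 else -1) - 3 * (t : ℤ)

/-- parity of the hub number -/
def parE (R : ℕ) (d : ℤ) : ℤ := ((2 * d + 1 - R) / 3) % 2

/-- offset of half of the hub number -/
def cE (R : ℕ) (d : ℤ) : ℤ := ((2 * d + 1 - R) / 3) / 2

theorem dlt_dvd (R t : ℕ) : (3 : ℤ) ∣ (R : ℤ) - 2 * dlt R t - 1 := by
  unfold dlt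
  split_ifs <;> omega

theorem endEq {R t : ℕ} {m h : ℤ} {j : ℕ} (hh : h = 3 * m + dlt R t)
    (h2 : 2 * h + 1 = 3 * j + R) : hf j = m + cE R (dlt R t) ∧ od j = parE R (dlt R t) ∧
      (j : ℤ) = 2 * (m + cE R (dlt R t)) + parE R (dlt R t) := by
  have h3 := dlt_dvd R t
  unfold cE parE hf od
  generalize dlt R t = d at *
  subst hh
  obtain ⟨z, hz⟩ := h3
  have e : (2 * d + 1 - (R : ℤ)) / 3 = -z := by omega
  rw [e]
  omega

/-- the check for an end piece: `D = t + 4 * codes` -/
noncomputable def chkEnd (mu : List ℕ) (D : ℕ) : Bool :=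
  let n := sumR mu
  let d := dlt n (D % 4)
  let par := parE n d
  let c := cE n d
  eOK par c d && (Nat.blt n 128 && (Nat.blt (lenT (eLab par c d)) 128 &&
    (Nat.blt (lenT (eSum par c d)) 128 &&
      (Nat.beq (goL mu (Nat.div D 4)) (encT 64 (eLab par c d)) &&
      Nat.beq (goS mu (Nat.div D 4)) (encT 128 (eSum par c d))))))

theorem chkEnd_spec {mu : List ℕ} {D : ℕ} (h : chkEnd mu D = true) : SG (mu : Multiset ℕ) := by
  simp only [chkEnd, Bool.and_eq_true, Nat.beq_eq, Nat.blt_eq, sumR_eq, goL_spec, goS_spec,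
    encT_spec] at h
  obtain ⟨h1, h2, h6, h7, h4, h5⟩ := h
  rw [lenT_spec 64] at h6
  rw [lenT_spec 128] at h7
  have p1 := encL_inj h4 (by rw [flatten_length_dgs]; exact h2) h6
  have p2 := encL_inj h5 (by rw [sums_length_dgs]; exact h2) h7
  have hok : (eLab (parE mu.sum (dlt mu.sum (D % 4))) (cE mu.sum (dlt mu.sum (D % 4)))
      (dlt mu.sum (D % 4))).all (segOK 64) = true := by
    have := h1
    simp only [eOK, Bool.and_eq_true] at this
    exact this.1.2
  refine ⟨dlt mu.sum (D % 4), ?_, fun m h j hj hh hn => ?_⟩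
  · rw [Multiset.sum_coe]
    exact dlt_dvd _ _
  · rw [Multiset.sum_coe] at hn
    obtain ⟨e1, e2, e3⟩ := endEq hh hn
    refine ⟨eOK_VE h1 hh e1 e2 e3, ?_⟩
    refine ⟨(dgs mu (Nat.div D 4)).map (List.map (decEL m)), ?_, ?_, ?_⟩
    · rw [length_map_map, dgs_lengths]
    · rw [flatten_map_map, ← eLab_dec h1 hh e1 e2 e3, ← Multiset.map_coe, ← Multiset.map_coe,
        Multiset.coe_eq_coe.2 p1]
    · rw [cyc_map_flat (decEL m) (decES m) okE okT (decE_add m) _
          (all_of_perm p1 (okE_flatMap hok)) (all_okT _),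
        ← eSum_dec h1 hh e1 e2 e3, ← Multiset.map_coe, ← Multiset.map_coe,
        Multiset.coe_eq_coe.2 p2]

/-! ## Closings -/

/-- the five parameters at the hub in front of the end: block and offset -/
def eA1 (par c d : ℤ) : ℕ × ℤ := if par = 0 then (0, c - d) else (1, c - d + 1)
/-- see `eA1` -/
def eB1 (par c : ℤ) : ℕ × ℤ := if par = 0 then (3, 1 + c) else (2, c + 1)
/-- see `eA1` -/
def eA2 (par c d : ℤ) : ℕ × ℤ := if par = 0 then (1, c - d) else (0, c - d)
/-- see `eA1` -/
def eB2 (par c : ℤ) : ℕ × ℤ := if par = 0 then (2, c) else (3, 1 + c)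
/-- see `eA1` -/
def eC (par c d : ℤ) : ℕ × ℤ := (3, d - 2 * c - par)

/-- label intervals of the open hub -/
def eOmL (par c d : ℤ) : List (ℕ × ℤ × ℤ) :=
  [((eA1 par c d).1, (eA1 par c d).2, (eA1 par c d).2 + 1),
    ((eB1 par c).1, (eB1 par c).2 + 1, (eB1 par c).2 + 2),
    ((eA2 par c d).1, (eA2 par c d).2 - 1, (eA2 par c d).2 + 2),
    ((eB2 par c).1, (eB2 par c).2, (eB2 par c).2 + 3),
    ((eC par c d).1, (eC par c d).2 - 3, (eC par c d).2 + 1)]

/-- sum intervals of the open hub -/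
def eOmS (par c d : ℤ) : List (ℕ × ℤ × ℤ) :=
  [((eA1 par c d).1 + (eB1 par c).1, (eA1 par c d).2 + (eB1 par c).2 - 1,
      (eA1 par c d).2 + (eB1 par c).2 + 2),
    ((eB1 par c).1 + (eC par c d).1, (eB1 par c).2 + (eC par c d).2 - 1,
      (eB1 par c).2 + (eC par c d).2),
    ((eA2 par c d).1 + (eC par c d).1, (eA2 par c d).2 + (eC par c d).2 - 2,
      (eA2 par c d).2 + (eC par c d).2 + 1),
    ((eB2 par c).1 + (eC par c d).1, (eB2 par c).2 + (eC par c d).2 - 2,
      (eB2 par c).2 + (eC par c d).2 + 2)]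

/-- code of a parameter -/
def eCode (a : ℕ × ℤ) : ℕ := a.1 * 256 + (a.2 + 64).toNat

/-- value of a parameter -/
def eVal (m : ℤ) (a : ℕ × ℤ) : ℤ := ((a.1 : ℤ) - 2) * m + a.2

theorem eCode_dec (m : ℤ) (a : ℕ × ℤ) (h1 : 0 ≤ a.2 + 64) (h2 : a.2 + 64 < 256) :
    decEL m (eCode a) = eVal m a := by
  obtain ⟨g, x⟩ := a
  simp only [eCode, eVal, decEL] at *
  have e1 : (g * 256 + (x + 64).toNat) / 256 = g := by omega
  have e2 : (((g * 256 + (x + 64).toNat) % 256 : ℕ) : ℤ) = x + 64 := by omega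
  rw [e1, e2]
  ring

theorem adv_e {m h par c d : ℤ} {j : ℕ} (hh : h = 3 * m + d) (hf1 : hf j = m + c)
    (ho : od j = par) (hj : (j : ℤ) = 2 * (m + c) + par) :
    adv (p0 h m) j = ⟨eVal m (eA1 par c d), eVal m (eB1 par c), eVal m (eA2 par c d),
      eVal m (eB2 par c), eVal m (eC par c d)⟩ := by
  unfold adv p0 eA1 eB1 eA2 eB2 eC eVal
  by_cases hp : j % 2 = 0
  · have : par = 0 := by rw [← ho]; unfold od; omega
    subst this
    rw [if_pos hp]
    simp only [if_true, Par.mk.injEq]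
    rw [hf1, hj, hh]
    refine ⟨?_, ?_, ?_, ?_, ?_⟩ <;> push_cast <;> ring
  · have : par = 1 := by rw [← ho]; unfold od; omega
    subst this
    rw [if_neg hp]
    simp only [Par.mk.injEq]
    rw [hf1, hj, hh]
    norm_num
    refine ⟨?_, ?_, ?_, ?_⟩ <;> ring

theorem eOmL_dec {m par c d : ℤ} (hok : (eOmL par c d).all (segOK 64) = true) :
    ((((eOmL par c d).flatMap (segE 64)).map (decEL m) : List ℤ) : Multiset ℤ) =
      OmL ⟨eVal m (eA1 par c d), eVal m (eB1 par c), eVal m (eA2 par c d),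
      eVal m (eB2 par c), eVal m (eC par c d)⟩ := by
  rw [segE_L_all m _ hok]
  unfold OmL eOmL eVal
  simp only [List.map_cons, List.map_nil, List.sum_cons, List.sum_nil, add_zero, ← add_assoc]
  refine congrArg₂ (· + ·) (congrArg₂ (· + ·) (congrArg₂ (· + ·) (congrArg₂ (· + ·)
    (congrArg₂ I ?_ ?_) (congrArg₂ I ?_ ?_)) (congrArg₂ I ?_ ?_)) (congrArg₂ I ?_ ?_))
    (congrArg₂ I ?_ ?_) <;> ring

theorem eOmS_dec {m par c d : ℤ} (hok : (eOmS par c d).all (segOK 128) = true) :
    ((((eOmS par c d).flatMap (segE 128)).map (decES m) : List ℤ) : Multiset ℤ) =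
      OmS ⟨eVal m (eA1 par c d), eVal m (eB1 par c), eVal m (eA2 par c d),
      eVal m (eB2 par c), eVal m (eC par c d)⟩ := by
  rw [segE_S_all m _ hok]
  unfold OmS eOmS eVal
  simp only [List.map_cons, List.map_nil, List.sum_cons, List.sum_nil, add_zero, ← add_assoc]
  congr 1
  · congr 1
    · congr 1
      · congr 1 <;> push_cast <;> ring
      · congr 1 <;> push_cast <;> ring
    · congr 1 <;> push_cast <;> ring
  · congr 1 <;> push_cast <;> ring

/-- the check for a closing with `a` labels and cycles `R`: `D = t + 4 * codes` -/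
noncomputable def chkClose (a : ℕ) (R : List ℕ) (D : ℕ) : Bool :=
  let r := sumR R
  let n := 12 + a + r
  let d := dlt n (D % 4)
  let par := parE n d
  let c := cE n d
  let Z := dg a (Nat.shiftRight (D / 4) (Nat.mul 12 r))
  let u := eA1 par c d
  let v := eA2 par c d
  eOK par c d && ((eOmL par c d).all (segOK 64) && ((eOmS par c d).all (segOK 128) &&
    (Nat.blt n 127 && (Nat.blt (lenT (eLab par c d)) 128 && (Nat.blt (lenT (eSum par c d)) 128 &&
    (Nat.beq (lenT (eOmL par c d)) 12 && (Nat.beq (lenT (eOmS par c d)) 11 &&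
    (decide (0 ≤ u.2 + 64) && (decide (u.2 + 64 < 128) && (decide (0 ≤ v.2 + 64) &&
    (decide (v.2 + 64 < 128) &&
    (Nat.beq (encT 64 (eOmL par c d) + (goL R (D / 4) + encL Z)) (encT 64 (eLab par c d)) &&
    Nat.beq (encT 128 (eOmS par c d) + (goS R (D / 4) + paE (eCode v :: Z ++ [eCode u])))
      (encT 128 (eSum par c d))))))))))))))

theorem okE_eCode {a : ℕ × ℤ} (h1 : 0 ≤ a.2 + 64) (h2 : a.2 + 64 < 128) :
    okE (eCode a) = true := by
  obtain ⟨g, x⟩ := a
  unfold okE eCode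
  rw [decide_eq_true_eq]
  simp only at h1 h2 ⊢
  omega

theorem chkClose_spec {a : ℕ} {R : List ℕ} {D : ℕ} (h : chkClose a R D = true) :
    Close a (R : Multiset ℕ) := by
  simp only [chkClose, Bool.and_eq_true, Nat.beq_eq, Nat.blt_eq, decide_eq_true_eq, sumR_eq,
    goL_spec, goS_spec, paE_spec, encT_spec] at h
  set d := dlt (12 + a + R.sum) (D % 4) with hd
  set par := parE (12 + a + R.sum) d with hpar
  set c := cE (12 + a + R.sum) d with hc
  set cs := dgs R (D / 4) with hcs
  set Z := dg a (Nat.shiftRight (D / 4) (Nat.mul 12 R.sum)) with hZ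
  obtain ⟨h1, h2, h3, hn1, hl1, hl2, hl3, hl4, h8, h9, h10, h11, h12, h13⟩ := h
  rw [← encL_append, ← encL_append] at h12 h13
  rw [lenT_spec 64] at hl1 hl3
  rw [lenT_spec 128] at hl2 hl4
  have hZl : Z.length = a := dg_length _ _
  have hcl : cs.flatten.length = R.sum := flatten_length_dgs _ _
  have hcs2 : ((cs.map cycN).flatten).length = R.sum := sums_length_dgs _ _
  have p1 : ((eOmL par c d).flatMap (segE 64) ++ (cs.flatten ++ Z)).Perm
      ((eLab par c d).flatMap (segE 64)) := encL_inj h12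
    (by rw [List.length_append, List.length_append, hl3, hcl, hZl]; omega) hl1
  have p2 : ((eOmS par c d).flatMap (segE 128) ++ ((cs.map cycN).flatten ++
      pathN (eCode (eA2 par c d) :: Z ++ [eCode (eA1 par c d)]))).Perm
      ((eSum par c d).flatMap (segE 128)) := encL_inj h13
    (by rw [List.length_append, List.length_append, hl4, hcs2, pathN_length,
          List.length_append, List.length_cons, hZl, List.length_singleton]; omega) hl2
  have hok : (eLab par c d).all (segOK 64) = true := by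
    have := h1
    simp only [eOK, Bool.and_eq_true] at this
    exact this.1.2
  have a1 := all_of_perm p1 (okE_flatMap hok)
  rw [List.all_append, List.all_append, Bool.and_eq_true, Bool.and_eq_true] at a1
  have h7 : (eCode (eA2 par c d) :: Z ++ [eCode (eA1 par c d)]).all okE = true := by
    rw [List.all_append, List.all_cons, Bool.and_eq_true, Bool.and_eq_true, List.all_cons,
      List.all_nil, Bool.and_true]
    exact ⟨⟨okE_eCode h10 h11, a1.2.2⟩, okE_eCode h8 h9⟩
  refine ⟨d, ?_, fun m h j hj hh hn => ?_⟩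
  · rw [Multiset.sum_coe]
    have := dlt_dvd (12 + a + R.sum) (D % 4)
    rw [Nat.cast_add, Nat.cast_add] at this
    exact this
  · rw [Multiset.sum_coe] at hn
    have hn' : 2 * h + 1 = 3 * (j : ℤ) + ((12 + a + R.sum : ℕ) : ℤ) := by
      rw [hn, Nat.cast_add (12 + a), Nat.cast_add 12, Nat.cast_ofNat]
    obtain ⟨e1, e2, e3⟩ := endEq hh hn'
    refine ⟨eOK_VE h1 hh e1 e2 e3, ?_⟩
    refine ⟨cs.map (List.map (decEL m)), Z.map (decEL m), ?_, ?_, ?_, ?_⟩
    · rw [length_map_map, dgs_lengths]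
    · rw [List.length_map, hZl]
    · have e := congrArg (Multiset.map (decEL m)) (Multiset.coe_eq_coe.2 p1)
      simp only [← Multiset.coe_add, Multiset.map_add, Multiset.map_coe] at e
      rw [eOmL_dec h2, eLab_dec h1 hh e1 e2 e3] at e
      rw [adv_e hh e1 e2 e3, flatten_map_map]
      exact e
    · have hz : (adv (p0 h m) j).a2 :: Z.map (decEL m) ++ [(adv (p0 h m) j).a1] =
          (eCode (eA2 par c d) :: Z ++ [eCode (eA1 par c d)]).map (decEL m) := by
        rw [adv_e hh e1 e2 e3, List.map_append, List.map_cons, List.map_singleton,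
          eCode_dec m _ h8 (by omega), eCode_dec m _ h10 (by omega)]
      have e := congrArg (Multiset.map (decES m)) (Multiset.coe_eq_coe.2 p2)
      simp only [← Multiset.coe_add, Multiset.map_add, Multiset.map_coe] at e
      rw [eOmS_dec h3, eSum_dec h1 hh e1 e2 e3] at e
      rw [hz, path_map (decEL m) (decES m) okE okT (decE_add m) _ h7 (all_okT _),
        cyc_map_flat (decEL m) (decES m) okE okT (decE_add m) cs a1.2.1 (all_okT _),
        adv_e hh e1 e2 e3]
      exact e

end Pool.Agent.helper33.BE
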