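import Pool.Agent.helper33.BE.BadRow
import Pool.Agent.helper9.SV.Base2
import Pool.Agent.helper9.SV.Fam

/-!
# The endgame: bad multisets of odd order
-/

namespace Pool.Agent.helper33.BE

open Pool.Agent.helper9.SV

theorem SG_of_cert (l : List ℕ) (h : ℕ) (hc : certB iT 3 (encL l) h = true)
    (hl : l.length < 128) : SG (l : Multiset ℕ) := by
  obtain ⟨l', h2, h3, h4⟩ := certB_spec iT 3 _ _ hc
  have := encL_inj h2 (by omega) hl
  rw [← Multiset.coe_eq_coe.2 this]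
  exact h4

theorem sg_s6 : SG (([6, 3, 3, 3, 3, 3, 3] : List ℕ) : Multiset ℕ) :=
  SG_of_cert _ 0 (by decide +kernel) (by decide)

theorem sg_s8 : SG (([8, 3, 3, 3, 3, 3, 3] : List ℕ) : Multiset ℕ) :=
  SG_of_cert _ 2 (by decide +kernel) (by decide)

theorem sg_s57 : SG (([7, 5, 3, 3, 3, 3, 3, 3] : List ℕ) : Multiset ℕ) :=
  SG_of_cert _ 2 (by decide +kernel) (by decide)

theorem sg_s77 : SG (([7, 7, 3, 3, 3, 3, 3, 3, 3] : List ℕ) : Multiset ℕ) := by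
  have h1 : SG (([7, 7] : List ℕ) : Multiset ℕ) := SG_of_cert _ 0 (by decide +kernel) (by decide)
  have h2 : Tile (([3, 3, 3, 3, 3, 3, 3] : List ℕ) : Multiset ℕ) 7 :=
    chkTile_spec (mu := [3, 3, 3, 3, 3, 3, 3]) (D := 4585206719743064667637682772286490381109103463816679788202329639457382359080) (by decide +kernel)
  have := SG_add_tile h1 h2
  rwa [Multiset.coe_add] at this

theorem sg_s47a : SG (([4, 4, 4, 4, 4, 4, 4, 3, 3, 3, 3] : List ℕ) : Multiset ℕ) :=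
  SG_of_cert _ 0 (by decide +kernel) (by decide)

theorem sg_s413 : SG (([4, 4, 4, 4, 4, 4, 4, 4, 4, 4, 4, 4, 4, 3] : List ℕ) : Multiset ℕ) :=
  SG_of_cert _ 0 (by decide +kernel) (by decide)

theorem sg_s48a : SG (([4, 4, 4, 4, 4, 4, 4, 4, 3, 3, 3] : List ℕ) : Multiset ℕ) :=
  SG_of_cert _ 0 (by decide +kernel) (by decide)

theorem sg_s48b : SG (([4, 4, 4, 4, 4, 4, 4, 4, 3, 3, 3, 3, 3] : List ℕ) : Multiset ℕ) :=
  SG_of_cert _ 0 (by decide +kernel) (by decide)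

theorem sg_s59a : SG (([9, 5, 3, 3, 3, 3] : List ℕ) : Multiset ℕ) :=
  SG_of_cert _ 0 (by decide +kernel) (by decide)

theorem sg_s59b : SG (([9, 9, 5, 3] : List ℕ) : Multiset ℕ) :=
  SG_of_cert _ 0 (by decide +kernel) (by decide)

/-- three triangles -/
def T3 : Multiset ℕ := Multiset.replicate 3 3
/-- six quadrangles -/
def T4 : Multiset ℕ := Multiset.replicate 6 4
/-- one 9-cycle -/
def T9 : Multiset ℕ := {9}

theorem tile_T3 : Tile T3 3 := by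
  have h : (tT.get (encL [3, 3, 3])).isSome = true := by decide +kernel
  obtain ⟨d, hd⟩ := Option.isSome_iff_exists.1 h
  exact Tile_of_get hd (by decide)

theorem tile_T4 : Tile T4 8 := by
  have h : (tT.get (encL [4, 4, 4, 4, 4, 4])).isSome = true := by decide +kernel
  obtain ⟨d, hd⟩ := Option.isSome_iff_exists.1 h
  exact Tile_of_get hd (by decide)

theorem tile_T9 : Tile T9 3 := by
  have h : (tT.get (encL [9])).isSome = true := by decide +kernel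
  obtain ⟨d, hd⟩ := Option.isSome_iff_exists.1 h
  exact Tile_of_get hd (by decide)

theorem SG_add_nsmul {S T : Multiset ℕ} {k : ℕ} (hS : SG S) (hT : Tile T k) (n : ℕ) :
    SG (S + n • T) := by
  induction n with
  | zero => simpa using hS
  | succ n ih => rw [succ_nsmul, ← add_assoc]; exact SG_add_tile ih hT

theorem SG_form {S : Multiset ℕ} (hS : SG S) (a b c : ℕ) :
    SG (S + (a • T3 + b • T4 + c • T9)) := by
  rw [← add_assoc, ← add_assoc]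
  exact SG_add_nsmul (SG_add_nsmul (SG_add_nsmul hS tile_T3 a) tile_T4 b) tile_T9 c

theorem sum_T3 : T3.sum = 9 := by decide
theorem sum_T4 : T4.sum = 24 := by decide
theorem sum_T9 : T9.sum = 9 := by decide

theorem sum_form (r : List ℕ) (a b c : ℕ) :
    ((r : Multiset ℕ) + (a • T3 + b • T4 + c • T9)).sum = r.sum + 9 * a + 24 * b + 9 * c := by
  simp only [Multiset.sum_add, Multiset.sum_nsmul, sum_T3, sum_T4, sum_T9, Multiset.sum_coe,
    smul_eq_mul]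
  ring

theorem good_form {r : List ℕ} {a b c : ℕ} (a' b' c' : ℕ) (r' : List ℕ)
    (h : (r : Multiset ℕ) + (a • T3 + b • T4 + c • T9) =
      (r' : Multiset ℕ) + (a' • T3 + b' • T4 + c' • T9)) (hs : SG (r' : Multiset ℕ))
    (hodd : (r.sum + 9 * a + 24 * b + 9 * c) % 2 = 1) :
    Good ((r : Multiset ℕ) + (a • T3 + b • T4 + c • T9)) := by
  refine SG_good (h ▸ SG_form hs a' b' c') ?_
  rw [sum_form]; exact hodd

theorem form3 {r : List ℕ} {M : Multiset ℕ} {c : ℕ} (a : ℕ)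
    (h : (r : Multiset ℕ) = Multiset.replicate c 3 + M) :
    (r : Multiset ℕ) + (a • T3 + 0 • T4 + 0 • T9) = Multiset.replicate (3 * a + c) 3 + M := by
  rw [h, zero_nsmul, zero_nsmul, add_zero, add_zero, T3, Multiset.nsmul_replicate,
    Multiset.replicate_add, mul_comm 3 a]
  abel

theorem form0 (r : List ℕ) :
    (r : Multiset ℕ) + (0 • T3 + 0 • T4 + 0 • T9) = (r : Multiset ℕ) := by
  simp

theorem exN_sub : ∀ r ∈ badL, ∀ k ∈ exN r, k = 6291456 ∨ k = 1610612736 ∨ k = 9223372036854775808 := by decide +kernel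

theorem exN_0 : exN [4] = [6291456] := by decide

theorem eg_0 (a b c : ℕ) (ha : a = 0 ∨ 6291456 ∈ ([6291456] : List ℕ))
    (hb : b = 0 ∨ 1610612736 ∈ ([6291456] : List ℕ)) (hc : c = 0 ∨ 9223372036854775808 ∈ ([6291456] : List ℕ))
    (hodd : (([4] : List ℕ).sum + 9 * a + 24 * b + 9 * c) % 2 = 1)
    (h1 : (([4] : List ℕ) : Multiset ℕ) + (a • T3 + b • T4 + c • T9) ≠ {3, 4})
    (h2 : (([4] : List ℕ) : Multiset ℕ) + (a • T3 + b • T4 + c • T9) ≠ {3, 3, 3, 4})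
    (h3 : (([4] : List ℕ) : Multiset ℕ) + (a • T3 + b • T4 + c • T9) ≠ {3, 3, 5}) :
    Good ((([4] : List ℕ) : Multiset ℕ) + (a • T3 + b • T4 + c • T9)) := by
  obtain rfl : b = 0 := by simpa using hb
  obtain rfl : c = 0 := by simpa using hc
  rw [form3 a (show (([4] : List ℕ) : Multiset ℕ) = Multiset.replicate 0 3 + {4} from by decide)]
  have ha2 : a ≠ 1 := by
    rintro rfl
    exact h2 (by decide)
  simp at hodd
  exact fam4 _ (by omega) (by omega)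

theorem exN_1 : exN [5] = [6291456] := by decide

theorem eg_1 (a b c : ℕ) (ha : a = 0 ∨ 6291456 ∈ ([6291456] : List ℕ))
    (hb : b = 0 ∨ 1610612736 ∈ ([6291456] : List ℕ)) (hc : c = 0 ∨ 9223372036854775808 ∈ ([6291456] : List ℕ))
    (hodd : (([5] : List ℕ).sum + 9 * a + 24 * b + 9 * c) % 2 = 1)
    (h1 : (([5] : List ℕ) : Multiset ℕ) + (a • T3 + b • T4 + c • T9) ≠ {3, 4})
    (h2 : (([5] : List ℕ) : Multiset ℕ) + (a • T3 + b • T4 + c • T9) ≠ {3, 3, 3, 4})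
    (h3 : (([5] : List ℕ) : Multiset ℕ) + (a • T3 + b • T4 + c • T9) ≠ {3, 3, 5}) :
    Good ((([5] : List ℕ) : Multiset ℕ) + (a • T3 + b • T4 + c • T9)) := by
  obtain rfl : b = 0 := by simpa using hb
  obtain rfl : c = 0 := by simpa using hc
  rw [form3 a (show (([5] : List ℕ) : Multiset ℕ) = Multiset.replicate 0 3 + {5} from by decide)]
  simp at hodd
  exact fam5 _ (by omega) (by omega)

theorem exN_2 : exN [6] = [6291456] := by decide

theorem eg_2 (a b c : ℕ) (ha : a = 0 ∨ 6291456 ∈ ([6291456] : List ℕ))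
    (hb : b = 0 ∨ 1610612736 ∈ ([6291456] : List ℕ)) (hc : c = 0 ∨ 9223372036854775808 ∈ ([6291456] : List ℕ))
    (hodd : (([6] : List ℕ).sum + 9 * a + 24 * b + 9 * c) % 2 = 1)
    (h1 : (([6] : List ℕ) : Multiset ℕ) + (a • T3 + b • T4 + c • T9) ≠ {3, 4})
    (h2 : (([6] : List ℕ) : Multiset ℕ) + (a • T3 + b • T4 + c • T9) ≠ {3, 3, 3, 4})
    (h3 : (([6] : List ℕ) : Multiset ℕ) + (a • T3 + b • T4 + c • T9) ≠ {3, 3, 5}) :
    Good ((([6] : List ℕ) : Multiset ℕ) + (a • T3 + b • T4 + c • T9)) := by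
  obtain rfl : b = 0 := by simpa using hb
  obtain rfl : c = 0 := by simpa using hc
  simp at hodd
  by_cases ha : a = 1
  · subst ha
    rw [show (([6] : List ℕ) : Multiset ℕ) + (1 • T3 + 0 • T4 + 0 • T9) = {3, 3, 3, 6} from
      by decide]
    exact good_3_3_3_6
  · obtain ⟨d, rfl⟩ : ∃ d, a = d + 2 := ⟨a - 2, by omega⟩
    refine good_form d 0 0 _ ?_ sg_s6 (by simp; omega)
    rw [add_nsmul, show (([6, 3, 3, 3, 3, 3, 3] : List ℕ) : Multiset ℕ) =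
      (([6] : List ℕ) : Multiset ℕ) + 2 • T3 from by decide]
    abel

theorem exN_3 : exN [4, 3] = [6291456, 1610612736] := by decide

theorem eg_3 (a b c : ℕ) (ha : a = 0 ∨ 6291456 ∈ ([6291456, 1610612736] : List ℕ))
    (hb : b = 0 ∨ 1610612736 ∈ ([6291456, 1610612736] : List ℕ)) (hc : c = 0 ∨ 9223372036854775808 ∈ ([6291456, 1610612736] : List ℕ))
    (hodd : (([4, 3] : List ℕ).sum + 9 * a + 24 * b + 9 * c) % 2 = 1)
    (h1 : (([4, 3] : List ℕ) : Multiset ℕ) + (a • T3 + b • T4 + c • T9) ≠ {3, 4})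
    (h2 : (([4, 3] : List ℕ) : Multiset ℕ) + (a • T3 + b • T4 + c • T9) ≠ {3, 3, 3, 4})
    (h3 : (([4, 3] : List ℕ) : Multiset ℕ) + (a • T3 + b • T4 + c • T9) ≠ {3, 3, 5}) :
    Good ((([4, 3] : List ℕ) : Multiset ℕ) + (a • T3 + b • T4 + c • T9)) := by
  obtain rfl : c = 0 := by simpa using hc
  simp at hodd
  by_cases hb : b = 0
  · subst hb
    rw [form3 a (show (([4, 3] : List ℕ) : Multiset ℕ) = Multiset.replicate 1 3 + {4} from
      by decide)]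
    have ha2 : a ≠ 0 := by
      rintro rfl
      exact h1 (by decide)
    exact fam4 _ (by omega) (by omega)
  · obtain ⟨e, rfl⟩ : ∃ e, b = e + 1 := ⟨b - 1, by omega⟩
    by_cases ha : a = 0
    · subst ha
      by_cases he : e = 0
      · subst he
        rw [show (([4, 3] : List ℕ) : Multiset ℕ) + (0 • T3 + (0 + 1) • T4 + 0 • T9) =
          {3, 4, 4, 4, 4, 4, 4, 4} from by decide]
        exact good_3_4x7
      · obtain ⟨g, rfl⟩ : ∃ g, e = g + 1 := ⟨e - 1, by omega⟩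
        refine good_form 0 g 0 _ ?_ sg_s413 (by simp; omega)
        rw [add_assoc g 1 1, add_nsmul, show (([4, 4, 4, 4, 4, 4, 4, 4, 4, 4, 4, 4, 4, 3] :
          List ℕ) : Multiset ℕ) = (([4, 3] : List ℕ) : Multiset ℕ) + (1 + 1) • T4 from
          by decide]
        abel
    · obtain ⟨d, rfl⟩ : ∃ d, a = d + 1 := ⟨a - 1, by omega⟩
      refine good_form d e 0 _ ?_ sg_s47a (by simp; omega)
      rw [add_nsmul, add_nsmul, show (([4, 4, 4, 4, 4, 4, 4, 3, 3, 3, 3] : List ℕ) :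
        Multiset ℕ) = (([4, 3] : List ℕ) : Multiset ℕ) + (1 • T3 + 1 • T4) from by decide]
      abel

theorem exN_4 : exN [5, 3] = [6291456, 9223372036854775808] := by decide

theorem eg_4 (a b c : ℕ) (ha : a = 0 ∨ 6291456 ∈ ([6291456, 9223372036854775808] : List ℕ))
    (hb : b = 0 ∨ 1610612736 ∈ ([6291456, 9223372036854775808] : List ℕ)) (hc : c = 0 ∨ 9223372036854775808 ∈ ([6291456, 9223372036854775808] : List ℕ))
    (hodd : (([5, 3] : List ℕ).sum + 9 * a + 24 * b + 9 * c) % 2 = 1)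
    (h1 : (([5, 3] : List ℕ) : Multiset ℕ) + (a • T3 + b • T4 + c • T9) ≠ {3, 4})
    (h2 : (([5, 3] : List ℕ) : Multiset ℕ) + (a • T3 + b • T4 + c • T9) ≠ {3, 3, 3, 4})
    (h3 : (([5, 3] : List ℕ) : Multiset ℕ) + (a • T3 + b • T4 + c • T9) ≠ {3, 3, 5}) :
    Good ((([5, 3] : List ℕ) : Multiset ℕ) + (a • T3 + b • T4 + c • T9)) := by
  obtain rfl : b = 0 := by simpa using hb
  simp at hodd
  by_cases hc : c = 0
  · subst hc
    rw [form3 a (show (([5, 3] : List ℕ) : Multiset ℕ) = Multiset.replicate 1 3 + {5} from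
      by decide)]
    exact fam5 _ (by omega) (by omega)
  · obtain ⟨e, rfl⟩ : ∃ e, c = e + 1 := ⟨c - 1, by omega⟩
    by_cases ha : a = 0
    · subst ha
      by_cases he : e = 0
      · subst he
        rw [show (([5, 3] : List ℕ) : Multiset ℕ) + (0 • T3 + 0 • T4 + (0 + 1) • T9) =
          {3, 5, 9} from by decide]
        exact good_3_5_9
      · obtain ⟨g, rfl⟩ : ∃ g, e = g + 1 := ⟨e - 1, by omega⟩
        refine good_form 0 0 g _ ?_ sg_s59b (by simp; omega)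
        rw [add_assoc g 1 1, add_nsmul, show (([9, 9, 5, 3] : List ℕ) : Multiset ℕ) =
          (([5, 3] : List ℕ) : Multiset ℕ) + (1 + 1) • T9 from by decide]
        abel
    · obtain ⟨d, rfl⟩ : ∃ d, a = d + 1 := ⟨a - 1, by omega⟩
      refine good_form d 0 e _ ?_ sg_s59a (by simp; omega)
      rw [add_nsmul, add_nsmul, show (([9, 5, 3, 3, 3, 3] : List ℕ) : Multiset ℕ) =
        (([5, 3] : List ℕ) : Multiset ℕ) + (1 • T3 + 1 • T9) from by decide]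
      abel

theorem exN_5 : exN [4, 4] = [6291456, 1610612736] := by decide

theorem eg_5 (a b c : ℕ) (ha : a = 0 ∨ 6291456 ∈ ([6291456, 1610612736] : List ℕ))
    (hb : b = 0 ∨ 1610612736 ∈ ([6291456, 1610612736] : List ℕ)) (hc : c = 0 ∨ 9223372036854775808 ∈ ([6291456, 1610612736] : List ℕ))
    (hodd : (([4, 4] : List ℕ).sum + 9 * a + 24 * b + 9 * c) % 2 = 1)
    (h1 : (([4, 4] : List ℕ) : Multiset ℕ) + (a • T3 + b • T4 + c • T9) ≠ {3, 4})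
    (h2 : (([4, 4] : List ℕ) : Multiset ℕ) + (a • T3 + b • T4 + c • T9) ≠ {3, 3, 3, 4})
    (h3 : (([4, 4] : List ℕ) : Multiset ℕ) + (a • T3 + b • T4 + c • T9) ≠ {3, 3, 5}) :
    Good ((([4, 4] : List ℕ) : Multiset ℕ) + (a • T3 + b • T4 + c • T9)) := by
  obtain rfl : c = 0 := by simpa using hc
  simp at hodd
  by_cases hb : b = 0
  · subst hb
    rw [form3 a (show (([4, 4] : List ℕ) : Multiset ℕ) = Multiset.replicate 0 3 + {4, 4} from
      by decide)]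
    exact fam44 _ (by omega)
  · obtain ⟨d, rfl⟩ : ∃ d, a = d + 1 := ⟨a - 1, by omega⟩
    obtain ⟨e, rfl⟩ : ∃ e, b = e + 1 := ⟨b - 1, by omega⟩
    refine good_form d e 0 _ ?_ sg_s48a (by simp; omega)
    rw [add_nsmul, add_nsmul, show (([4, 4, 4, 4, 4, 4, 4, 4, 3, 3, 3] : List ℕ) :
      Multiset ℕ) = (([4, 4] : List ℕ) : Multiset ℕ) + (1 • T3 + 1 • T4) from by decide]
    abel

theorem exN_6 : exN [8] = [6291456] := by decide

theorem eg_6 (a b c : ℕ) (ha : a = 0 ∨ 6291456 ∈ ([6291456] : List ℕ))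
    (hb : b = 0 ∨ 1610612736 ∈ ([6291456] : List ℕ)) (hc : c = 0 ∨ 9223372036854775808 ∈ ([6291456] : List ℕ))
    (hodd : (([8] : List ℕ).sum + 9 * a + 24 * b + 9 * c) % 2 = 1)
    (h1 : (([8] : List ℕ) : Multiset ℕ) + (a • T3 + b • T4 + c • T9) ≠ {3, 4})
    (h2 : (([8] : List ℕ) : Multiset ℕ) + (a • T3 + b • T4 + c • T9) ≠ {3, 3, 3, 4})
    (h3 : (([8] : List ℕ) : Multiset ℕ) + (a • T3 + b • T4 + c • T9) ≠ {3, 3, 5}) :
    Good ((([8] : List ℕ) : Multiset ℕ) + (a • T3 + b • T4 + c • T9)) := by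
  obtain rfl : b = 0 := by simpa using hb
  obtain rfl : c = 0 := by simpa using hc
  simp at hodd
  by_cases ha : a = 1
  · subst ha
    rw [show (([8] : List ℕ) : Multiset ℕ) + (1 • T3 + 0 • T4 + 0 • T9) = {3, 3, 3, 8} from
      by decide]
    exact good_3_3_3_8
  · obtain ⟨d, rfl⟩ : ∃ d, a = d + 2 := ⟨a - 2, by omega⟩
    refine good_form d 0 0 _ ?_ sg_s8 (by simp; omega)
    rw [add_nsmul, show (([8, 3, 3, 3, 3, 3, 3] : List ℕ) : Multiset ℕ) =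
      (([8] : List ℕ) : Multiset ℕ) + 2 • T3 from by decide]
    abel

theorem exN_7 : exN [6, 3] = [] := by decide

theorem eg_7 (a b c : ℕ) (ha : a = 0 ∨ 6291456 ∈ ([] : List ℕ))
    (hb : b = 0 ∨ 1610612736 ∈ ([] : List ℕ)) (hc : c = 0 ∨ 9223372036854775808 ∈ ([] : List ℕ))
    (hodd : (([6, 3] : List ℕ).sum + 9 * a + 24 * b + 9 * c) % 2 = 1)
    (h1 : (([6, 3] : List ℕ) : Multiset ℕ) + (a • T3 + b • T4 + c • T9) ≠ {3, 4})
    (h2 : (([6, 3] : List ℕ) : Multiset ℕ) + (a • T3 + b • T4 + c • T9) ≠ {3, 3, 3, 4})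
    (h3 : (([6, 3] : List ℕ) : Multiset ℕ) + (a • T3 + b • T4 + c • T9) ≠ {3, 3, 5}) :
    Good ((([6, 3] : List ℕ) : Multiset ℕ) + (a • T3 + b • T4 + c • T9)) := by
  obtain rfl : a = 0 := by simpa using ha
  obtain rfl : b = 0 := by simpa using hb
  obtain rfl : c = 0 := by simpa using hc
  rw [form0, show (([6, 3] : List ℕ) : Multiset ℕ) = {3, 6} from by decide]
  exact good_3_6

theorem exN_8 : exN [5, 4] = [] := by decide

theorem eg_8 (a b c : ℕ) (ha : a = 0 ∨ 6291456 ∈ ([] : List ℕ))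
    (hb : b = 0 ∨ 1610612736 ∈ ([] : List ℕ)) (hc : c = 0 ∨ 9223372036854775808 ∈ ([] : List ℕ))
    (hodd : (([5, 4] : List ℕ).sum + 9 * a + 24 * b + 9 * c) % 2 = 1)
    (h1 : (([5, 4] : List ℕ) : Multiset ℕ) + (a • T3 + b • T4 + c • T9) ≠ {3, 4})
    (h2 : (([5, 4] : List ℕ) : Multiset ℕ) + (a • T3 + b • T4 + c • T9) ≠ {3, 3, 3, 4})
    (h3 : (([5, 4] : List ℕ) : Multiset ℕ) + (a • T3 + b • T4 + c • T9) ≠ {3, 3, 5}) :
    Good ((([5, 4] : List ℕ) : Multiset ℕ) + (a • T3 + b • T4 + c • T9)) := by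
  obtain rfl : a = 0 := by simpa using ha
  obtain rfl : b = 0 := by simpa using hb
  obtain rfl : c = 0 := by simpa using hc
  rw [form0, show (([5, 4] : List ℕ) : Multiset ℕ) = Multiset.replicate 0 3 + {4, 5} from by decide]
  exact fam45 0 rfl

theorem exN_9 : exN [4, 3, 3] = [6291456] := by decide

theorem eg_9 (a b c : ℕ) (ha : a = 0 ∨ 6291456 ∈ ([6291456] : List ℕ))
    (hb : b = 0 ∨ 1610612736 ∈ ([6291456] : List ℕ)) (hc : c = 0 ∨ 9223372036854775808 ∈ ([6291456] : List ℕ))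
    (hodd : (([4, 3, 3] : List ℕ).sum + 9 * a + 24 * b + 9 * c) % 2 = 1)
    (h1 : (([4, 3, 3] : List ℕ) : Multiset ℕ) + (a • T3 + b • T4 + c • T9) ≠ {3, 4})
    (h2 : (([4, 3, 3] : List ℕ) : Multiset ℕ) + (a • T3 + b • T4 + c • T9) ≠ {3, 3, 3, 4})
    (h3 : (([4, 3, 3] : List ℕ) : Multiset ℕ) + (a • T3 + b • T4 + c • T9) ≠ {3, 3, 5}) :
    Good ((([4, 3, 3] : List ℕ) : Multiset ℕ) + (a • T3 + b • T4 + c • T9)) := by
  obtain rfl : b = 0 := by simpa using hb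
  obtain rfl : c = 0 := by simpa using hc
  rw [form3 a (show (([4, 3, 3] : List ℕ) : Multiset ℕ) = Multiset.replicate 2 3 + {4} from
    by decide)]
  simp at hodd
  exact fam4 _ (by omega) (by omega)

theorem exN_10 : exN [7, 3] = [] := by decide

theorem eg_10 (a b c : ℕ) (ha : a = 0 ∨ 6291456 ∈ ([] : List ℕ))
    (hb : b = 0 ∨ 1610612736 ∈ ([] : List ℕ)) (hc : c = 0 ∨ 9223372036854775808 ∈ ([] : List ℕ))
    (hodd : (([7, 3] : List ℕ).sum + 9 * a + 24 * b + 9 * c) % 2 = 1)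
    (h1 : (([7, 3] : List ℕ) : Multiset ℕ) + (a • T3 + b • T4 + c • T9) ≠ {3, 4})
    (h2 : (([7, 3] : List ℕ) : Multiset ℕ) + (a • T3 + b • T4 + c • T9) ≠ {3, 3, 3, 4})
    (h3 : (([7, 3] : List ℕ) : Multiset ℕ) + (a • T3 + b • T4 + c • T9) ≠ {3, 3, 5}) :
    Good ((([7, 3] : List ℕ) : Multiset ℕ) + (a • T3 + b • T4 + c • T9)) := by
  obtain rfl : a = 0 := by simpa using ha
  obtain rfl : b = 0 := by simpa using hb
  obtain rfl : c = 0 := by simpa using hc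
  exfalso
  simp at hodd

theorem exN_11 : exN [6, 4] = [] := by decide

theorem eg_11 (a b c : ℕ) (ha : a = 0 ∨ 6291456 ∈ ([] : List ℕ))
    (hb : b = 0 ∨ 1610612736 ∈ ([] : List ℕ)) (hc : c = 0 ∨ 9223372036854775808 ∈ ([] : List ℕ))
    (hodd : (([6, 4] : List ℕ).sum + 9 * a + 24 * b + 9 * c) % 2 = 1)
    (h1 : (([6, 4] : List ℕ) : Multiset ℕ) + (a • T3 + b • T4 + c • T9) ≠ {3, 4})
    (h2 : (([6, 4] : List ℕ) : Multiset ℕ) + (a • T3 + b • T4 + c • T9) ≠ {3, 3, 3, 4})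
    (h3 : (([6, 4] : List ℕ) : Multiset ℕ) + (a • T3 + b • T4 + c • T9) ≠ {3, 3, 5}) :
    Good ((([6, 4] : List ℕ) : Multiset ℕ) + (a • T3 + b • T4 + c • T9)) := by
  obtain rfl : a = 0 := by simpa using ha
  obtain rfl : b = 0 := by simpa using hb
  obtain rfl : c = 0 := by simpa using hc
  exfalso
  simp at hodd

theorem exN_12 : exN [5, 5] = [] := by decide

theorem eg_12 (a b c : ℕ) (ha : a = 0 ∨ 6291456 ∈ ([] : List ℕ))
    (hb : b = 0 ∨ 1610612736 ∈ ([] : List ℕ)) (hc : c = 0 ∨ 9223372036854775808 ∈ ([] : List ℕ))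
    (hodd : (([5, 5] : List ℕ).sum + 9 * a + 24 * b + 9 * c) % 2 = 1)
    (h1 : (([5, 5] : List ℕ) : Multiset ℕ) + (a • T3 + b • T4 + c • T9) ≠ {3, 4})
    (h2 : (([5, 5] : List ℕ) : Multiset ℕ) + (a • T3 + b • T4 + c • T9) ≠ {3, 3, 3, 4})
    (h3 : (([5, 5] : List ℕ) : Multiset ℕ) + (a • T3 + b • T4 + c • T9) ≠ {3, 3, 5}) :
    Good ((([5, 5] : List ℕ) : Multiset ℕ) + (a • T3 + b • T4 + c • T9)) := by
  obtain rfl : a = 0 := by simpa using ha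
  obtain rfl : b = 0 := by simpa using hb
  obtain rfl : c = 0 := by simpa using hc
  exfalso
  simp at hodd

theorem exN_13 : exN [10] = [] := by decide

theorem eg_13 (a b c : ℕ) (ha : a = 0 ∨ 6291456 ∈ ([] : List ℕ))
    (hb : b = 0 ∨ 1610612736 ∈ ([] : List ℕ)) (hc : c = 0 ∨ 9223372036854775808 ∈ ([] : List ℕ))
    (hodd : (([10] : List ℕ).sum + 9 * a + 24 * b + 9 * c) % 2 = 1)
    (h1 : (([10] : List ℕ) : Multiset ℕ) + (a • T3 + b • T4 + c • T9) ≠ {3, 4})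
    (h2 : (([10] : List ℕ) : Multiset ℕ) + (a • T3 + b • T4 + c • T9) ≠ {3, 3, 3, 4})
    (h3 : (([10] : List ℕ) : Multiset ℕ) + (a • T3 + b • T4 + c • T9) ≠ {3, 3, 5}) :
    Good ((([10] : List ℕ) : Multiset ℕ) + (a • T3 + b • T4 + c • T9)) := by
  obtain rfl : a = 0 := by simpa using ha
  obtain rfl : b = 0 := by simpa using hb
  obtain rfl : c = 0 := by simpa using hc
  exfalso
  simp at hodd

theorem exN_14 : exN [5, 3, 3] = [6291456] := by decide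

theorem eg_14 (a b c : ℕ) (ha : a = 0 ∨ 6291456 ∈ ([6291456] : List ℕ))
    (hb : b = 0 ∨ 1610612736 ∈ ([6291456] : List ℕ)) (hc : c = 0 ∨ 9223372036854775808 ∈ ([6291456] : List ℕ))
    (hodd : (([5, 3, 3] : List ℕ).sum + 9 * a + 24 * b + 9 * c) % 2 = 1)
    (h1 : (([5, 3, 3] : List ℕ) : Multiset ℕ) + (a • T3 + b • T4 + c • T9) ≠ {3, 4})
    (h2 : (([5, 3, 3] : List ℕ) : Multiset ℕ) + (a • T3 + b • T4 + c • T9) ≠ {3, 3, 3, 4})
    (h3 : (([5, 3, 3] : List ℕ) : Multiset ℕ) + (a • T3 + b • T4 + c • T9) ≠ {3, 3, 5}) :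
    Good ((([5, 3, 3] : List ℕ) : Multiset ℕ) + (a • T3 + b • T4 + c • T9)) := by
  obtain rfl : b = 0 := by simpa using hb
  obtain rfl : c = 0 := by simpa using hc
  rw [form3 a (show (([5, 3, 3] : List ℕ) : Multiset ℕ) = Multiset.replicate 2 3 + {5} from
    by decide)]
  have ha2 : a ≠ 0 := by
    rintro rfl
    exact h3 (by decide)
  simp at hodd
  exact fam5 _ (by omega) (by omega)

theorem exN_15 : exN [4, 4, 3] = [6291456] := by decide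

theorem eg_15 (a b c : ℕ) (ha : a = 0 ∨ 6291456 ∈ ([6291456] : List ℕ))
    (hb : b = 0 ∨ 1610612736 ∈ ([6291456] : List ℕ)) (hc : c = 0 ∨ 9223372036854775808 ∈ ([6291456] : List ℕ))
    (hodd : (([4, 4, 3] : List ℕ).sum + 9 * a + 24 * b + 9 * c) % 2 = 1)
    (h1 : (([4, 4, 3] : List ℕ) : Multiset ℕ) + (a • T3 + b • T4 + c • T9) ≠ {3, 4})
    (h2 : (([4, 4, 3] : List ℕ) : Multiset ℕ) + (a • T3 + b • T4 + c • T9) ≠ {3, 3, 3, 4})
    (h3 : (([4, 4, 3] : List ℕ) : Multiset ℕ) + (a • T3 + b • T4 + c • T9) ≠ {3, 3, 5}) :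
    Good ((([4, 4, 3] : List ℕ) : Multiset ℕ) + (a • T3 + b • T4 + c • T9)) := by
  obtain rfl : b = 0 := by simpa using hb
  obtain rfl : c = 0 := by simpa using hc
  rw [form3 a (show (([4, 4, 3] : List ℕ) : Multiset ℕ) = Multiset.replicate 1 3 + {4, 4} from
    by decide)]
  simp at hodd
  exact fam44 _ (by omega)

theorem exN_16 : exN [7, 4] = [6291456] := by decide

theorem eg_16 (a b c : ℕ) (ha : a = 0 ∨ 6291456 ∈ ([6291456] : List ℕ))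
    (hb : b = 0 ∨ 1610612736 ∈ ([6291456] : List ℕ)) (hc : c = 0 ∨ 9223372036854775808 ∈ ([6291456] : List ℕ))
    (hodd : (([7, 4] : List ℕ).sum + 9 * a + 24 * b + 9 * c) % 2 = 1)
    (h1 : (([7, 4] : List ℕ) : Multiset ℕ) + (a • T3 + b • T4 + c • T9) ≠ {3, 4})
    (h2 : (([7, 4] : List ℕ) : Multiset ℕ) + (a • T3 + b • T4 + c • T9) ≠ {3, 3, 3, 4})
    (h3 : (([7, 4] : List ℕ) : Multiset ℕ) + (a • T3 + b • T4 + c • T9) ≠ {3, 3, 5}) :
    Good ((([7, 4] : List ℕ) : Multiset ℕ) + (a • T3 + b • T4 + c • T9)) := by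
  obtain rfl : b = 0 := by simpa using hb
  obtain rfl : c = 0 := by simpa using hc
  rw [form3 a (show (([7, 4] : List ℕ) : Multiset ℕ) = Multiset.replicate 0 3 + {4, 7} from
    by decide)]
  simp at hodd
  exact fam47 _ (by omega)

theorem exN_17 : exN [6, 5] = [] := by decide

theorem eg_17 (a b c : ℕ) (ha : a = 0 ∨ 6291456 ∈ ([] : List ℕ))
    (hb : b = 0 ∨ 1610612736 ∈ ([] : List ℕ)) (hc : c = 0 ∨ 9223372036854775808 ∈ ([] : List ℕ))
    (hodd : (([6, 5] : List ℕ).sum + 9 * a + 24 * b + 9 * c) % 2 = 1)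
    (h1 : (([6, 5] : List ℕ) : Multiset ℕ) + (a • T3 + b • T4 + c • T9) ≠ {3, 4})
    (h2 : (([6, 5] : List ℕ) : Multiset ℕ) + (a • T3 + b • T4 + c • T9) ≠ {3, 3, 3, 4})
    (h3 : (([6, 5] : List ℕ) : Multiset ℕ) + (a • T3 + b • T4 + c • T9) ≠ {3, 3, 5}) :
    Good ((([6, 5] : List ℕ) : Multiset ℕ) + (a • T3 + b • T4 + c • T9)) := by
  obtain rfl : a = 0 := by simpa using ha
  obtain rfl : b = 0 := by simpa using hb
  obtain rfl : c = 0 := by simpa using hc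
  rw [form0, show (([6, 5] : List ℕ) : Multiset ℕ) = {5, 6} from by decide]
  exact good_5_6

theorem exN_18 : exN [11] = [] := by decide

theorem eg_18 (a b c : ℕ) (ha : a = 0 ∨ 6291456 ∈ ([] : List ℕ))
    (hb : b = 0 ∨ 1610612736 ∈ ([] : List ℕ)) (hc : c = 0 ∨ 9223372036854775808 ∈ ([] : List ℕ))
    (hodd : (([11] : List ℕ).sum + 9 * a + 24 * b + 9 * c) % 2 = 1)
    (h1 : (([11] : List ℕ) : Multiset ℕ) + (a • T3 + b • T4 + c • T9) ≠ {3, 4})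
    (h2 : (([11] : List ℕ) : Multiset ℕ) + (a • T3 + b • T4 + c • T9) ≠ {3, 3, 3, 4})
    (h3 : (([11] : List ℕ) : Multiset ℕ) + (a • T3 + b • T4 + c • T9) ≠ {3, 3, 5}) :
    Good ((([11] : List ℕ) : Multiset ℕ) + (a • T3 + b • T4 + c • T9)) := by
  obtain rfl : a = 0 := by simpa using ha
  obtain rfl : b = 0 := by simpa using hb
  obtain rfl : c = 0 := by simpa using hc
  rw [form0, show (([11] : List ℕ) : Multiset ℕ) = {11} from by decide]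
  exact good_11

theorem exN_19 : exN [4, 4, 4] = [] := by decide

theorem eg_19 (a b c : ℕ) (ha : a = 0 ∨ 6291456 ∈ ([] : List ℕ))
    (hb : b = 0 ∨ 1610612736 ∈ ([] : List ℕ)) (hc : c = 0 ∨ 9223372036854775808 ∈ ([] : List ℕ))
    (hodd : (([4, 4, 4] : List ℕ).sum + 9 * a + 24 * b + 9 * c) % 2 = 1)
    (h1 : (([4, 4, 4] : List ℕ) : Multiset ℕ) + (a • T3 + b • T4 + c • T9) ≠ {3, 4})
    (h2 : (([4, 4, 4] : List ℕ) : Multiset ℕ) + (a • T3 + b • T4 + c • T9) ≠ {3, 3, 3, 4})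
    (h3 : (([4, 4, 4] : List ℕ) : Multiset ℕ) + (a • T3 + b • T4 + c • T9) ≠ {3, 3, 5}) :
    Good ((([4, 4, 4] : List ℕ) : Multiset ℕ) + (a • T3 + b • T4 + c • T9)) := by
  obtain rfl : a = 0 := by simpa using ha
  obtain rfl : b = 0 := by simpa using hb
  obtain rfl : c = 0 := by simpa using hc
  exfalso
  simp at hodd

theorem exN_20 : exN [8, 4] = [] := by decide

theorem eg_20 (a b c : ℕ) (ha : a = 0 ∨ 6291456 ∈ ([] : List ℕ))
    (hb : b = 0 ∨ 1610612736 ∈ ([] : List ℕ)) (hc : c = 0 ∨ 9223372036854775808 ∈ ([] : List ℕ))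
    (hodd : (([8, 4] : List ℕ).sum + 9 * a + 24 * b + 9 * c) % 2 = 1)
    (h1 : (([8, 4] : List ℕ) : Multiset ℕ) + (a • T3 + b • T4 + c • T9) ≠ {3, 4})
    (h2 : (([8, 4] : List ℕ) : Multiset ℕ) + (a • T3 + b • T4 + c • T9) ≠ {3, 3, 3, 4})
    (h3 : (([8, 4] : List ℕ) : Multiset ℕ) + (a • T3 + b • T4 + c • T9) ≠ {3, 3, 5}) :
    Good ((([8, 4] : List ℕ) : Multiset ℕ) + (a • T3 + b • T4 + c • T9)) := by
  obtain rfl : a = 0 := by simpa using ha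
  obtain rfl : b = 0 := by simpa using hb
  obtain rfl : c = 0 := by simpa using hc
  exfalso
  simp at hodd

theorem exN_21 : exN [7, 5] = [6291456] := by decide

theorem eg_21 (a b c : ℕ) (ha : a = 0 ∨ 6291456 ∈ ([6291456] : List ℕ))
    (hb : b = 0 ∨ 1610612736 ∈ ([6291456] : List ℕ)) (hc : c = 0 ∨ 9223372036854775808 ∈ ([6291456] : List ℕ))
    (hodd : (([7, 5] : List ℕ).sum + 9 * a + 24 * b + 9 * c) % 2 = 1)
    (h1 : (([7, 5] : List ℕ) : Multiset ℕ) + (a • T3 + b • T4 + c • T9) ≠ {3, 4})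
    (h2 : (([7, 5] : List ℕ) : Multiset ℕ) + (a • T3 + b • T4 + c • T9) ≠ {3, 3, 3, 4})
    (h3 : (([7, 5] : List ℕ) : Multiset ℕ) + (a • T3 + b • T4 + c • T9) ≠ {3, 3, 5}) :
    Good ((([7, 5] : List ℕ) : Multiset ℕ) + (a • T3 + b • T4 + c • T9)) := by
  obtain rfl : b = 0 := by simpa using hb
  obtain rfl : c = 0 := by simpa using hc
  simp at hodd
  by_cases ha : a = 1
  · subst ha
    rw [show (([7, 5] : List ℕ) : Multiset ℕ) + (1 • T3 + 0 • T4 + 0 • T9) = {3, 3, 3, 5, 7} from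
      by decide]
    exact good_3_3_3_5_7
  · obtain ⟨d, rfl⟩ : ∃ d, a = d + 2 := ⟨a - 2, by omega⟩
    refine good_form d 0 0 _ ?_ sg_s57 (by simp; omega)
    rw [add_nsmul, show (([7, 5, 3, 3, 3, 3, 3, 3] : List ℕ) : Multiset ℕ) =
      (([7, 5] : List ℕ) : Multiset ℕ) + 2 • T3 from by decide]
    abel

theorem exN_22 : exN [6, 6] = [] := by decide

theorem eg_22 (a b c : ℕ) (ha : a = 0 ∨ 6291456 ∈ ([] : List ℕ))
    (hb : b = 0 ∨ 1610612736 ∈ ([] : List ℕ)) (hc : c = 0 ∨ 9223372036854775808 ∈ ([] : List ℕ))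
    (hodd : (([6, 6] : List ℕ).sum + 9 * a + 24 * b + 9 * c) % 2 = 1)
    (h1 : (([6, 6] : List ℕ) : Multiset ℕ) + (a • T3 + b • T4 + c • T9) ≠ {3, 4})
    (h2 : (([6, 6] : List ℕ) : Multiset ℕ) + (a • T3 + b • T4 + c • T9) ≠ {3, 3, 3, 4})
    (h3 : (([6, 6] : List ℕ) : Multiset ℕ) + (a • T3 + b • T4 + c • T9) ≠ {3, 3, 5}) :
    Good ((([6, 6] : List ℕ) : Multiset ℕ) + (a • T3 + b • T4 + c • T9)) := by
  obtain rfl : a = 0 := by simpa using ha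
  obtain rfl : b = 0 := by simpa using hb
  obtain rfl : c = 0 := by simpa using hc
  exfalso
  simp at hodd

theorem exN_23 : exN [12] = [] := by decide

theorem eg_23 (a b c : ℕ) (ha : a = 0 ∨ 6291456 ∈ ([] : List ℕ))
    (hb : b = 0 ∨ 1610612736 ∈ ([] : List ℕ)) (hc : c = 0 ∨ 9223372036854775808 ∈ ([] : List ℕ))
    (hodd : (([12] : List ℕ).sum + 9 * a + 24 * b + 9 * c) % 2 = 1)
    (h1 : (([12] : List ℕ) : Multiset ℕ) + (a • T3 + b • T4 + c • T9) ≠ {3, 4})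
    (h2 : (([12] : List ℕ) : Multiset ℕ) + (a • T3 + b • T4 + c • T9) ≠ {3, 3, 3, 4})
    (h3 : (([12] : List ℕ) : Multiset ℕ) + (a • T3 + b • T4 + c • T9) ≠ {3, 3, 5}) :
    Good ((([12] : List ℕ) : Multiset ℕ) + (a • T3 + b • T4 + c • T9)) := by
  obtain rfl : a = 0 := by simpa using ha
  obtain rfl : b = 0 := by simpa using hb
  obtain rfl : c = 0 := by simpa using hc
  exfalso
  simp at hodd

theorem exN_24 : exN [5, 4, 4] = [] := by decide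

theorem eg_24 (a b c : ℕ) (ha : a = 0 ∨ 6291456 ∈ ([] : List ℕ))
    (hb : b = 0 ∨ 1610612736 ∈ ([] : List ℕ)) (hc : c = 0 ∨ 9223372036854775808 ∈ ([] : List ℕ))
    (hodd : (([5, 4, 4] : List ℕ).sum + 9 * a + 24 * b + 9 * c) % 2 = 1)
    (h1 : (([5, 4, 4] : List ℕ) : Multiset ℕ) + (a • T3 + b • T4 + c • T9) ≠ {3, 4})
    (h2 : (([5, 4, 4] : List ℕ) : Multiset ℕ) + (a • T3 + b • T4 + c • T9) ≠ {3, 3, 3, 4})
    (h3 : (([5, 4, 4] : List ℕ) : Multiset ℕ) + (a • T3 + b • T4 + c • T9) ≠ {3, 3, 5}) :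
    Good ((([5, 4, 4] : List ℕ) : Multiset ℕ) + (a • T3 + b • T4 + c • T9)) := by
  obtain rfl : a = 0 := by simpa using ha
  obtain rfl : b = 0 := by simpa using hb
  obtain rfl : c = 0 := by simpa using hc
  rw [form0, show (([5, 4, 4] : List ℕ) : Multiset ℕ) = {4, 4, 5} from by decide]
  exact good_4_4_5

theorem exN_25 : exN [4, 4, 3, 3] = [6291456, 1610612736] := by decide

theorem eg_25 (a b c : ℕ) (ha : a = 0 ∨ 6291456 ∈ ([6291456, 1610612736] : List ℕ))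
    (hb : b = 0 ∨ 1610612736 ∈ ([6291456, 1610612736] : List ℕ)) (hc : c = 0 ∨ 9223372036854775808 ∈ ([6291456, 1610612736] : List ℕ))
    (hodd : (([4, 4, 3, 3] : List ℕ).sum + 9 * a + 24 * b + 9 * c) % 2 = 1)
    (h1 : (([4, 4, 3, 3] : List ℕ) : Multiset ℕ) + (a • T3 + b • T4 + c • T9) ≠ {3, 4})
    (h2 : (([4, 4, 3, 3] : List ℕ) : Multiset ℕ) + (a • T3 + b • T4 + c • T9) ≠ {3, 3, 3, 4})
    (h3 : (([4, 4, 3, 3] : List ℕ) : Multiset ℕ) + (a • T3 + b • T4 + c • T9) ≠ {3, 3, 5}) :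
    Good ((([4, 4, 3, 3] : List ℕ) : Multiset ℕ) + (a • T3 + b • T4 + c • T9)) := by
  obtain rfl : c = 0 := by simpa using hc
  simp at hodd
  by_cases hb : b = 0
  · subst hb
    rw [form3 a (show (([4, 4, 3, 3] : List ℕ) : Multiset ℕ) = Multiset.replicate 2 3 + {4, 4} from
      by decide)]
    exact fam44 _ (by omega)
  · obtain ⟨d, rfl⟩ : ∃ d, a = d + 1 := ⟨a - 1, by omega⟩
    obtain ⟨e, rfl⟩ : ∃ e, b = e + 1 := ⟨b - 1, by omega⟩
    refine good_form d e 0 _ ?_ sg_s48b (by simp; omega)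
    rw [add_nsmul, add_nsmul, show (([4, 4, 4, 4, 4, 4, 4, 4, 3, 3, 3, 3, 3] : List ℕ) :
      Multiset ℕ) = (([4, 4, 3, 3] : List ℕ) : Multiset ℕ) + (1 • T3 + 1 • T4) from by decide]
    abel

theorem exN_26 : exN [7, 4, 3] = [] := by decide

theorem eg_26 (a b c : ℕ) (ha : a = 0 ∨ 6291456 ∈ ([] : List ℕ))
    (hb : b = 0 ∨ 1610612736 ∈ ([] : List ℕ)) (hc : c = 0 ∨ 9223372036854775808 ∈ ([] : List ℕ))
    (hodd : (([7, 4, 3] : List ℕ).sum + 9 * a + 24 * b + 9 * c) % 2 = 1)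
    (h1 : (([7, 4, 3] : List ℕ) : Multiset ℕ) + (a • T3 + b • T4 + c • T9) ≠ {3, 4})
    (h2 : (([7, 4, 3] : List ℕ) : Multiset ℕ) + (a • T3 + b • T4 + c • T9) ≠ {3, 3, 3, 4})
    (h3 : (([7, 4, 3] : List ℕ) : Multiset ℕ) + (a • T3 + b • T4 + c • T9) ≠ {3, 3, 5}) :
    Good ((([7, 4, 3] : List ℕ) : Multiset ℕ) + (a • T3 + b • T4 + c • T9)) := by
  obtain rfl : a = 0 := by simpa using ha
  obtain rfl : b = 0 := by simpa using hb
  obtain rfl : c = 0 := by simpa using hc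
  exfalso
  simp at hodd

theorem exN_27 : exN [6, 5, 3] = [] := by decide

theorem eg_27 (a b c : ℕ) (ha : a = 0 ∨ 6291456 ∈ ([] : List ℕ))
    (hb : b = 0 ∨ 1610612736 ∈ ([] : List ℕ)) (hc : c = 0 ∨ 9223372036854775808 ∈ ([] : List ℕ))
    (hodd : (([6, 5, 3] : List ℕ).sum + 9 * a + 24 * b + 9 * c) % 2 = 1)
    (h1 : (([6, 5, 3] : List ℕ) : Multiset ℕ) + (a • T3 + b • T4 + c • T9) ≠ {3, 4})
    (h2 : (([6, 5, 3] : List ℕ) : Multiset ℕ) + (a • T3 + b • T4 + c • T9) ≠ {3, 3, 3, 4})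
    (h3 : (([6, 5, 3] : List ℕ) : Multiset ℕ) + (a • T3 + b • T4 + c • T9) ≠ {3, 3, 5}) :
    Good ((([6, 5, 3] : List ℕ) : Multiset ℕ) + (a • T3 + b • T4 + c • T9)) := by
  obtain rfl : a = 0 := by simpa using ha
  obtain rfl : b = 0 := by simpa using hb
  obtain rfl : c = 0 := by simpa using hc
  exfalso
  simp at hodd

theorem exN_28 : exN [5, 5, 4] = [] := by decide

theorem eg_28 (a b c : ℕ) (ha : a = 0 ∨ 6291456 ∈ ([] : List ℕ))
    (hb : b = 0 ∨ 1610612736 ∈ ([] : List ℕ)) (hc : c = 0 ∨ 9223372036854775808 ∈ ([] : List ℕ))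
    (hodd : (([5, 5, 4] : List ℕ).sum + 9 * a + 24 * b + 9 * c) % 2 = 1)
    (h1 : (([5, 5, 4] : List ℕ) : Multiset ℕ) + (a • T3 + b • T4 + c • T9) ≠ {3, 4})
    (h2 : (([5, 5, 4] : List ℕ) : Multiset ℕ) + (a • T3 + b • T4 + c • T9) ≠ {3, 3, 3, 4})
    (h3 : (([5, 5, 4] : List ℕ) : Multiset ℕ) + (a • T3 + b • T4 + c • T9) ≠ {3, 3, 5}) :
    Good ((([5, 5, 4] : List ℕ) : Multiset ℕ) + (a • T3 + b • T4 + c • T9)) := by
  obtain rfl : a = 0 := by simpa using ha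
  obtain rfl : b = 0 := by simpa using hb
  obtain rfl : c = 0 := by simpa using hc
  exfalso
  simp at hodd

theorem exN_29 : exN [5, 4, 3, 3] = [6291456] := by decide

theorem eg_29 (a b c : ℕ) (ha : a = 0 ∨ 6291456 ∈ ([6291456] : List ℕ))
    (hb : b = 0 ∨ 1610612736 ∈ ([6291456] : List ℕ)) (hc : c = 0 ∨ 9223372036854775808 ∈ ([6291456] : List ℕ))
    (hodd : (([5, 4, 3, 3] : List ℕ).sum + 9 * a + 24 * b + 9 * c) % 2 = 1)
    (h1 : (([5, 4, 3, 3] : List ℕ) : Multiset ℕ) + (a • T3 + b • T4 + c • T9) ≠ {3, 4})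
    (h2 : (([5, 4, 3, 3] : List ℕ) : Multiset ℕ) + (a • T3 + b • T4 + c • T9) ≠ {3, 3, 3, 4})
    (h3 : (([5, 4, 3, 3] : List ℕ) : Multiset ℕ) + (a • T3 + b • T4 + c • T9) ≠ {3, 3, 5}) :
    Good ((([5, 4, 3, 3] : List ℕ) : Multiset ℕ) + (a • T3 + b • T4 + c • T9)) := by
  obtain rfl : b = 0 := by simpa using hb
  obtain rfl : c = 0 := by simpa using hc
  rw [form3 a (show (([5, 4, 3, 3] : List ℕ) : Multiset ℕ) =
    Multiset.replicate 2 3 + {4, 5} from by decide)]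
  simp at hodd
  exact fam45 _ (by omega)

theorem exN_30 : exN [6, 4, 4, 3] = [] := by decide

theorem eg_30 (a b c : ℕ) (ha : a = 0 ∨ 6291456 ∈ ([] : List ℕ))
    (hb : b = 0 ∨ 1610612736 ∈ ([] : List ℕ)) (hc : c = 0 ∨ 9223372036854775808 ∈ ([] : List ℕ))
    (hodd : (([6, 4, 4, 3] : List ℕ).sum + 9 * a + 24 * b + 9 * c) % 2 = 1)
    (h1 : (([6, 4, 4, 3] : List ℕ) : Multiset ℕ) + (a • T3 + b • T4 + c • T9) ≠ {3, 4})
    (h2 : (([6, 4, 4, 3] : List ℕ) : Multiset ℕ) + (a • T3 + b • T4 + c • T9) ≠ {3, 3, 3, 4})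
    (h3 : (([6, 4, 4, 3] : List ℕ) : Multiset ℕ) + (a • T3 + b • T4 + c • T9) ≠ {3, 3, 5}) :
    Good ((([6, 4, 4, 3] : List ℕ) : Multiset ℕ) + (a • T3 + b • T4 + c • T9)) := by
  obtain rfl : a = 0 := by simpa using ha
  obtain rfl : b = 0 := by simpa using hb
  obtain rfl : c = 0 := by simpa using hc
  rw [form0, show (([6, 4, 4, 3] : List ℕ) : Multiset ℕ) = {3, 4, 4, 6} from by decide]
  exact good_3_4_4_6

theorem exN_31 : exN [5, 5, 4, 3] = [] := by decide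

theorem eg_31 (a b c : ℕ) (ha : a = 0 ∨ 6291456 ∈ ([] : List ℕ))
    (hb : b = 0 ∨ 1610612736 ∈ ([] : List ℕ)) (hc : c = 0 ∨ 9223372036854775808 ∈ ([] : List ℕ))
    (hodd : (([5, 5, 4, 3] : List ℕ).sum + 9 * a + 24 * b + 9 * c) % 2 = 1)
    (h1 : (([5, 5, 4, 3] : List ℕ) : Multiset ℕ) + (a • T3 + b • T4 + c • T9) ≠ {3, 4})
    (h2 : (([5, 5, 4, 3] : List ℕ) : Multiset ℕ) + (a • T3 + b • T4 + c • T9) ≠ {3, 3, 3, 4})
    (h3 : (([5, 5, 4, 3] : List ℕ) : Multiset ℕ) + (a • T3 + b • T4 + c • T9) ≠ {3, 3, 5}) :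
    Good ((([5, 5, 4, 3] : List ℕ) : Multiset ℕ) + (a • T3 + b • T4 + c • T9)) := by
  obtain rfl : a = 0 := by simpa using ha
  obtain rfl : b = 0 := by simpa using hb
  obtain rfl : c = 0 := by simpa using hc
  rw [form0, show (([5, 5, 4, 3] : List ℕ) : Multiset ℕ) = {3, 4, 5, 5} from by decide]
  exact good_3_4_5_5

theorem exN_32 : exN [10, 4, 3] = [] := by decide

theorem eg_32 (a b c : ℕ) (ha : a = 0 ∨ 6291456 ∈ ([] : List ℕ))
    (hb : b = 0 ∨ 1610612736 ∈ ([] : List ℕ)) (hc : c = 0 ∨ 9223372036854775808 ∈ ([] : List ℕ))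
    (hodd : (([10, 4, 3] : List ℕ).sum + 9 * a + 24 * b + 9 * c) % 2 = 1)
    (h1 : (([10, 4, 3] : List ℕ) : Multiset ℕ) + (a • T3 + b • T4 + c • T9) ≠ {3, 4})
    (h2 : (([10, 4, 3] : List ℕ) : Multiset ℕ) + (a • T3 + b • T4 + c • T9) ≠ {3, 3, 3, 4})
    (h3 : (([10, 4, 3] : List ℕ) : Multiset ℕ) + (a • T3 + b • T4 + c • T9) ≠ {3, 3, 5}) :
    Good ((([10, 4, 3] : List ℕ) : Multiset ℕ) + (a • T3 + b • T4 + c • T9)) := by
  obtain rfl : a = 0 := by simpa using ha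
  obtain rfl : b = 0 := by simpa using hb
  obtain rfl : c = 0 := by simpa using hc
  rw [form0, show (([10, 4, 3] : List ℕ) : Multiset ℕ) = {3, 4, 10} from by decide]
  exact good_3_4_10

theorem exN_33 : exN [7, 7, 3] = [6291456] := by decide

theorem eg_33 (a b c : ℕ) (ha : a = 0 ∨ 6291456 ∈ ([6291456] : List ℕ))
    (hb : b = 0 ∨ 1610612736 ∈ ([6291456] : List ℕ)) (hc : c = 0 ∨ 9223372036854775808 ∈ ([6291456] : List ℕ))
    (hodd : (([7, 7, 3] : List ℕ).sum + 9 * a + 24 * b + 9 * c) % 2 = 1)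
    (h1 : (([7, 7, 3] : List ℕ) : Multiset ℕ) + (a • T3 + b • T4 + c • T9) ≠ {3, 4})
    (h2 : (([7, 7, 3] : List ℕ) : Multiset ℕ) + (a • T3 + b • T4 + c • T9) ≠ {3, 3, 3, 4})
    (h3 : (([7, 7, 3] : List ℕ) : Multiset ℕ) + (a • T3 + b • T4 + c • T9) ≠ {3, 3, 5}) :
    Good ((([7, 7, 3] : List ℕ) : Multiset ℕ) + (a • T3 + b • T4 + c • T9)) := by
  obtain rfl : b = 0 := by simpa using hb
  obtain rfl : c = 0 := by simpa using hc
  simp at hodd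
  by_cases ha : a = 0
  · subst ha
    rw [form0, show (([7, 7, 3] : List ℕ) : Multiset ℕ) = {3, 7, 7} from by decide]
    exact good_3_7_7
  · obtain ⟨d, rfl⟩ : ∃ d, a = d + 2 := ⟨a - 2, by omega⟩
    refine good_form d 0 0 _ ?_ sg_s77 (by simp; omega)
    rw [add_nsmul, show (([7, 7, 3, 3, 3, 3, 3, 3, 3] : List ℕ) : Multiset ℕ) =
      (([7, 7, 3] : List ℕ) : Multiset ℕ) + 2 • T3 from by decide]
    abel

theorem exN_34 : exN [5, 4, 4, 4] = [] := by decide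

theorem eg_34 (a b c : ℕ) (ha : a = 0 ∨ 6291456 ∈ ([] : List ℕ))
    (hb : b = 0 ∨ 1610612736 ∈ ([] : List ℕ)) (hc : c = 0 ∨ 9223372036854775808 ∈ ([] : List ℕ))
    (hodd : (([5, 4, 4, 4] : List ℕ).sum + 9 * a + 24 * b + 9 * c) % 2 = 1)
    (h1 : (([5, 4, 4, 4] : List ℕ) : Multiset ℕ) + (a • T3 + b • T4 + c • T9) ≠ {3, 4})
    (h2 : (([5, 4, 4, 4] : List ℕ) : Multiset ℕ) + (a • T3 + b • T4 + c • T9) ≠ {3, 3, 3, 4})
    (h3 : (([5, 4, 4, 4] : List ℕ) : Multiset ℕ) + (a • T3 + b • T4 + c • T9) ≠ {3, 3, 5}) :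
    Good ((([5, 4, 4, 4] : List ℕ) : Multiset ℕ) + (a • T3 + b • T4 + c • T9)) := by
  obtain rfl : a = 0 := by simpa using ha
  obtain rfl : b = 0 := by simpa using hb
  obtain rfl : c = 0 := by simpa using hc
  rw [form0, show (([5, 4, 4, 4] : List ℕ) : Multiset ℕ) = {4, 4, 4, 5} from by decide]
  exact good_4_4_4_5

theorem exN_35 : exN [7, 6, 4] = [] := by decide

theorem eg_35 (a b c : ℕ) (ha : a = 0 ∨ 6291456 ∈ ([] : List ℕ))
    (hb : b = 0 ∨ 1610612736 ∈ ([] : List ℕ)) (hc : c = 0 ∨ 9223372036854775808 ∈ ([] : List ℕ))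
    (hodd : (([7, 6, 4] : List ℕ).sum + 9 * a + 24 * b + 9 * c) % 2 = 1)
    (h1 : (([7, 6, 4] : List ℕ) : Multiset ℕ) + (a • T3 + b • T4 + c • T9) ≠ {3, 4})
    (h2 : (([7, 6, 4] : List ℕ) : Multiset ℕ) + (a • T3 + b • T4 + c • T9) ≠ {3, 3, 3, 4})
    (h3 : (([7, 6, 4] : List ℕ) : Multiset ℕ) + (a • T3 + b • T4 + c • T9) ≠ {3, 3, 5}) :
    Good ((([7, 6, 4] : List ℕ) : Multiset ℕ) + (a • T3 + b • T4 + c • T9)) := by
  obtain rfl : a = 0 := by simpa using ha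
  obtain rfl : b = 0 := by simpa using hb
  obtain rfl : c = 0 := by simpa using hc
  rw [form0, show (([7, 6, 4] : List ℕ) : Multiset ℕ) = {4, 6, 7} from by decide]
  exact good_4_6_7

theorem exN_36 : exN [7, 5, 5] = [] := by decide

theorem eg_36 (a b c : ℕ) (ha : a = 0 ∨ 6291456 ∈ ([] : List ℕ))
    (hb : b = 0 ∨ 1610612736 ∈ ([] : List ℕ)) (hc : c = 0 ∨ 9223372036854775808 ∈ ([] : List ℕ))
    (hodd : (([7, 5, 5] : List ℕ).sum + 9 * a + 24 * b + 9 * c) % 2 = 1)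
    (h1 : (([7, 5, 5] : List ℕ) : Multiset ℕ) + (a • T3 + b • T4 + c • T9) ≠ {3, 4})
    (h2 : (([7, 5, 5] : List ℕ) : Multiset ℕ) + (a • T3 + b • T4 + c • T9) ≠ {3, 3, 3, 4})
    (h3 : (([7, 5, 5] : List ℕ) : Multiset ℕ) + (a • T3 + b • T4 + c • T9) ≠ {3, 3, 5}) :
    Good ((([7, 5, 5] : List ℕ) : Multiset ℕ) + (a • T3 + b • T4 + c • T9)) := by
  obtain rfl : a = 0 := by simpa using ha
  obtain rfl : b = 0 := by simpa using hb
  obtain rfl : c = 0 := by simpa using hc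
  rw [form0, show (([7, 5, 5] : List ℕ) : Multiset ℕ) = {5, 5, 7} from by decide]
  exact good_5_5_7

theorem exN_37 : exN [4, 4, 4, 3, 3] = [] := by decide

theorem eg_37 (a b c : ℕ) (ha : a = 0 ∨ 6291456 ∈ ([] : List ℕ))
    (hb : b = 0 ∨ 1610612736 ∈ ([] : List ℕ)) (hc : c = 0 ∨ 9223372036854775808 ∈ ([] : List ℕ))
    (hodd : (([4, 4, 4, 3, 3] : List ℕ).sum + 9 * a + 24 * b + 9 * c) % 2 = 1)
    (h1 : (([4, 4, 4, 3, 3] : List ℕ) : Multiset ℕ) + (a • T3 + b • T4 + c • T9) ≠ {3, 4})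
    (h2 : (([4, 4, 4, 3, 3] : List ℕ) : Multiset ℕ) + (a • T3 + b • T4 + c • T9) ≠ {3, 3, 3, 4})
    (h3 : (([4, 4, 4, 3, 3] : List ℕ) : Multiset ℕ) + (a • T3 + b • T4 + c • T9) ≠ {3, 3, 5}) :
    Good ((([4, 4, 4, 3, 3] : List ℕ) : Multiset ℕ) + (a • T3 + b • T4 + c • T9)) := by
  obtain rfl : a = 0 := by simpa using ha
  obtain rfl : b = 0 := by simpa using hb
  obtain rfl : c = 0 := by simpa using hc
  exfalso
  simp at hodd

theorem exN_38 : exN [5, 5, 5, 3] = [] := by decide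

theorem eg_38 (a b c : ℕ) (ha : a = 0 ∨ 6291456 ∈ ([] : List ℕ))
    (hb : b = 0 ∨ 1610612736 ∈ ([] : List ℕ)) (hc : c = 0 ∨ 9223372036854775808 ∈ ([] : List ℕ))
    (hodd : (([5, 5, 5, 3] : List ℕ).sum + 9 * a + 24 * b + 9 * c) % 2 = 1)
    (h1 : (([5, 5, 5, 3] : List ℕ) : Multiset ℕ) + (a • T3 + b • T4 + c • T9) ≠ {3, 4})
    (h2 : (([5, 5, 5, 3] : List ℕ) : Multiset ℕ) + (a • T3 + b • T4 + c • T9) ≠ {3, 3, 3, 4})
    (h3 : (([5, 5, 5, 3] : List ℕ) : Multiset ℕ) + (a • T3 + b • T4 + c • T9) ≠ {3, 3, 5}) :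
    Good ((([5, 5, 5, 3] : List ℕ) : Multiset ℕ) + (a • T3 + b • T4 + c • T9)) := by
  obtain rfl : a = 0 := by simpa using ha
  obtain rfl : b = 0 := by simpa using hb
  obtain rfl : c = 0 := by simpa using hc
  exfalso
  simp at hodd

theorem exN_39 : exN [8, 7, 3] = [] := by decide

theorem eg_39 (a b c : ℕ) (ha : a = 0 ∨ 6291456 ∈ ([] : List ℕ))
    (hb : b = 0 ∨ 1610612736 ∈ ([] : List ℕ)) (hc : c = 0 ∨ 9223372036854775808 ∈ ([] : List ℕ))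
    (hodd : (([8, 7, 3] : List ℕ).sum + 9 * a + 24 * b + 9 * c) % 2 = 1)
    (h1 : (([8, 7, 3] : List ℕ) : Multiset ℕ) + (a • T3 + b • T4 + c • T9) ≠ {3, 4})
    (h2 : (([8, 7, 3] : List ℕ) : Multiset ℕ) + (a • T3 + b • T4 + c • T9) ≠ {3, 3, 3, 4})
    (h3 : (([8, 7, 3] : List ℕ) : Multiset ℕ) + (a • T3 + b • T4 + c • T9) ≠ {3, 3, 5}) :
    Good ((([8, 7, 3] : List ℕ) : Multiset ℕ) + (a • T3 + b • T4 + c • T9)) := by
  obtain rfl : a = 0 := by simpa using ha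
  obtain rfl : b = 0 := by simpa using hb
  obtain rfl : c = 0 := by simpa using hc
  exfalso
  simp at hodd

theorem exN_40 : exN [6, 4, 4, 4] = [] := by decide

theorem eg_40 (a b c : ℕ) (ha : a = 0 ∨ 6291456 ∈ ([] : List ℕ))
    (hb : b = 0 ∨ 1610612736 ∈ ([] : List ℕ)) (hc : c = 0 ∨ 9223372036854775808 ∈ ([] : List ℕ))
    (hodd : (([6, 4, 4, 4] : List ℕ).sum + 9 * a + 24 * b + 9 * c) % 2 = 1)
    (h1 : (([6, 4, 4, 4] : List ℕ) : Multiset ℕ) + (a • T3 + b • T4 + c • T9) ≠ {3, 4})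
    (h2 : (([6, 4, 4, 4] : List ℕ) : Multiset ℕ) + (a • T3 + b • T4 + c • T9) ≠ {3, 3, 3, 4})
    (h3 : (([6, 4, 4, 4] : List ℕ) : Multiset ℕ) + (a • T3 + b • T4 + c • T9) ≠ {3, 3, 5}) :
    Good ((([6, 4, 4, 4] : List ℕ) : Multiset ℕ) + (a • T3 + b • T4 + c • T9)) := by
  obtain rfl : a = 0 := by simpa using ha
  obtain rfl : b = 0 := by simpa using hb
  obtain rfl : c = 0 := by simpa using hc
  exfalso
  simp at hodd

theorem exN_41 : exN [5, 5, 5, 4] = [] := by decide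

theorem eg_41 (a b c : ℕ) (ha : a = 0 ∨ 6291456 ∈ ([] : List ℕ))
    (hb : b = 0 ∨ 1610612736 ∈ ([] : List ℕ)) (hc : c = 0 ∨ 9223372036854775808 ∈ ([] : List ℕ))
    (hodd : (([5, 5, 5, 4] : List ℕ).sum + 9 * a + 24 * b + 9 * c) % 2 = 1)
    (h1 : (([5, 5, 5, 4] : List ℕ) : Multiset ℕ) + (a • T3 + b • T4 + c • T9) ≠ {3, 4})
    (h2 : (([5, 5, 5, 4] : List ℕ) : Multiset ℕ) + (a • T3 + b • T4 + c • T9) ≠ {3, 3, 3, 4})
    (h3 : (([5, 5, 5, 4] : List ℕ) : Multiset ℕ) + (a • T3 + b • T4 + c • T9) ≠ {3, 3, 5}) :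
    Good ((([5, 5, 5, 4] : List ℕ) : Multiset ℕ) + (a • T3 + b • T4 + c • T9)) := by
  obtain rfl : a = 0 := by simpa using ha
  obtain rfl : b = 0 := by simpa using hb
  obtain rfl : c = 0 := by simpa using hc
  rw [form0, show (([5, 5, 5, 4] : List ℕ) : Multiset ℕ) = {4, 5, 5, 5} from by decide]
  exact good_4_5_5_5

theorem exN_42 : exN [7, 7, 3, 3] = [] := by decide

theorem eg_42 (a b c : ℕ) (ha : a = 0 ∨ 6291456 ∈ ([] : List ℕ))
    (hb : b = 0 ∨ 1610612736 ∈ ([] : List ℕ)) (hc : c = 0 ∨ 9223372036854775808 ∈ ([] : List ℕ))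
    (hodd : (([7, 7, 3, 3] : List ℕ).sum + 9 * a + 24 * b + 9 * c) % 2 = 1)
    (h1 : (([7, 7, 3, 3] : List ℕ) : Multiset ℕ) + (a • T3 + b • T4 + c • T9) ≠ {3, 4})
    (h2 : (([7, 7, 3, 3] : List ℕ) : Multiset ℕ) + (a • T3 + b • T4 + c • T9) ≠ {3, 3, 3, 4})
    (h3 : (([7, 7, 3, 3] : List ℕ) : Multiset ℕ) + (a • T3 + b • T4 + c • T9) ≠ {3, 3, 5}) :
    Good ((([7, 7, 3, 3] : List ℕ) : Multiset ℕ) + (a • T3 + b • T4 + c • T9)) := by
  obtain rfl : a = 0 := by simpa using ha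
  obtain rfl : b = 0 := by simpa using hb
  obtain rfl : c = 0 := by simpa using hc
  exfalso
  simp at hodd

theorem exN_43 : exN [4, 4, 4, 4, 3, 3] = [] := by decide

theorem eg_43 (a b c : ℕ) (ha : a = 0 ∨ 6291456 ∈ ([] : List ℕ))
    (hb : b = 0 ∨ 1610612736 ∈ ([] : List ℕ)) (hc : c = 0 ∨ 9223372036854775808 ∈ ([] : List ℕ))
    (hodd : (([4, 4, 4, 4, 3, 3] : List ℕ).sum + 9 * a + 24 * b + 9 * c) % 2 = 1)
    (h1 : (([4, 4, 4, 4, 3, 3] : List ℕ) : Multiset ℕ) + (a • T3 + b • T4 + c • T9) ≠ {3, 4})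
    (h2 : (([4, 4, 4, 4, 3, 3] : List ℕ) : Multiset ℕ) + (a • T3 + b • T4 + c • T9) ≠ {3, 3, 3, 4})
    (h3 : (([4, 4, 4, 4, 3, 3] : List ℕ) : Multiset ℕ) + (a • T3 + b • T4 + c • T9) ≠ {3, 3, 5}) :
    Good ((([4, 4, 4, 4, 3, 3] : List ℕ) : Multiset ℕ) + (a • T3 + b • T4 + c • T9)) := by
  obtain rfl : a = 0 := by simpa using ha
  obtain rfl : b = 0 := by simpa using hb
  obtain rfl : c = 0 := by simpa using hc
  exfalso
  simp at hodd

theorem exN_44 : exN [5, 5, 5, 5, 3] = [] := by decide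

theorem eg_44 (a b c : ℕ) (ha : a = 0 ∨ 6291456 ∈ ([] : List ℕ))
    (hb : b = 0 ∨ 1610612736 ∈ ([] : List ℕ)) (hc : c = 0 ∨ 9223372036854775808 ∈ ([] : List ℕ))
    (hodd : (([5, 5, 5, 5, 3] : List ℕ).sum + 9 * a + 24 * b + 9 * c) % 2 = 1)
    (h1 : (([5, 5, 5, 5, 3] : List ℕ) : Multiset ℕ) + (a • T3 + b • T4 + c • T9) ≠ {3, 4})
    (h2 : (([5, 5, 5, 5, 3] : List ℕ) : Multiset ℕ) + (a • T3 + b • T4 + c • T9) ≠ {3, 3, 3, 4})
    (h3 : (([5, 5, 5, 5, 3] : List ℕ) : Multiset ℕ) + (a • T3 + b • T4 + c • T9) ≠ {3, 3, 5}) :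
    Good ((([5, 5, 5, 5, 3] : List ℕ) : Multiset ℕ) + (a • T3 + b • T4 + c • T9)) := by
  obtain rfl : a = 0 := by simpa using ha
  obtain rfl : b = 0 := by simpa using hb
  obtain rfl : c = 0 := by simpa using hc
  rw [form0, show (([5, 5, 5, 5, 3] : List ℕ) : Multiset ℕ) = {3, 5, 5, 5, 5} from by decide]
  exact good_3_5_5_5_5

theorem exN_45 : exN [4, 4, 4, 4, 4, 3, 3] = [] := by decide

theorem eg_45 (a b c : ℕ) (ha : a = 0 ∨ 6291456 ∈ ([] : List ℕ))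
    (hb : b = 0 ∨ 1610612736 ∈ ([] : List ℕ)) (hc : c = 0 ∨ 9223372036854775808 ∈ ([] : List ℕ))
    (hodd : (([4, 4, 4, 4, 4, 3, 3] : List ℕ).sum + 9 * a + 24 * b + 9 * c) % 2 = 1)
    (h1 : (([4, 4, 4, 4, 4, 3, 3] : List ℕ) : Multiset ℕ) + (a • T3 + b • T4 + c • T9) ≠ {3, 4})
    (h2 : (([4, 4, 4, 4, 4, 3, 3] : List ℕ) : Multiset ℕ) + (a • T3 + b • T4 + c • T9) ≠ {3, 3, 3, 4})
    (h3 : (([4, 4, 4, 4, 4, 3, 3] : List ℕ) : Multiset ℕ) + (a • T3 + b • T4 + c • T9) ≠ {3, 3, 5}) :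
    Good ((([4, 4, 4, 4, 4, 3, 3] : List ℕ) : Multiset ℕ) + (a • T3 + b • T4 + c • T9)) := by
  obtain rfl : a = 0 := by simpa using ha
  obtain rfl : b = 0 := by simpa using hb
  obtain rfl : c = 0 := by simpa using hc
  exfalso
  simp at hodd

theorem exN_46 : exN [5, 5, 5, 5, 3, 3] = [] := by decide

theorem eg_46 (a b c : ℕ) (ha : a = 0 ∨ 6291456 ∈ ([] : List ℕ))
    (hb : b = 0 ∨ 1610612736 ∈ ([] : List ℕ)) (hc : c = 0 ∨ 9223372036854775808 ∈ ([] : List ℕ))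
    (hodd : (([5, 5, 5, 5, 3, 3] : List ℕ).sum + 9 * a + 24 * b + 9 * c) % 2 = 1)
    (h1 : (([5, 5, 5, 5, 3, 3] : List ℕ) : Multiset ℕ) + (a • T3 + b • T4 + c • T9) ≠ {3, 4})
    (h2 : (([5, 5, 5, 5, 3, 3] : List ℕ) : Multiset ℕ) + (a • T3 + b • T4 + c • T9) ≠ {3, 3, 3, 4})
    (h3 : (([5, 5, 5, 5, 3, 3] : List ℕ) : Multiset ℕ) + (a • T3 + b • T4 + c • T9) ≠ {3, 3, 5}) :
    Good ((([5, 5, 5, 5, 3, 3] : List ℕ) : Multiset ℕ) + (a • T3 + b • T4 + c • T9)) := by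
  obtain rfl : a = 0 := by simpa using ha
  obtain rfl : b = 0 := by simpa using hb
  obtain rfl : c = 0 := by simpa using hc
  exfalso
  simp at hodd

theorem exN_47 : exN [6, 4, 4, 4, 4, 4] = [1610612736] := by decide

theorem eg_47 (a b c : ℕ) (ha : a = 0 ∨ 6291456 ∈ ([1610612736] : List ℕ))
    (hb : b = 0 ∨ 1610612736 ∈ ([1610612736] : List ℕ)) (hc : c = 0 ∨ 9223372036854775808 ∈ ([1610612736] : List ℕ))
    (hodd : (([6, 4, 4, 4, 4, 4] : List ℕ).sum + 9 * a + 24 * b + 9 * c) % 2 = 1)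
    (h1 : (([6, 4, 4, 4, 4, 4] : List ℕ) : Multiset ℕ) + (a • T3 + b • T4 + c • T9) ≠ {3, 4})
    (h2 : (([6, 4, 4, 4, 4, 4] : List ℕ) : Multiset ℕ) + (a • T3 + b • T4 + c • T9) ≠ {3, 3, 3, 4})
    (h3 : (([6, 4, 4, 4, 4, 4] : List ℕ) : Multiset ℕ) + (a • T3 + b • T4 + c • T9) ≠ {3, 3, 5}) :
    Good ((([6, 4, 4, 4, 4, 4] : List ℕ) : Multiset ℕ) + (a • T3 + b • T4 + c • T9)) := by
  obtain rfl : a = 0 := by simpa using ha
  obtain rfl : c = 0 := by simpa using hc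
  exfalso
  simp at hodd
  omega

theorem exN_48 : exN [5, 5, 5, 5, 5, 4] = [] := by decide

theorem eg_48 (a b c : ℕ) (ha : a = 0 ∨ 6291456 ∈ ([] : List ℕ))
    (hb : b = 0 ∨ 1610612736 ∈ ([] : List ℕ)) (hc : c = 0 ∨ 9223372036854775808 ∈ ([] : List ℕ))
    (hodd : (([5, 5, 5, 5, 5, 4] : List ℕ).sum + 9 * a + 24 * b + 9 * c) % 2 = 1)
    (h1 : (([5, 5, 5, 5, 5, 4] : List ℕ) : Multiset ℕ) + (a • T3 + b • T4 + c • T9) ≠ {3, 4})
    (h2 : (([5, 5, 5, 5, 5, 4] : List ℕ) : Multiset ℕ) + (a • T3 + b • T4 + c • T9) ≠ {3, 3, 3, 4})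
    (h3 : (([5, 5, 5, 5, 5, 4] : List ℕ) : Multiset ℕ) + (a • T3 + b • T4 + c • T9) ≠ {3, 3, 5}) :
    Good ((([5, 5, 5, 5, 5, 4] : List ℕ) : Multiset ℕ) + (a • T3 + b • T4 + c • T9)) := by
  obtain rfl : a = 0 := by simpa using ha
  obtain rfl : b = 0 := by simpa using hb
  obtain rfl : c = 0 := by simpa using hc
  rw [form0, show (([5, 5, 5, 5, 5, 4] : List ℕ) : Multiset ℕ) = {4, 5, 5, 5, 5, 5} from by decide]
  exact good_4_5x5

theorem exN_49 : exN [5, 5, 5, 5, 5, 5, 3] = [] := by decide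

theorem eg_49 (a b c : ℕ) (ha : a = 0 ∨ 6291456 ∈ ([] : List ℕ))
    (hb : b = 0 ∨ 1610612736 ∈ ([] : List ℕ)) (hc : c = 0 ∨ 9223372036854775808 ∈ ([] : List ℕ))
    (hodd : (([5, 5, 5, 5, 5, 5, 3] : List ℕ).sum + 9 * a + 24 * b + 9 * c) % 2 = 1)
    (h1 : (([5, 5, 5, 5, 5, 5, 3] : List ℕ) : Multiset ℕ) + (a • T3 + b • T4 + c • T9) ≠ {3, 4})
    (h2 : (([5, 5, 5, 5, 5, 5, 3] : List ℕ) : Multiset ℕ) + (a • T3 + b • T4 + c • T9) ≠ {3, 3, 3, 4})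
    (h3 : (([5, 5, 5, 5, 5, 5, 3] : List ℕ) : Multiset ℕ) + (a • T3 + b • T4 + c • T9) ≠ {3, 3, 5}) :
    Good ((([5, 5, 5, 5, 5, 5, 3] : List ℕ) : Multiset ℕ) + (a • T3 + b • T4 + c • T9)) := by
  obtain rfl : a = 0 := by simpa using ha
  obtain rfl : b = 0 := by simpa using hb
  obtain rfl : c = 0 := by simpa using hc
  rw [form0, show (([5, 5, 5, 5, 5, 5, 3] : List ℕ) : Multiset ℕ) = {3, 5, 5, 5, 5, 5, 5} from by decide]
  exact good_3_5x6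

theorem exN_50 : exN [5, 5, 5, 5, 5, 5, 5, 3] = [] := by decide

theorem eg_50 (a b c : ℕ) (ha : a = 0 ∨ 6291456 ∈ ([] : List ℕ))
    (hb : b = 0 ∨ 1610612736 ∈ ([] : List ℕ)) (hc : c = 0 ∨ 9223372036854775808 ∈ ([] : List ℕ))
    (hodd : (([5, 5, 5, 5, 5, 5, 5, 3] : List ℕ).sum + 9 * a + 24 * b + 9 * c) % 2 = 1)
    (h1 : (([5, 5, 5, 5, 5, 5, 5, 3] : List ℕ) : Multiset ℕ) + (a • T3 + b • T4 + c • T9) ≠ {3, 4})
    (h2 : (([5, 5, 5, 5, 5, 5, 5, 3] : List ℕ) : Multiset ℕ) + (a • T3 + b • T4 + c • T9) ≠ {3, 3, 3, 4})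
    (h3 : (([5, 5, 5, 5, 5, 5, 5, 3] : List ℕ) : Multiset ℕ) + (a • T3 + b • T4 + c • T9) ≠ {3, 3, 5}) :
    Good ((([5, 5, 5, 5, 5, 5, 5, 3] : List ℕ) : Multiset ℕ) + (a • T3 + b • T4 + c • T9)) := by
  obtain rfl : a = 0 := by simpa using ha
  obtain rfl : b = 0 := by simpa using hb
  obtain rfl : c = 0 := by simpa using hc
  exfalso
  simp at hodd

theorem exN_51 : exN [5, 5, 5, 5, 5, 5, 5, 5, 5] = [] := by decide

theorem eg_51 (a b c : ℕ) (ha : a = 0 ∨ 6291456 ∈ ([] : List ℕ))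
    (hb : b = 0 ∨ 1610612736 ∈ ([] : List ℕ)) (hc : c = 0 ∨ 9223372036854775808 ∈ ([] : List ℕ))
    (hodd : (([5, 5, 5, 5, 5, 5, 5, 5, 5] : List ℕ).sum + 9 * a + 24 * b + 9 * c) % 2 = 1)
    (h1 : (([5, 5, 5, 5, 5, 5, 5, 5, 5] : List ℕ) : Multiset ℕ) + (a • T3 + b • T4 + c • T9) ≠ {3, 4})
    (h2 : (([5, 5, 5, 5, 5, 5, 5, 5, 5] : List ℕ) : Multiset ℕ) + (a • T3 + b • T4 + c • T9) ≠ {3, 3, 3, 4})
    (h3 : (([5, 5, 5, 5, 5, 5, 5, 5, 5] : List ℕ) : Multiset ℕ) + (a • T3 + b • T4 + c • T9) ≠ {3, 3, 5}) :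
    Good ((([5, 5, 5, 5, 5, 5, 5, 5, 5] : List ℕ) : Multiset ℕ) + (a • T3 + b • T4 + c • T9)) := by
  obtain rfl : a = 0 := by simpa using ha
  obtain rfl : b = 0 := by simpa using hb
  obtain rfl : c = 0 := by simpa using hc
  rw [form0, show (([5, 5, 5, 5, 5, 5, 5, 5, 5] : List ℕ) : Multiset ℕ) = {5, 5, 5, 5, 5, 5, 5, 5, 5} from by decide]
  exact good_5x9

theorem exN_52 : exN [5, 5, 5, 5, 5, 5, 5, 5, 5, 5] = [] := by decide

theorem eg_52 (a b c : ℕ) (ha : a = 0 ∨ 6291456 ∈ ([] : List ℕ))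
    (hb : b = 0 ∨ 1610612736 ∈ ([] : List ℕ)) (hc : c = 0 ∨ 9223372036854775808 ∈ ([] : List ℕ))
    (hodd : (([5, 5, 5, 5, 5, 5, 5, 5, 5, 5] : List ℕ).sum + 9 * a + 24 * b + 9 * c) % 2 = 1)
    (h1 : (([5, 5, 5, 5, 5, 5, 5, 5, 5, 5] : List ℕ) : Multiset ℕ) + (a • T3 + b • T4 + c • T9) ≠ {3, 4})
    (h2 : (([5, 5, 5, 5, 5, 5, 5, 5, 5, 5] : List ℕ) : Multiset ℕ) + (a • T3 + b • T4 + c • T9) ≠ {3, 3, 3, 4})
    (h3 : (([5, 5, 5, 5, 5, 5, 5, 5, 5, 5] : List ℕ) : Multiset ℕ) + (a • T3 + b • T4 + c • T9) ≠ {3, 3, 5}) :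
    Good ((([5, 5, 5, 5, 5, 5, 5, 5, 5, 5] : List ℕ) : Multiset ℕ) + (a • T3 + b • T4 + c • T9)) := by
  obtain rfl : a = 0 := by simpa using ha
  obtain rfl : b = 0 := by simpa using hb
  obtain rfl : c = 0 := by simpa using hc
  exfalso
  simp at hodd

theorem exN_53 : exN [5, 5, 5, 5, 5, 5, 5, 5, 5, 5, 3] = [] := by decide

theorem eg_53 (a b c : ℕ) (ha : a = 0 ∨ 6291456 ∈ ([] : List ℕ))
    (hb : b = 0 ∨ 1610612736 ∈ ([] : List ℕ)) (hc : c = 0 ∨ 9223372036854775808 ∈ ([] : List ℕ))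
    (hodd : (([5, 5, 5, 5, 5, 5, 5, 5, 5, 5, 3] : List ℕ).sum + 9 * a + 24 * b + 9 * c) % 2 = 1)
    (h1 : (([5, 5, 5, 5, 5, 5, 5, 5, 5, 5, 3] : List ℕ) : Multiset ℕ) + (a • T3 + b • T4 + c • T9) ≠ {3, 4})
    (h2 : (([5, 5, 5, 5, 5, 5, 5, 5, 5, 5, 3] : List ℕ) : Multiset ℕ) + (a • T3 + b • T4 + c • T9) ≠ {3, 3, 3, 4})
    (h3 : (([5, 5, 5, 5, 5, 5, 5, 5, 5, 5, 3] : List ℕ) : Multiset ℕ) + (a • T3 + b • T4 + c • T9) ≠ {3, 3, 5}) :
    Good ((([5, 5, 5, 5, 5, 5, 5, 5, 5, 5, 3] : List ℕ) : Multiset ℕ) + (a • T3 + b • T4 + c • T9)) := by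
  obtain rfl : a = 0 := by simpa using ha
  obtain rfl : b = 0 := by simpa using hb
  obtain rfl : c = 0 := by simpa using hc
  rw [form0, show (([5, 5, 5, 5, 5, 5, 5, 5, 5, 5, 3] : List ℕ) : Multiset ℕ) = {3, 5, 5, 5, 5, 5, 5, 5, 5, 5, 5} from by decide]
  exact good_3_5x10

theorem endgame (r : List ℕ) (hr : r ∈ badL) (a b c : ℕ) (ha : a = 0 ∨ 6291456 ∈ exN r)
    (hb : b = 0 ∨ 1610612736 ∈ exN r) (hc : c = 0 ∨ 9223372036854775808 ∈ exN r)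
    (hodd : (r.sum + 9 * a + 24 * b + 9 * c) % 2 = 1)
    (h1 : (r : Multiset ℕ) + (a • T3 + b • T4 + c • T9) ≠ {3, 4})
    (h2 : (r : Multiset ℕ) + (a • T3 + b • T4 + c • T9) ≠ {3, 3, 3, 4})
    (h3 : (r : Multiset ℕ) + (a • T3 + b • T4 + c • T9) ≠ {3, 3, 5}) :
    Good ((r : Multiset ℕ) + (a • T3 + b • T4 + c • T9)) := by
  simp only [badL, List.mem_cons, List.not_mem_nil, or_false] at hr
  rcases hr with rfl | rfl | rfl | rfl | rfl | rfl | rfl | rfl | rfl | rfl | rfl | rfl | rfl | rfl | rfl | rfl | rfl | rfl | rfl | rfl | rfl | rfl | rfl | rfl | rfl | rfl | rfl | rfl | rfl | rfl | rfl | rfl | rfl | rfl | rfl | rfl | rfl | rfl | rfl | rfl | rfl | rfl | rfl | rfl | rfl | rfl | rfl | rfl | rfl | rfl | rfl | rfl | rfl | rfl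
  · rw [exN_0] at ha hb hc
    exact eg_0 a b c ha hb hc hodd h1 h2 h3
  · rw [exN_1] at ha hb hc
    exact eg_1 a b c ha hb hc hodd h1 h2 h3
  · rw [exN_2] at ha hb hc
    exact eg_2 a b c ha hb hc hodd h1 h2 h3
  · rw [exN_3] at ha hb hc
    exact eg_3 a b c ha hb hc hodd h1 h2 h3
  · rw [exN_4] at ha hb hc
    exact eg_4 a b c ha hb hc hodd h1 h2 h3
  · rw [exN_5] at ha hb hc
    exact eg_5 a b c ha hb hc hodd h1 h2 h3
  · rw [exN_6] at ha hb hc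
    exact eg_6 a b c ha hb hc hodd h1 h2 h3
  · rw [exN_7] at ha hb hc
    exact eg_7 a b c ha hb hc hodd h1 h2 h3
  · rw [exN_8] at ha hb hc
    exact eg_8 a b c ha hb hc hodd h1 h2 h3
  · rw [exN_9] at ha hb hc
    exact eg_9 a b c ha hb hc hodd h1 h2 h3
  · rw [exN_10] at ha hb hc
    exact eg_10 a b c ha hb hc hodd h1 h2 h3
  · rw [exN_11] at ha hb hc
    exact eg_11 a b c ha hb hc hodd h1 h2 h3
  · rw [exN_12] at ha hb hc
    exact eg_12 a b c ha hb hc hodd h1 h2 h3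
  · rw [exN_13] at ha hb hc
    exact eg_13 a b c ha hb hc hodd h1 h2 h3
  · rw [exN_14] at ha hb hc
    exact eg_14 a b c ha hb hc hodd h1 h2 h3
  · rw [exN_15] at ha hb hc
    exact eg_15 a b c ha hb hc hodd h1 h2 h3
  · rw [exN_16] at ha hb hc
    exact eg_16 a b c ha hb hc hodd h1 h2 h3
  · rw [exN_17] at ha hb hc
    exact eg_17 a b c ha hb hc hodd h1 h2 h3
  · rw [exN_18] at ha hb hc
    exact eg_18 a b c ha hb hc hodd h1 h2 h3
  · rw [exN_19] at ha hb hc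
    exact eg_19 a b c ha hb hc hodd h1 h2 h3
  · rw [exN_20] at ha hb hc
    exact eg_20 a b c ha hb hc hodd h1 h2 h3
  · rw [exN_21] at ha hb hc
    exact eg_21 a b c ha hb hc hodd h1 h2 h3
  · rw [exN_22] at ha hb hc
    exact eg_22 a b c ha hb hc hodd h1 h2 h3
  · rw [exN_23] at ha hb hc
    exact eg_23 a b c ha hb hc hodd h1 h2 h3
  · rw [exN_24] at ha hb hc
    exact eg_24 a b c ha hb hc hodd h1 h2 h3
  · rw [exN_25] at ha hb hc
    exact eg_25 a b c ha hb hc hodd h1 h2 h3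
  · rw [exN_26] at ha hb hc
    exact eg_26 a b c ha hb hc hodd h1 h2 h3
  · rw [exN_27] at ha hb hc
    exact eg_27 a b c ha hb hc hodd h1 h2 h3
  · rw [exN_28] at ha hb hc
    exact eg_28 a b c ha hb hc hodd h1 h2 h3
  · rw [exN_29] at ha hb hc
    exact eg_29 a b c ha hb hc hodd h1 h2 h3
  · rw [exN_30] at ha hb hc
    exact eg_30 a b c ha hb hc hodd h1 h2 h3
  · rw [exN_31] at ha hb hc
    exact eg_31 a b c ha hb hc hodd h1 h2 h3
  · rw [exN_32] at ha hb hc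
    exact eg_32 a b c ha hb hc hodd h1 h2 h3
  · rw [exN_33] at ha hb hc
    exact eg_33 a b c ha hb hc hodd h1 h2 h3
  · rw [exN_34] at ha hb hc
    exact eg_34 a b c ha hb hc hodd h1 h2 h3
  · rw [exN_35] at ha hb hc
    exact eg_35 a b c ha hb hc hodd h1 h2 h3
  · rw [exN_36] at ha hb hc
    exact eg_36 a b c ha hb hc hodd h1 h2 h3
  · rw [exN_37] at ha hb hc
    exact eg_37 a b c ha hb hc hodd h1 h2 h3
  · rw [exN_38] at ha hb hc
    exact eg_38 a b c ha hb hc hodd h1 h2 h3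
  · rw [exN_39] at ha hb hc
    exact eg_39 a b c ha hb hc hodd h1 h2 h3
  · rw [exN_40] at ha hb hc
    exact eg_40 a b c ha hb hc hodd h1 h2 h3
  · rw [exN_41] at ha hb hc
    exact eg_41 a b c ha hb hc hodd h1 h2 h3
  · rw [exN_42] at ha hb hc
    exact eg_42 a b c ha hb hc hodd h1 h2 h3
  · rw [exN_43] at ha hb hc
    exact eg_43 a b c ha hb hc hodd h1 h2 h3
  · rw [exN_44] at ha hb hc
    exact eg_44 a b c ha hb hc hodd h1 h2 h3
  · rw [exN_45] at ha hb hc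
    exact eg_45 a b c ha hb hc hodd h1 h2 h3
  · rw [exN_46] at ha hb hc
    exact eg_46 a b c ha hb hc hodd h1 h2 h3
  · rw [exN_47] at ha hb hc
    exact eg_47 a b c ha hb hc hodd h1 h2 h3
  · rw [exN_48] at ha hb hc
    exact eg_48 a b c ha hb hc hodd h1 h2 h3
  · rw [exN_49] at ha hb hc
    exact eg_49 a b c ha hb hc hodd h1 h2 h3
  · rw [exN_50] at ha hb hc
    exact eg_50 a b c ha hb hc hodd h1 h2 h3
  · rw [exN_51] at ha hb hc
    exact eg_51 a b c ha hb hc hodd h1 h2 h3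
  · rw [exN_52] at ha hb hc
    exact eg_52 a b c ha hb hc hodd h1 h2 h3
  · rw [exN_53] at ha hb hc
    exact eg_53 a b c ha hb hc hodd h1 h2 h3

end Pool.Agent.helper33.BE
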