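import Pool.Agent.helper33.BE.Link
import Pool.Agent.helper33.BE.Lists
import Pool.Agent.helper12.BE.Geo

/-!
# Certificates for sums of a bad multiset and a tile
-/

namespace Pool.Agent.helper33.BE

open Pool.Agent.helper9.SV

/-- some list with code `g` and at most `31 * n` entries is fine -/
def HG (n g : ℕ) : Prop := ∃ l : List ℕ, encL l = g ∧ l.length ≤ 31 * n ∧ SG (l : Multiset ℕ)

theorem HG_mono {n n' g : ℕ} (h : n ≤ n') (hg : HG n g) : HG n' g := by
  obtain ⟨l, h1, h2, h3⟩ := hg
  exact ⟨l, h1, by omega, h3⟩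

theorem HG_end {g D : ℕ} (h : eT.get g = some D) : HG 1 g := by
  obtain ⟨h1, h2⟩ := fEnd_spec (Tr.get_spec eT_ok h)
  exact ⟨muD g, h1.1, by have := h1.2; omega, h2⟩

theorem HG_zero : HG 1 0 := ⟨[], rfl, by simp, SG_zero⟩

theorem HG_tile {n g k D : ℕ} (h : tT.get k = some D) (hk : k ≤ g) (hg : HG n (g - k)) :
    HG (n + 1) g := by
  obtain ⟨h1, h2⟩ := fTile_spec (Tr.get_spec tT_ok h)
  obtain ⟨l, h3, h4, h5⟩ := hg
  refine ⟨l ++ muD k, ?_, ?_, ?_⟩
  · rw [encL_append, h3, h1.1]; omega
  · rw [List.length_append]; have := h1.2; omega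
  · rw [← Multiset.coe_add]
    exact SG_add_tile h5 h2

/-- is the option non-empty -/
noncomputable def isS (o : Option ℕ) : Bool := Option.rec false (fun _ => true) o

theorem isS_spec {o : Option ℕ} (h : isS o = true) : ∃ d, o = some d := by
  cases o with
  | none => exact absurd h (by simp [isS])
  | some d => exact ⟨d, rfl⟩

/-- membership of numbers -/
noncomputable def memR (k : ℕ) (l : List ℕ) : Bool :=
  List.rec false (fun x _ ih => Bool.or (Nat.beq x k) ih) l

theorem memR_spec {k : ℕ} {l : List ℕ} (h : memR k l = true) : k ∈ l := by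
  induction l with
  | nil => exact absurd h (by simp [memR])
  | cons x l ih =>
    have h' : (Nat.beq x k || memR k l) = true := h
    rw [Bool.or_eq_true] at h'
    rcases h' with h' | h'
    · rw [Nat.eq_of_beq_eq_true h']; exact List.mem_cons_self
    · exact List.mem_cons_of_mem _ (ih h')

/-- the certificate test: subtract the tiles with the given numbers, then look up the rest -/
noncomputable def certB (iT : Tr) (f : ℕ) : ℕ → ℕ → Bool :=
  Nat.rec (fun g _ => Bool.or (Nat.beq g 0) (isS (eT.get g)))
    (fun _ ih g h => cond (Nat.beq (Nat.mod h 512) 0) (Bool.or (Nat.beq g 0) (isS (eT.get g)))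
      (Option.rec false (fun k => Bool.and (Nat.ble k g) (Bool.and (isS (tT.get k))
        (ih (Nat.sub g k) (Nat.div h 512)))) (iT.get (Nat.mod h 512)))) f

theorem base_spec {g : ℕ} (h : (Nat.beq g 0 || isS (eT.get g)) = true) : HG 1 g := by
  rw [Bool.or_eq_true] at h
  rcases h with h | h
  · rw [Nat.eq_of_beq_eq_true h]; exact HG_zero
  · obtain ⟨d, hd⟩ := isS_spec h
    exact HG_end hd

theorem certB_spec (iT : Tr) (f : ℕ) : ∀ g h, certB iT f g h = true → HG (f + 1) g := by
  induction f with
  | zero => intro g h hc; exact base_spec hc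
  | succ f ih =>
    intro g h hc
    have hc' : cond (Nat.beq (Nat.mod h 512) 0) (Nat.beq g 0 || isS (eT.get g))
      (Option.rec (motive := fun _ => Bool) false (fun k => Nat.ble k g && (isS (tT.get k) &&
        certB iT f (Nat.sub g k) (Nat.div h 512))) (iT.get (Nat.mod h 512))) = true := hc
    by_cases h1 : Nat.beq (Nat.mod h 512) 0 = true
    · rw [h1, cond_true] at hc'
      exact HG_mono (by omega) (base_spec hc')
    · rw [Bool.not_eq_true] at h1
      rw [h1, cond_false] at hc'
      cases hg : iT.get (Nat.mod h 512) with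
      | none => rw [hg] at hc'; exact absurd hc' (by simp)
      | some k =>
        rw [hg] at hc'
        simp only [Bool.and_eq_true] at hc'
        obtain ⟨h2, h3, h4⟩ := hc'
        obtain ⟨d, hd⟩ := isS_spec h3
        exact HG_tile hd (Nat.le_of_ble_eq_true h2) (ih _ _ h4)

/-- one row: all tiles `p` in the list, with hints in base `2 ^ 27` -/
noncomputable def rowB (iT : Tr) (kr : ℕ) (Nk : List ℕ) (P : List (List ℕ)) : ℕ → Bool :=
  List.rec (fun _ => true)
    (fun p _ ih D => Bool.and (Bool.or (memR (encL p) Nk)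
      (certB iT 3 (Nat.add kr (encL p)) (Nat.mod D 134217728))) (ih (Nat.div D 134217728))) P

theorem rowB_spec (iT : Tr) (kr : ℕ) (Nk : List ℕ) (P : List (List ℕ)) :
    ∀ D, rowB iT kr Nk P D = true → ∀ p ∈ P, encL p ∈ Nk ∨ HG 4 (kr + encL p) := by
  induction P with
  | nil => intro D _ p hp; exact absurd hp (by simp)
  | cons q P ih =>
    intro D h p hp
    have h' : ((memR (encL q) Nk || certB iT 3 (kr + encL q) (Nat.mod D 134217728)) &&
      rowB iT kr Nk P (Nat.div D 134217728)) = true := h
    rw [Bool.and_eq_true, Bool.or_eq_true] at h'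
    rcases List.mem_cons.1 hp with rfl | hp
    · rcases h'.1 with h1 | h1
      · exact Or.inl (memR_spec h1)
      · exact Or.inr (certB_spec iT 3 _ _ h1)
    · exact ih _ h'.2 p hp

theorem SG_of_HG {r p : List ℕ} (h : HG 4 (encL r + encL p)) (h1 : r.length + p.length < 128) :
    SG ((r : Multiset ℕ) + (p : Multiset ℕ)) := by
  obtain ⟨l, h2, h3, h4⟩ := h
  rw [← encL_append] at h2
  have := encL_inj h2 (by omega) (by rw [List.length_append]; exact h1)
  rw [Multiset.coe_add, ← Multiset.coe_eq_coe.2 this]
  exact h4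

end Pool.Agent.helper33.BE
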