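import Pool.Agent.helper33.BE.EndC

/-!
# Search trees of certificates
-/

namespace Pool.Agent.helper33.BE

open Pool.Agent.helper9.SV

/-- search trees with keys and data; `br` has no data -/
inductive Tr
  | nil
  | nd (l : Tr) (k d : ℕ) (r : Tr)
  | br (l : Tr) (k : ℕ) (r : Tr)

/-- all entries pass the test -/
noncomputable def Tr.all (f : ℕ → ℕ → Bool) (t : Tr) : Bool :=
  Tr.rec true (fun _ k d _ ihl ihr => Bool.and (f k d) (Bool.and ihl ihr))
    (fun _ _ _ ihl ihr => Bool.and ihl ihr) t

/-- look up a key -/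
noncomputable def Tr.get (x : ℕ) (t : Tr) : Option ℕ :=
  Tr.rec none
    (fun _ k d _ ihl ihr => cond (Nat.beq x k) (some d) (cond (Nat.blt x k) ihl ihr))
    (fun _ k _ ihl ihr => cond (Nat.blt x k) ihl ihr) t

theorem Tr.get_spec {f : ℕ → ℕ → Bool} {x d : ℕ} {t : Tr} : t.all f = true →
    t.get x = some d → f x d = true := by
  induction t with
  | nil => intro _ h; exact absurd h (by simp [Tr.get])
  | nd l k d' r ihl ihr =>
    intro ha h
    have ha' : (f k d' && (Tr.all f l && Tr.all f r)) = true := ha
    simp only [Bool.and_eq_true] at ha'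
    have h' : cond (Nat.beq x k) (some d') (cond (Nat.blt x k) (l.get x) (r.get x)) = some d := h
    by_cases h1 : Nat.beq x k = true
    · rw [h1, cond_true, Option.some.injEq] at h'
      rw [Nat.eq_of_beq_eq_true h1, ← h']
      exact ha'.1
    · rw [Bool.not_eq_true] at h1
      rw [h1, cond_false] at h'
      by_cases h2 : Nat.blt x k = true
      · rw [h2, cond_true] at h'
        exact ihl ha'.2.1 h'
      · rw [Bool.not_eq_true] at h2
        rw [h2, cond_false] at h'
        exact ihr ha'.2.2 h'
  | br l k r ihl ihr =>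
    intro ha h
    have ha' : (Tr.all f l && Tr.all f r) = true := ha
    simp only [Bool.and_eq_true] at ha'
    have h' : cond (Nat.blt x k) (l.get x) (r.get x) = some d := h
    by_cases h2 : Nat.blt x k = true
    · rw [h2, cond_true] at h'
      exact ihl ha'.1 h'
    · rw [Bool.not_eq_true] at h2
      rw [h2, cond_false] at h'
      exact ihr ha'.2 h'

/-- `n` copies of `x` in front of `acc` -/
noncomputable def rep (n x : ℕ) (acc : List ℕ) : List ℕ :=
  Nat.rec acc (fun _ ih => List.cons x ih) n

/-- auxiliary for `muD` -/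
noncomputable def muAux (fuel : ℕ) : ℕ → ℕ → List ℕ → List ℕ :=
  Nat.rec (fun _ _ acc => acc)
    (fun _ ih x k acc => ih (Nat.succ x) (Nat.div k 128) (rep (Nat.mod k 128) x acc)) fuel

/-- the (descending) list with code `k`, all parts between 3 and 24 -/
noncomputable def muD (k : ℕ) : List ℕ := muAux 22 3 (Nat.div k 2097152) []

/-- `k` is the code of `muD k` -/
noncomputable def canB (k : ℕ) : Bool :=
  Bool.and (Nat.beq (encL (muD k)) k) (Nat.blt (muD k).length 32)

/-- `k` is the code of `muD k` -/
def Can (k : ℕ) : Prop := encL (muD k) = k ∧ (muD k).length < 32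

theorem canB_spec {k : ℕ} (h : canB k = true) : Can k := by
  have h' : (Nat.beq (encL (muD k)) k && Nat.blt (muD k).length 32) = true := h
  rw [Bool.and_eq_true] at h'
  exact ⟨Nat.eq_of_beq_eq_true h'.1, by simpa using h'.2⟩

/-- test of an end piece -/
noncomputable def fEnd (k D : ℕ) : Bool := Bool.and (canB k) (chkEnd (muD k) D)
/-- test of a tile -/
noncomputable def fTile (k D : ℕ) : Bool := Bool.and (canB k) (chkTile (muD k) D)
/-- test of an open piece -/
noncomputable def fOpen (k D : ℕ) : Bool := Bool.and (canB k) (chkOpen (muD k) D)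

theorem fEnd_spec {k D : ℕ} (h : fEnd k D = true) : Can k ∧ SG (muD k : Multiset ℕ) := by
  have h' : (canB k && chkEnd (muD k) D) = true := h
  rw [Bool.and_eq_true] at h'
  exact ⟨canB_spec h'.1, chkEnd_spec h'.2⟩

theorem fTile_spec {k D : ℕ} (h : fTile k D = true) :
    Can k ∧ Tile (muD k : Multiset ℕ) ((muD k).sum / 3) := by
  have h' : (canB k && chkTile (muD k) D) = true := h
  rw [Bool.and_eq_true] at h'
  exact ⟨canB_spec h'.1, chkTile_spec h'.2⟩

theorem fOpen_spec {k D : ℕ} (h : fOpen k D = true) :
    Can k ∧ OT (muD k : Multiset ℕ) (D % 16) (((muD k).sum + D % 16) / 3 - 4) := by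
  have h' : (canB k && chkOpen (muD k) D) = true := h
  rw [Bool.and_eq_true] at h'
  exact ⟨canB_spec h'.1, chkOpen_spec h'.2⟩

end Pool.Agent.helper33.BE
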