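import Pool.Agent.helper33.BE.DE0
import Pool.Agent.helper33.BE.DE1
import Pool.Agent.helper33.BE.DE2
import Pool.Agent.helper33.BE.DE3
import Pool.Agent.helper33.BE.DE4
import Pool.Agent.helper33.BE.DE5
import Pool.Agent.helper33.BE.DO0
import Pool.Agent.helper33.BE.DO1
import Pool.Agent.helper33.BE.DT0

/-!
# The certificate trees
-/

namespace Pool.Agent.helper33.BE

theorem Tr.all_br {f : ℕ → ℕ → Bool} {l r : Tr} {k : ℕ} (hl : l.all f = true)
    (hr : r.all f = true) : (Tr.br l k r).all f = true := by
  change (l.all f && r.all f) = true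
  rw [hl, hr]
  rfl

/-- all certificates -/
def eT : Tr := (.br (.br eT0 1125934270775296 (.br eT1 1180591620957931569152 eT2)) 19342813113834102228779008 (.br eT3 316912650057057354806586245120 (.br eT4 5192296858534827630219346460016640 eT5)))

theorem eT_ok : eT.all fEnd = true :=
  (Tr.all_br (Tr.all_br eT0_ok (Tr.all_br eT1_ok eT2_ok)) (Tr.all_br eT3_ok (Tr.all_br eT4_ok eT5_ok)))

/-- all certificates -/
def oT : Tr := (.br oT0 151115727456227230220288 oT1)

theorem oT_ok : oT.all fOpen = true :=
  (Tr.all_br oT0_ok oT1_ok)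

/-- all certificates -/
def tT : Tr := tT0

theorem tT_ok : tT.all fTile = true :=
  tT0_ok

end Pool.Agent.helper33.BE
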